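import Pool.Agent.N184.HK.WDefs

/-!
# Project MT457: inertia groups
-/

set_option autoImplicit false

namespace Run7.h457.MT

/-- The property `P` holds for the elements of `I` in a neighbourhood of `1`. -/
def Near {Γ : Type} [Group Γ] [TopologicalSpace Γ] (I : Set Γ) (P : Γ → Prop) : Prop :=
  ∃ O : Set Γ, IsOpen O ∧ (1 : Γ) ∈ O ∧ ∀ σ ∈ O, σ ∈ I → P σ

open NumberField Pool.Agent.W401.Cheb in
/-- The inertia group of the maximal ideal `Q` of the ring of all algebraic integers. -/
def inertia {K : Type} [Field K] [NumberField K] (Q : Ideal (𝓞 (AlgebraicClosure K))) :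
    Set (GK K) :=
  {σ | ∀ x : 𝓞 (AlgebraicClosure K), σ • x - x ∈ Q}

end Run7.h457.MT
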