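import Pool.Agent.Run7.h457.MT.Defs
import Pool.Agent.Run7.h457.MT.Near

/-!
# Project MT457: the statements of the pieces

The whole argument: `X` hyperkähler over a number field, `L_i(σ) = log` of `σ` on `H^i`; from the
`N184.HK` library and Sen's theorem one gets `L_i(σ) = R_i (L_2(σ))` near `1`, where `R_i` is the
rational linear map given by the action of `so(H²)` on `H^i` (Verbitsky, Looijenga-Lunts). The pieces
below are independent of each other (except where stated) and need only Mathlib.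
-/

set_option autoImplicit false

namespace Run7.h457.MT

open Matrix Filter Topology
open Pool.Agent.N184.HK (Skew)

/-! ## P1: the logarithm near `1`

Write `g = 1 + ℓ² Y`, `Y` integral. `(g ^ ℓ^n - 1) / ℓ^n = ∑_{k ≥ 1} C(ℓ^n - 1, k - 1) (ℓ^(2k) / k) Y^k`
and `ℓ^(2k) / k ∈ ℓ³ ℤ_ℓ` for `k ≥ 2`. So the limit exists (Cauchy, or termwise) and it lies in
`ℓ² Y + ℓ³ ℤ_ℓ[Y] Y` (`ℤ_ℓ[Y]` is finitely generated, hence closed). With `Y' = L / ℓ²`:
`Y' = Y (1 + ℓ c(Y))`, `ℤ_ℓ[Y] = ℤ_ℓ[Y'] + ℓ ℤ_ℓ[Y]`, so `ℤ_ℓ[Y] = ℤ_ℓ[Y']` (Nakayama) and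
`g` is a polynomial in `L` (LOGSTAB). LOGFIX: `1 + ℓ c(Y)` is invertible on `ℤ_ℓ^κ`. -/

/-- LOGEX: matrices near `1` have a logarithm. -/
def S_LOGEX : Prop := ∀ (ℓ : ℕ) [Fact ℓ.Prime] (κ : Type) [Fintype κ] [DecidableEq κ]
  (g : Matrix κ κ ℚ_[ℓ]), NearOne 2 g → ∃ L, IsLog g L

/-- LOGSTAB: a subspace which is stable under `log g` is stable under `g`, for `g` near `1`. -/
def S_LOGSTAB : Prop := ∀ (ℓ : ℕ) [Fact ℓ.Prime] (κ : Type) [Fintype κ] [DecidableEq κ]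
  (g L : Matrix κ κ ℚ_[ℓ]), NearOne 2 g → IsLog g L → ∀ A : Submodule ℚ_[ℓ] (κ → ℚ_[ℓ]),
  (∀ x ∈ A, L *ᵥ x ∈ A) → ∀ x ∈ A, g *ᵥ x ∈ A

/-- LOGFIX: `log g` kills `x` only if `g` fixes `x`, for `g` near `1`. -/
def S_LOGFIX : Prop := ∀ (ℓ : ℕ) [Fact ℓ.Prime] (κ : Type) [Fintype κ] [DecidableEq κ]
  (g L : Matrix κ κ ℚ_[ℓ]), NearOne 2 g → IsLog g L → ∀ x, L *ᵥ x = 0 → g *ᵥ x = x

/-! ## P2: representations of `so(V, q)` are semisimple

Use `Pool.Agent.R918.Weyl.exists_projection` (Weyl's theorem for Lie algebras with nondegenerate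
Killing form) and the criterion of Cartan in Mathlib (`HasTrivialRadical` gives `IsKilling` in
characteristic zero), as in `Pool/Agent/R918/Kill.lean` (theorem `killing`): `V` is irreducible under
`so(V, q)` (use the elements `x ↦ q(b, x) a - q(a, x) b`), an element of the radical acts on `V` by a
scalar and has trace zero. -/

/-- WEYL -/
def S_WEYL : Prop := ∀ (K V W : Type) [Field K] [CharZero K] [IsAlgClosed K] [AddCommGroup V]
  [Module K V] [FiniteDimensional K V] [AddCommGroup W] [Module K W] [FiniteDimensional K W]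
  (q : LinearMap.BilinForm K V), q.IsSymm → q.Nondegenerate → 3 ≤ Module.finrank K V →
  ∀ ρ : Module.End K V →ₗ[K] Module.End K W,
  (∀ A B, Skew q A → Skew q B → ρ (A * B - B * A) = ρ A * ρ B - ρ B * ρ A) →
  ∀ N : Submodule K W, (∀ A, Skew q A → ∀ x ∈ N, ρ A x ∈ N) →
  ∃ f : Module.End K W, (∀ A, Skew q A → Commute (ρ A) f) ∧ (∀ m, f m ∈ N) ∧ ∀ n ∈ N, f n = n

/-- NILZ (from WEYL): an operator `T` in the centre of the commutant, with `tr (T z) = 0` for all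
idempotents `z` of the commutant, is zero: its eigenvalues are zero (take for `z` the projections to
the generalized eigenspaces of `T`), so it is nilpotent; `ker T ^ k` has an invariant complement, and
so `T = T s T` for some `s` in the commutant (`s` inverts `T` on the image), `T = s T² = s² T³ = …`. -/
def S_NILZ : Prop := ∀ (K V W : Type) [Field K] [CharZero K] [IsAlgClosed K] [AddCommGroup V]
  [Module K V] [FiniteDimensional K V] [AddCommGroup W] [Module K W] [FiniteDimensional K W]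
  (q : LinearMap.BilinForm K V), q.IsSymm → q.Nondegenerate → 3 ≤ Module.finrank K V →
  ∀ ρ : Module.End K V →ₗ[K] Module.End K W,
  (∀ A B, Skew q A → Skew q B → ρ (A * B - B * A) = ρ A * ρ B - ρ B * ρ A) →
  ∀ T : Module.End K W, (∀ A, Skew q A → Commute (ρ A) T) →
  (∀ c : Module.End K W, (∀ A, Skew q A → Commute (ρ A) c) → Commute c T) →
  (∀ z : Module.End K W, z * z = z → (∀ A, Skew q A → Commute (ρ A) z) →
    LinearMap.trace K W (T * z) = 0) → T = 0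

/-! ## P3: rational Lie algebras

Key remark: for a subspace `S` of `ℚ^N` and a field `F` over `ℚ`, `x ∈ F^N` lies in the `F`-span of `S`
iff `φ ∘ x ∈ S` for all `ℚ`-linear maps `φ : F → ℚ` (expand the entries of `x` in a `ℚ`-basis of their
span). -/

/-- SPAN -/
def S_SPAN : Prop := ∀ (F : Type) [Field F] [Algebra ℚ F] (ι : Type) [Fintype ι] [DecidableEq ι]
  (S : Submodule ℚ (Matrix ι ι ℚ)) (x : Matrix ι ι F),
  x ∈ ratSpan F (S : Set (Matrix ι ι ℚ)) ↔ ∀ φ : F →ₗ[ℚ] ℚ, x.map φ ∈ S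

/-- SPANV -/
def S_SPANV : Prop := ∀ (F : Type) [Field F] [Algebra ℚ F] (ι : Type) [Fintype ι]
  (S : Submodule ℚ (ι → ℚ)) (x : ι → F),
  x ∈ vecSpan F (S : Set (ι → ℚ)) ↔ ∀ φ : F →ₗ[ℚ] ℚ, (fun i => φ (x i)) ∈ S

/-- LIE: the Lie algebras of Mumford-Tate groups are functorial. `R (mtLie D D')` is a Lie algebra as
`mtLie D D' ≤ S`; and the elements of `S` which `R` maps to `mtLie (R D) (R D')` form a Lie algebra
with `D`, `D'` in its complex span. -/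
def S_LIE : Prop := ∀ (ι κ : Type) [Fintype ι] [DecidableEq ι] [Fintype κ] [DecidableEq κ]
  (S : Submodule ℚ (Matrix ι ι ℚ)) (R : Matrix ι ι ℚ →ₗ[ℚ] Matrix κ κ ℚ) (D D' : Matrix ι ι ℂ),
  IsLie S → LieOn S R → D ∈ ratSpan ℂ (S : Set (Matrix ι ι ℚ)) →
  D' ∈ ratSpan ℂ (S : Set (Matrix ι ι ℚ)) →
  mtLie (ext ℂ R D) (ext ℂ R D') = (mtLie D D').map R

/-- INV: the common kernel of the Lie algebra is spanned by Hodge classes. For a rational vector `v`
the elements `y` of `S` with `E y v = 0` form a Lie algebra. -/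
def S_INV : Prop := ∀ (F : Type) [Field F] [Algebra ℚ F] (ι κ : Type) [Fintype ι] [DecidableEq ι]
  [Fintype κ] [DecidableEq κ] (S : Submodule ℚ (Matrix ι ι ℚ))
  (E : Matrix ι ι ℚ →ₗ[ℚ] Matrix κ κ ℚ) (D D' : Matrix ι ι ℂ),
  IsLie S → LieOn S E → D ∈ ratSpan ℂ (S : Set (Matrix ι ι ℚ)) →
  D' ∈ ratSpan ℂ (S : Set (Matrix ι ι ℚ)) → ∀ x : κ → F,
  (∀ y ∈ mtLie D D', (E y).map (algebraMap ℚ F) *ᵥ x = 0) ↔
  x ∈ vecSpan F {v : κ → ℚ | ext ℂ E D *ᵥ (fun i => algebraMap ℚ ℂ (v i)) = 0 ∧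
    ext ℂ E D' *ᵥ (fun i => algebraMap ℚ ℂ (v i)) = 0}

/-! ## P4, P5: from Lie algebras to groups

Notation: for a matrix `x` let `∂_x` be the derivation of the polynomial ring in the entries of the
matrix `g` with `(∂_x f)(g) = d/dt f(g (1 + t x))`, that is `∂_x = ∑ (g x)_{ij} ∂/∂g_{ij}`; it commutes
with left translations `f ↦ f(a g)` and `∂_{[x,y]} = [∂_x, ∂_y]`.

P4 (GSUP). Let `𝔞 = mtLie D D'`, `F` a field over `ℚ`, `I_F` the set of polynomials `f` over `F` with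
`(∂_{x_1} ⋯ ∂_{x_r} f)(1) = 0` for all `r ≥ 0` and `x_1, …, x_r ∈ 𝔞` (rational!). It is an ideal, stable
under `∂_x` for `x` in the `F`-span of `𝔞`, and it is spanned by `I_ℚ`. `H(F) = {g ∈ GL(F) : f(g) = 0 for
all f ∈ I_F}` is a group: for `a ∈ H`, `f ∈ I`, the function `f_a(g) = f(a g)` lies in `I`, as
`(∂ ⋯ ∂ f_a)(1) = (∂ ⋯ ∂ f)(a) = 0`; `f ↦ f_a` is injective on the polynomials in `I` of degree `≤ d`,
so bijective, so `f = p_a` and `f(a⁻¹) = p(1) = 0`. `h z ∈ H(ℂ)`: `f(h(z))` is a Laurent polynomial in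
`z, conj z`, apply powers of `z ∂/∂z` and of `conj z ∂/∂conj z`, use `D, D' ∈ 𝔞 ⊗ ℂ` (Vandermonde; or:
`h` of the two independent variables). So `mumfordTate h ⊆ H(ℂ)`, and `g ∈ InMumfordTate` lies in `H`.
On the other hand let `Δ` be of finite index `N`, `J` the ideal of polynomials (over the algebraic
closure) which vanish on `ρ(Δ)`. For `σ ∈ Γ`, `IsLog (ρ σ) L`, `s ∈ Δ`, `f ∈ J`:
`f(ρ(s) ρ(σ)^(N! ℓ^n)) = 0`, hence `(∂_L f)(ρ(s)) = 0`, so `∂_L J ⊆ J`, and by linearity `∂_x J ⊆ J`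
for `x ∈ 𝔞`, hence `J ⊆ I`. -/

/-- GSUP -/
def S_GSUP : Prop := ∀ (ℓ : ℕ) [Fact ℓ.Prime] (κ : Type) [Fintype κ] [DecidableEq κ] (Γ : Type)
  [Group Γ] (ρ : Γ →* Matrix κ κ ℚ_[ℓ]) (h : ℂ → Matrix κ κ ℂ) (C : Type) [Fintype C]
  [DecidableEq C] (a b : C → ℤ) (e : C → Matrix κ κ ℂ),
  (∀ c c', e c * e c' = if c = c' then e c else 0) → ∑ c, e c = 1 →
  (∀ z : ℂ, z ≠ 0 → h z = ∑ c, (z ^ (-a c) * starRingEnd ℂ z ^ (-b c)) • e c) →
  (∀ x ∈ mtLie (∑ c, (a c : ℂ) • e c) (∑ c, (b c : ℂ) • e c),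
    x.map (algebraMap ℚ ℚ_[ℓ]) ∈ galLie ρ) →
  ∀ g : Matrix κ κ (AlgebraicClosure ℚ_[ℓ]), g.det ≠ 0 → InMumfordTate h g → InMonodromy ρ g

/-! P5 (GSUB). Let `J ⊆ ℚ[g_ij]` be the ideal of `mumfordTate h`, `J_ℂ` the complex polynomials which
vanish on it; `J_ℂ` is spanned by `J` (`J_ℂ` is stable under `Aut ℂ`, whose fixed field is `ℚ`).
`f(m h(z)) = 0` for `m ∈ mumfordTate h`, `f ∈ J_ℂ`; differentiate in `z`, `conj z` (independent
variables) to get `∂_D J_ℂ ⊆ J_ℂ`, `∂_{D'} J_ℂ ⊆ J_ℂ`. So the rational `x` with `∂_x J ⊆ J` form a Lie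
algebra with `D`, `D'` in its complex span, and `mtLie D D'` is contained in it. Given `f ∈ J` of
degree `d`, let `W` be the space of polynomials of degree `≤ d` over `ℚ_ℓ`, `π(g)` the right
translation; for `s` near `1`, `L = log ρ(s)` lies in `mt ⊗ ℚ_ℓ` so `∂_L = log π(ρ(s))` preserves
`J_{ℚ_ℓ} ∩ W`, so by LOGSTAB (`π(ρ(s))` is near `1`) `π(ρ(s))` preserves it, and `f(ρ(s)) =
(π(ρ(s)) f)(1) = 0`. -/

/-- GSUB (may use LOGSTAB and SPAN) -/
def S_GSUB : Prop := ∀ (ℓ : ℕ) [Fact ℓ.Prime] (κ : Type) [Fintype κ] [DecidableEq κ] (Γ : Type)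
  [Group Γ] (ρ : Γ →* Matrix κ κ ℚ_[ℓ]) (h : ℂ → Matrix κ κ ℂ) (C : Type) [Fintype C]
  [DecidableEq C] (a b : C → ℤ) (e : C → Matrix κ κ ℂ),
  (∀ c c', e c * e c' = if c = c' then e c else 0) → ∑ c, e c = 1 →
  (∀ z : ℂ, z ≠ 0 → h z = ∑ c, (z ^ (-a c) * starRingEnd ℂ z ^ (-b c)) • e c) →
  (∀ N : ℕ, ∃ Δ : Subgroup Γ, Δ.FiniteIndex ∧ ∀ s ∈ Δ, NearOne N (ρ s)) →
  (∀ L ∈ galLie ρ, L ∈ ratSpan ℚ_[ℓ]
    (mtLie (∑ c, (a c : ℂ) • e c) (∑ c, (b c : ℂ) • e c) : Set (Matrix κ κ ℚ))) →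
  ∀ g : Matrix κ κ (AlgebraicClosure ℚ_[ℓ]), g.det ≠ 0 → InMonodromy ρ g → InMumfordTate h g

/-! ## P6: tensor products

`PRODLIM`: if `t_n → 0`, `t_n⁻¹ (a_s(n) - a_s) → b_s` for all `s` in a finite set, then
`t_n⁻¹ (∏ a_s(n) - ∏ a_s) → ∑_s b_s ∏_{t ≠ s} a_t`. `DETLIM` and `KLOG` follow. -/

/-- DETLIM -/
def S_DETLIM : Prop := ∀ (F : Type) [Field F] [TopologicalSpace F] [IsTopologicalRing F]
  (κ : Type) [Fintype κ] [DecidableEq κ] (t : ℕ → F) (M : ℕ → Matrix κ κ F) (L : Matrix κ κ F),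
  (∀ n, t n ≠ 0) → Tendsto t atTop (𝓝 0) → Tendsto (fun n => (t n)⁻¹ • (M n - 1)) atTop (𝓝 L) →
  Tendsto (fun n => (t n)⁻¹ * ((M n).det - 1)) atTop (𝓝 L.trace)

section

variable (S : Type) [Fintype S] [DecidableEq S] (I : S → Type) [∀ s, Fintype (I s)]
  [∀ s, DecidableEq (I s)]

/-- KMUL -/
def S_KMUL : Prop := ∀ (F : Type) [Field F] (A B : ∀ s, Matrix (I s) (I s) F),
  kron A * kron B = kron (fun s => A s * B s) ∧
  kron (fun s => (1 : Matrix (I s) (I s) F)) = 1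

/-- KLOG -/
def S_KLOG : Prop := ∀ (ℓ : ℕ) [Fact ℓ.Prime] (A L : ∀ s, Matrix (I s) (I s) ℚ_[ℓ]),
  (∀ s, IsLog (A s) (L s)) → IsLog (kron A) (dkron L)

/-- KLIE -/
def S_KLIE : Prop := ∀ (F : Type) [Field F] (L M : ∀ s, Matrix (I s) (I s) F),
  dkron (fun s => L s * M s - M s * L s) = dkron L * dkron M - dkron M * dkron L

/-- KLIN: `dkron` is linear and commutes with maps of fields. -/
def S_KLIN : Prop := ∀ (F F' : Type) [Field F] [Field F'] (φ : F →+* F')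
  (L M : ∀ s, Matrix (I s) (I s) F) (c : F),
  dkron (fun s => L s + M s) = dkron L + dkron M ∧ dkron (fun s => c • L s) = c • dkron L ∧
  (dkron L).map φ = dkron (fun s => (L s).map φ) ∧
  (kron L).map φ = kron (fun s => (L s).map φ)

/-- KHOD: the tensor product of Hodge structures: the projections `e c = ⊗ e_s (c s)`. -/
def S_KHOD : Prop := ∀ (i : S → ℕ) (V : ∀ s, HodgeStr (i s) (I s)),
  (∀ c c' : ∀ s, Fin (i s + 1), kron (fun s => (V s).e (c s)) * kron (fun s => (V s).e (c' s)) =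
    if c = c' then kron (fun s => (V s).e (c s)) else 0) ∧
  ∑ c : ∀ s, Fin (i s + 1), kron (fun s => (V s).e (c s)) = 1 ∧
  (∀ z : ℂ, z ≠ 0 → kron (fun s => (V s).h z) = ∑ c : ∀ s, Fin (i s + 1),
    (z ^ (-∑ s, ((c s : ℕ) : ℤ)) * starRingEnd ℂ z ^ (-∑ s, ((i s - c s : ℕ) : ℤ))) •
      kron (fun s => (V s).e (c s))) ∧
  dkron (fun s => (V s).D) = ∑ c : ∀ s, Fin (i s + 1),
    ((∑ s, ((c s : ℕ) : ℤ) : ℤ) : ℂ) • kron (fun s => (V s).e (c s)) ∧
  dkron (fun s => (V s).D') = ∑ c : ∀ s, Fin (i s + 1),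
    ((∑ s, ((i s - c s : ℕ) : ℤ) : ℤ) : ℂ) • kron (fun s => (V s).e (c s))

end

/-! ## C1: class field theory

`CFT K ℓ`: an open subgroup `U` of the absolute Galois group of a number field has no nonzero continuous
homomorphism to `ℚ_ℓ` which is trivial on open subgroups of the inertia groups above `ℓ`. (It would be
unramified outside `ℓ` as well, as inertia there is tame up to pro-`p` and `Nv - 1 ≠ 0`, so it would factor
through the class group.) It can be used as a hypothesis, as it is a classical theorem; a proof would be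
better. -/

open NumberField Pool.Agent.W401.Cheb in
/-- No everywhere unramified additive characters. -/
def CFT (K : Type) [Field K] [NumberField K] (ℓ : ℕ) [Fact ℓ.Prime] : Prop :=
  ∀ U : Subgroup (GK K), IsOpen (U : Set (GK K)) → ∀ f : GK K → ℚ_[ℓ], ContinuousOn f U →
  (∀ σ ∈ U, ∀ τ ∈ U, f (σ * τ) = f σ + f τ) →
  (∀ Q : Ideal (𝓞 (AlgebraicClosure K)), Q.IsMaximal → (ℓ : 𝓞 (AlgebraicClosure K)) ∈ Q →
    Near (inertia Q) fun σ => σ ∈ U → f σ = 0) → ∀ σ ∈ U, f σ = 0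

end Run7.h457.MT
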