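import Pool.Agent.N184.HK.WDefs

/-!
# Project MT457: the cyclotomic character
-/

set_option autoImplicit false

namespace Run7.h457.MT

open Pool.Agent.W401.Cheb

noncomputable section

/-- The cyclotomic character of the absolute Galois group, as a character with values in `ℚ_ℓ`. -/
def cyc (K : Type) [Field K] (ℓ : ℕ) [Fact ℓ.Prime] : GK K →* ℚ_[ℓ] :=
  ((PadicInt.Coe.ringHom (p := ℓ)).toMonoidHom.comp (Units.coeHom ℤ_[ℓ])).comp
    ((cyclotomicCharacter (AlgebraicClosure K) ℓ).comp
      (MulSemiringAction.toRingAut (GK K) (AlgebraicClosure K)))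

end

end Run7.h457.MT
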