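import Pool.Agent.Run7.h457.MT.Defs

/-!
# Project MT457: the Künneth formula
-/

set_option autoImplicit false

namespace Run7.h457.MT

open Matrix

noncomputable section

section kunneth

variable {S : Type} [Fintype S] [DecidableEq S]

/-- The indices `(a_s)` of the Künneth decomposition of `H^i` of a product: `a_s ≤ d_s`,
`∑ a_s = i`. -/
abbrev KIdx (d : S → ℕ) (i : ℕ) : Type := {a : ∀ s, Fin (d s + 1) // ∑ s, (a s : ℕ) = i}

/-- The index set of the basis of `H^i` of a product given by the Künneth formula. -/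
abbrev KTot (n : S → ℕ → ℕ) (d : S → ℕ) (i : ℕ) : Type := Σ a : KIdx d i, ∀ s, Fin (n s (a.1 s))

/-- The operator on `H^i` of the product which is the tensor product of the operators `A s (a_s)` on
the summand with the index `(a_s)`. -/
def kun {F : Type} [Field F] {n : S → ℕ → ℕ} (d : S → ℕ) (i : ℕ)
    (A : ∀ s j, Matrix (Fin (n s j)) (Fin (n s j)) F) : Matrix (KTot n d i) (KTot n d i) F :=
  Matrix.blockDiagonal' fun a : KIdx d i => kron fun s => A s (a.1 s)

/-- The operator on `H^i` of the product which is `∑ 1 ⊗ ⋯ ⊗ A s (a_s) ⊗ ⋯ ⊗ 1` on the summand with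
the index `(a_s)`. -/
def dkun {F : Type} [Field F] {n : S → ℕ → ℕ} (d : S → ℕ) (i : ℕ)
    (A : ∀ s j, Matrix (Fin (n s j)) (Fin (n s j)) F) : Matrix (KTot n d i) (KTot n d i) F :=
  Matrix.blockDiagonal' fun a : KIdx d i => dkron fun s => A s (a.1 s)

end kunneth

end

end Run7.h457.MT
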