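import Pool.Agent.Run7.h457.MT.DataDefs

/-!
# Project MT457: the Mumford-Tate conjecture in degree two
-/

set_option autoImplicit false

namespace Run7.h457.MT

open Matrix

noncomputable section

variable {T : Type} [Fintype T] [DecidableEq T]

/-- The Mumford-Tate conjecture for `⊕ H²(X_t)`, in the form of Lie algebras: the Lie algebra of the
image of the Galois group is the `ℚ_ℓ`-span of the Lie algebra of the Mumford-Tate group. -/
def MTTwo {ℓ : ℕ} [Fact ℓ.Prime] {Γ : Type} {d : T → ℕ} (B : ∀ t, LLV (d t))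
    (W : ∀ t, (B t).Hodge)
    (G : ∀ t i, Γ → Matrix (Fin ((B t).n i)) (Fin ((B t).n i)) ℚ_[ℓ]) : Prop :=
  galLie (fun σ => Matrix.blockDiagonal' fun t => G t 2 σ) = ratSpan ℚ_[ℓ]
    (mtLie (Matrix.blockDiagonal' fun t => ((W t).V 2).D)
      (Matrix.blockDiagonal' fun t => ((W t).V 2).D') : Set _)

end

end Run7.h457.MT
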