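import Pool.Agent.Run7.h457.MT.Data
import Pool.Agent.Run7.h457.MT.Kun
import Pool.Agent.Run7.h457.MT.Two

/-!
# Project MT457: the abstract part of the final argument (pieces P7, P8, P9)
-/

set_option autoImplicit false

namespace Run7.h457.MT

open Matrix Filter Topology

noncomputable section

variable {T : Type} [Fintype T] [DecidableEq T]

/-- The action of `Γ` on `H^i` of the product of the `X_(τ s)`. -/
def kunRep {ℓ : ℕ} [Fact ℓ.Prime] {Γ : Type} [Group Γ] {d : T → ℕ} (B : ∀ t, LLV (d t))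
    (G : ∀ t i, Γ →* Matrix (Fin ((B t).n i)) (Fin ((B t).n i)) ℚ_[ℓ])
    {S : Type} [Fintype S] [DecidableEq S] (τ : S → T) (i : ℕ) (σ : Γ) :
    Matrix (KTot (fun s j => (B (τ s)).n j) (fun s => d (τ s)) i)
      (KTot (fun s j => (B (τ s)).n j) (fun s => d (τ s)) i) ℚ_[ℓ] :=
  kun (n := fun s j => (B (τ s)).n j) (fun s => d (τ s)) i fun s j => G (τ s) j σ

/-- The conclusion of the number theoretic part: near `1` the logarithm of `σ` on `H^i(X_t)` is the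
image of the logarithm of `σ` on `H²(X_t)` under the rational linear map `R i`. -/
def LogRel {ℓ : ℕ} [Fact ℓ.Prime] {Γ : Type} [Group Γ] {d : T → ℕ} (B : ∀ t, LLV (d t))
    (G : ∀ t i, Γ →* Matrix (Fin ((B t).n i)) (Fin ((B t).n i)) ℚ_[ℓ]) : Prop :=
  ∀ N : ℕ, ∃ Δ : Subgroup Γ, Δ.FiniteIndex ∧ ∀ σ ∈ Δ, ∀ t, ∀ i ≤ d t, NearOne N (G t i σ) ∧
    ∀ L, IsLog (G t 2 σ) L → IsLog (G t i σ) (ext ℚ_[ℓ] ((B t).R i) L)

/-! ## P7: facts on `kun`, from P6 (block by block) -/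

/-- P7: formal properties of `kun`. -/
def S_KUN : Prop := ∀ (S : Type) [Fintype S] [DecidableEq S] (n : S → ℕ → ℕ) (d : S → ℕ) (i : ℕ),
  (∀ (F : Type) [Field F] (A B : ∀ s j, Matrix (Fin (n s j)) (Fin (n s j)) F),
    kun d i A * kun d i B = kun d i (fun s j => A s j * B s j) ∧
    kun (n := n) d i (fun s j => (1 : Matrix (Fin (n s j)) (Fin (n s j)) F)) = 1 ∧
    dkun d i (fun s j => A s j * B s j - B s j * A s j) =
      dkun d i A * dkun d i B - dkun d i B * dkun d i A) ∧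
  (∀ (ℓ : ℕ) [Fact ℓ.Prime] (A L : ∀ s j, Matrix (Fin (n s j)) (Fin (n s j)) ℚ_[ℓ]),
    (∀ s, ∀ j ≤ d s, IsLog (A s j) (L s j)) → IsLog (kun d i A) (dkun d i L)) ∧
  (∀ (ℓ : ℕ) [Fact ℓ.Prime] (N : ℕ) (A : ∀ s j, Matrix (Fin (n s j)) (Fin (n s j)) ℚ_[ℓ]),
    (∀ s, ∀ j ≤ d s, NearOne N (A s j)) → NearOne N (kun d i A))

/-! ## P8, P9: the main theorems from the relation between the logarithms

Let `ι = Σ t, Fin (n_t 2)`, `𝔪 ⊆ M_ι(ℚ)` the block diagonal matrices with blocks `c + skew`; it is a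
Lie algebra, and `blockDiagonal' D_t`, `blockDiagonal' D'_t` are in its complex span (`D_t = 1 + J_t`,
`D'_t = 1 - J_t`, as `ρ_two`; a complex skew matrix is in the span of the rational ones: use
`x ↦ x - q⁻¹ xᵀ q`). For `A ∈ M_ι(ℚ)` let `E(A) = dkun (fun s j => R_{τ s, j} (blockDiag' A (τ s)))`
(linear; it respects brackets on `𝔪`, by `bracket` and P6). By `LogRel` and `S_KUN`, for `σ` near `1`
with the logarithm `L` on `⊕ H²(X_t)` the logarithm of `kunRep σ` is `ext E L`. Hence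
`galLie (kunRep) = ext E (galLie (⊕ H²)) = E (mtLie) ⊗ ℚ_ℓ = mtLie (dkun D) (dkun D') ⊗ ℚ_ℓ` (`S_LIE`;
`ext E (blockDiagonal' D_t) = dkun D` by Verbitsky's relation `verb`; in `galLie` one may restrict to a
subgroup of finite index: `IsLog g L → IsLog (g^k) (k L)`). P8 follows from `S_GSUP`, `S_GSUB`, with
`C = Σ a : KIdx, ∀ s, Fin (a_s + 1)` and `S_KHOD` block by block.
P9: the same with `E'(A) = E(A) - j tr(A_t) / n_t` for a fixed `t` (the multiplier of the form `q_t`,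
which does not depend on `t`; if `T` is empty everything is trivial): `χ ^ j • kunRep` has the logarithm
`ext E' L`; use `S_LOGFIX` and `S_INV`. -/

/-- P8: the Mumford-Tate conjecture for all products, in all degrees. -/
def S_MTC : Prop := ∀ (ℓ : ℕ) [Fact ℓ.Prime] (Γ : Type) [Group Γ] (T : Type) [Fintype T]
  [DecidableEq T] (d : T → ℕ), (∀ t, 2 ≤ d t) → ∀ (B : ∀ t, LLV (d t)) (W : ∀ t, (B t).Hodge)
  (G : ∀ t i, Γ →* Matrix (Fin ((B t).n i)) (Fin ((B t).n i)) ℚ_[ℓ]),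
  LogRel B G → MTTwo B W (fun t i σ => G t i σ) →
  ∀ (S : Type) [Fintype S] [DecidableEq S] (τ : S → T) (i : ℕ)
  (ρ : Γ →* Matrix (KTot (fun s j => (B (τ s)).n j) (fun s => d (τ s)) i)
      (KTot (fun s j => (B (τ s)).n j) (fun s => d (τ s)) i) ℚ_[ℓ]),
  (∀ σ, ρ σ = kunRep B G τ i σ) →
  galLie (fun σ => ρ σ) = ratSpan ℚ_[ℓ]
    (mtLie (dkun (n := fun s j => (B (τ s)).n j) (fun s => d (τ s)) i
        fun s j => ((W (τ s)).V j).D)
      (dkun (n := fun s j => (B (τ s)).n j) (fun s => d (τ s)) i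
        fun s j => ((W (τ s)).V j).D') : Set _) ∧
  MumfordTateConjecture (fun z => kun (n := fun s j => (B (τ s)).n j) (fun s => d (τ s)) i
    fun s j => ((W (τ s)).V j).h z) ρ

/-- P9: on all products the Tate classes are the span of the Hodge classes. -/
def S_TATE : Prop := ∀ (ℓ : ℕ) [Fact ℓ.Prime] (Γ : Type) [Group Γ] (T : Type) [Fintype T]
  [DecidableEq T] (d : T → ℕ), (∀ t, 2 ≤ d t) → ∀ (B : ∀ t, LLV (d t)) (W : ∀ t, (B t).Hodge)
  (G : ∀ t i, Γ →* Matrix (Fin ((B t).n i)) (Fin ((B t).n i)) ℚ_[ℓ]),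
  LogRel B G → MTTwo B W (fun t i σ => G t i σ) →
  ∀ (χ : Γ →* ℚ_[ℓ]), (∀ N : ℕ, ∃ Δ : Subgroup Γ, Δ.FiniteIndex ∧ ∀ σ ∈ Δ,
      ‖χ σ - 1‖ ≤ ((ℓ : ℝ) ^ N)⁻¹) →
  (∀ t σ, (G t 2 σ)ᵀ * (B t).q.map (algebraMap ℚ ℚ_[ℓ]) * G t 2 σ =
    (χ σ ^ 2)⁻¹ • (B t).q.map (algebraMap ℚ ℚ_[ℓ])) →
  ∀ (S : Type) [Fintype S] [DecidableEq S] (τ : S → T) (j : ℕ)
  (x : KTot (fun s j => (B (τ s)).n j) (fun s => d (τ s)) (2 * j) → ℚ_[ℓ]),
  (∃ Δ : Subgroup Γ, Δ.FiniteIndex ∧ ∀ σ ∈ Δ, χ σ ^ j • (kunRep B G τ (2 * j) σ *ᵥ x) = x) ↔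
  x ∈ vecSpan ℚ_[ℓ] {v | dkun (n := fun s j => (B (τ s)).n j) (fun s => d (τ s)) (2 * j)
      (fun s i => ((W (τ s)).V i).D) *ᵥ (fun k => algebraMap ℚ ℂ (v k)) =
    (j : ℂ) • fun k => algebraMap ℚ ℂ (v k)}

end

end Run7.h457.MT
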