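import Pool.Agent.Run7.h457.MT.HKOne
import Pool.Agent.Run7.h457.MT.CycDef
import Pool.Agent.Run7.h457.MT.Two
import Pool.Agent.Run7.h457.MT.Kun
import Pool.Agent.Run7.h615.MT.P7

/-!
# Project MT457: products of projective hyperkähler varieties over a number field
-/

set_option autoImplicit false

namespace Run7.h457.MT

open Matrix NumberField Pool.Agent.N184.HK Pool.Agent.W401.Cheb

noncomputable section

variable {K : Type} [Field K] [NumberField K] {ℓ : ℕ} [Fact ℓ.Prime]

/-- The index set of the basis of `H^i` of a product given by the Künneth formula, for factors of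
dimensions `d s` with the Betti numbers `n s j`. -/
def KInd {S : Type} [Fintype S] [DecidableEq S] (n : S → ℕ → ℕ) (d : S → ℕ) (i : ℕ) : Type :=
  KTot n d i

instance {S : Type} [Fintype S] [DecidableEq S] (n : S → ℕ → ℕ) (d : S → ℕ) (i : ℕ) :
    Fintype (KInd n d i) :=
  inferInstanceAs (Fintype (KTot n d i))

instance {S : Type} [Fintype S] [DecidableEq S] (n : S → ℕ → ℕ) (d : S → ℕ) (i : ℕ) :
    DecidableEq (KInd n d i) :=
  inferInstanceAs (DecidableEq (KTot n d i))

section product

variable {S : Type} [Fintype S] [DecidableEq S] (V : S → HK K ℓ)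

/-- The index set of the basis of `H^i` of the product of the varieties `V s`, `s ∈ S` (Künneth
formula). -/
def Idx (i : ℕ) : Type := KInd (fun s => (V s).B.n) (fun s => (V s).X.d) i

instance (i : ℕ) : Fintype (Idx V i) :=
  inferInstanceAs (Fintype (KInd (fun s => (V s).B.n) (fun s => (V s).X.d) i))

instance (i : ℕ) : DecidableEq (Idx V i) :=
  inferInstanceAs (DecidableEq (KInd (fun s => (V s).B.n) (fun s => (V s).X.d) i))

/-- The matrix of the action of `σ` on `H^i` of the product (Künneth formula). -/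
def gal (i : ℕ) (σ : GK K) : Matrix (Idx V i) (Idx V i) ℚ_[ℓ] :=
  kun (n := fun s => (V s).B.n) (fun s => (V s).X.d) i fun s j => (V s).C.G j σ

theorem gal_one (i : ℕ) : gal V i 1 = 1 := by
  unfold gal
  simp only [map_one]
  exact ((Run7.h615.MT.t_KUN S (fun s => (V s).B.n) (fun s => (V s).X.d) i).1
    ℚ_[ℓ] (fun _ _ => 1) (fun _ _ => 1)).2.1

theorem gal_mul (i : ℕ) (σ τ : GK K) : gal V i (σ * τ) = gal V i σ * gal V i τ := by
  unfold gal
  simp only [map_mul]
  exact ((Run7.h615.MT.t_KUN S (fun s => (V s).B.n) (fun s => (V s).X.d) i).1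
    ℚ_[ℓ] _ _).1.symm

/-- The representation of the Galois group of `K` on `H^i(ℚ_ℓ)` of the product. -/
def galois (i : ℕ) : GK K →* Matrix (Idx V i) (Idx V i) ℚ_[ℓ] where
  toFun := gal V i
  map_one' := gal_one V i
  map_mul' := gal_mul V i

/-- The operator on `H^i(ℂ)` of the product which is `p` on the part of type `(p, q)`. -/
def hodgeD (i : ℕ) : Matrix (Idx V i) (Idx V i) ℂ :=
  dkun (n := fun s => (V s).B.n) (fun s => (V s).X.d) i fun s j => ((V s).W.V j).D

/-- The operator on `H^i(ℂ)` of the product which is `q` on the part of type `(p, q)`. -/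
def hodgeD' (i : ℕ) : Matrix (Idx V i) (Idx V i) ℂ :=
  dkun (n := fun s => (V s).B.n) (fun s => (V s).X.d) i fun s j => ((V s).W.V j).D'

/-- The action of `z ∈ ℂ^×` on `H^i(ℂ)` of the product: `z ^ (-p) * conj z ^ (-q)` on the part of type
`(p, q)`. -/
def hodgeH (i : ℕ) (z : ℂ) : Matrix (Idx V i) (Idx V i) ℂ :=
  kun (n := fun s => (V s).B.n) (fun s => (V s).X.d) i fun s j => ((V s).W.V j).h z

/-- The rational class `v` of degree `2 j` on the product is a Hodge class: it lies in `H^(j, j)`. -/
def IsHodgeClass (j : ℕ) (v : Idx V (2 * j) → ℚ) : Prop :=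
  hodgeD V (2 * j) *ᵥ (fun k => (v k : ℂ)) = (j : ℂ) • fun k => (v k : ℂ)

/-- The `ℓ`-adic class `x` in `H^(2 j)(j)` of the product is a Tate class: it is fixed by a subgroup of
finite index of the Galois group of `K`. -/
def IsTateClass (j : ℕ) (x : Idx V (2 * j) → ℚ_[ℓ]) : Prop :=
  ∃ Δ : Subgroup (GK K), Δ.FiniteIndex ∧ ∀ σ ∈ Δ,
    cyc K ℓ σ ^ j • (gal V (2 * j) σ *ᵥ x) = x

end product

/-- The Mumford-Tate conjecture for the sum of the `H²(V t)`, in the form of Lie algebras: the Lie
algebra of the image of the Galois group is the `ℚ_ℓ`-span of the Lie algebra of the Mumford-Tate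
group. -/
def MumfordTateTwo {T : Type} [Fintype T] [DecidableEq T] (V : T → HK K ℓ) : Prop :=
  MTTwo (fun t => (V t).B) (fun t => (V t).W) fun t i σ => (V t).C.G i σ

end

end Run7.h457.MT
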