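import Pool.Agent.Run7.h457.MT.Cyc
import Pool.Agent.Run7.h457.MT.HKProd
import Pool.Agent.Run7.h869.MT.P9
import Pool.Agent.Run7.h615.MT.P8
import Pool.Agent.Run7.h475.MT.P13

/-!
# Project MT457: projective hyperkähler varieties over a number field and their products
-/

set_option autoImplicit false
set_option linter.unusedSectionVars false

namespace Run7.h457.MT

open Matrix NumberField Pool.Agent.N184.HK Pool.Agent.W401.Cheb

noncomputable section

variable {K : Type} [Field K] [NumberField K] {ℓ : ℕ} [Fact ℓ.Prime]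

/-- The comparison in the form used in the proof. -/
def Artin.old {X : HKVariety K (PadicAlgCl ℓ)} {B : LLV X.d} (C : Artin X B) : Comparison X B where
  b := C.b
  hq := fun j k => C.hq j k
  hρ := fun i A => C.hρ i A
  G := C.G
  hG := fun i σ => C.hG i σ

theorem HK.old (V : HK K ℓ) (Q : Ideal (𝓞 (AlgebraicClosure K))) (hQ : Q.IsMaximal)
    (h : (ℓ : 𝓞 (AlgebraicClosure K)) ∈ Q) : Nonempty (HodgeTate V.C.old Q) := by
  obtain ⟨s⟩ := V.sen Q hQ h
  exact ⟨⟨s.J, s.skew, s.Θ, s.hΘ, s.sen⟩⟩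

variable {T : Type} [Fintype T] [DecidableEq T] (V : T → HK K ℓ)
  {S : Type} [Fintype S] [DecidableEq S] (τ : S → T)

theorem logRel_family (hcft : CFT K ℓ) :
    LogRel (fun t => (V t).B) fun t i => (V t).C.G i :=
  logRel (X := fun t => (V t).X) (B := fun t => (V t).B) (fun t => (V t).C.old) hcft
    fun t Q hQ h => (V t).old Q hQ h

/-- **Tate classes and Hodge classes** on products of hyperkähler varieties. -/
theorem tate_iff (hcft : CFT K ℓ) (h2 : MumfordTateTwo V) (j : ℕ)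
    (x : Idx (fun s => V (τ s)) (2 * j) → ℚ_[ℓ]) :
    IsTateClass (fun s => V (τ s)) j x ↔
      x ∈ Submodule.span ℚ_[ℓ] {x | ∃ v, IsHodgeClass (fun s => V (τ s)) j v ∧
        x = fun k => (v k : ℚ_[ℓ])} := by
  have h1 := Run7.h869.MT.tate Run7.h475.MT.LOGEX Run7.h475.MT.LOGFIX Run7.h475.MT.INV
    Run7.h475.MT.SPAN Run7.h615.MT.t_KUN ℓ (GK K) T (fun t => (V t).X.d)
    (fun t => (V t).X.two_le) (fun t => (V t).B) (fun t => (V t).W) (fun t i => (V t).C.G i)
    (logRel_family V hcft) h2 (cyc K ℓ) cyc_near (fun t σ => form_cyc (V t).C.old σ) S τ j x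
  have h3 : {x : Idx (fun s => V (τ s)) (2 * j) → ℚ_[ℓ] | ∃ v,
      IsHodgeClass (fun s => V (τ s)) j v ∧ x = fun k => (v k : ℚ_[ℓ])} =
      (fun (v : Idx (fun s => V (τ s)) (2 * j) → ℚ) k => algebraMap ℚ ℚ_[ℓ] (v k)) ''
        {v | IsHodgeClass (fun s => V (τ s)) j v} := by
    ext x
    constructor
    · rintro ⟨v, hv, rfl⟩; exact ⟨v, hv, rfl⟩
    · rintro ⟨v, hv, rfl⟩; exact ⟨v, hv, rfl⟩
  rw [h3]
  exact h1

/-- **The Mumford-Tate conjecture** for all products of hyperkähler varieties, in all degrees. -/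
theorem mumfordTate_product (gsup : S_GSUP) (gsub : S_GSUB)
    (hcft : CFT K ℓ) (h2 : MumfordTateTwo V) (i : ℕ) :
    galLie (gal (fun s => V (τ s)) i) =
        ratSpan ℚ_[ℓ] (mtLie (hodgeD (fun s => V (τ s)) i) (hodgeD' (fun s => V (τ s)) i) :
          Set _) ∧
      MumfordTateConjecture (hodgeH (fun s => V (τ s)) i) (galois (fun s => V (τ s)) i) :=
  Run7.h615.MT.t_MTC gsup gsub ℓ (GK K) T (fun t => (V t).X.d)
    (fun t => (V t).X.two_le) (fun t => (V t).B) (fun t => (V t).W) (fun t i => (V t).C.G i)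
    (logRel_family V hcft) h2 S τ i (galois (fun s => V (τ s)) i) fun _ => rfl

end

end Run7.h457.MT
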