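import Pool.Agent.Run7.h457.MT.TateDefs

/-!
# Project MT457: the `ℓ`-adic monodromy group and the motivic Galois group
-/

set_option autoImplicit false

namespace Run7.h457.MT

open Matrix MvPolynomial

variable {ℓ : ℕ} [Fact ℓ.Prime] {Γ : Type} [Group Γ]


/-- Left translation of polynomials. -/
theorem translate {κ : Type} [Fintype κ] {K : Type} [Field K] (A : Matrix κ κ K)
    (f : MvPolynomial (κ × κ) K) : ∃ f' : MvPolynomial (κ × κ) K, ∀ x : Matrix κ κ K,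
      MvPolynomial.aeval (fun q : κ × κ => x q.1 q.2) f' =
        MvPolynomial.aeval (fun q : κ × κ => (A * x) q.1 q.2) f := by
  let θ : MvPolynomial (κ × κ) K →ₐ[K] MvPolynomial (κ × κ) K :=
    MvPolynomial.aeval fun q : κ × κ => ∑ j, C (A q.1 j) * X (j, q.2)
  refine ⟨θ f, fun x => ?_⟩
  have h2 : ((MvPolynomial.aeval fun q : κ × κ => x q.1 q.2) :
      MvPolynomial (κ × κ) K →ₐ[K] K).comp θ =
      MvPolynomial.aeval (fun q : κ × κ => (A * x) q.1 q.2) := by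
    apply MvPolynomial.algHom_ext
    intro q
    rw [AlgHom.comp_apply, aeval_X, aeval_X, map_sum, Matrix.mul_apply]
    refine Finset.sum_congr rfl fun j _ => ?_
    rw [map_mul, aeval_X, aeval_C]
    rfl
  exact congrArg (fun φ : MvPolynomial (κ × κ) K →ₐ[K] K => φ f) h2

variable {κ : Type} [Fintype κ] [DecidableEq κ]

/-- The identity component moved by an element of the image. -/
theorem inClosure_mul (ρ : Γ →* Matrix κ κ ℚ_[ℓ]) (σ : Γ)
    {m : Matrix κ κ (AlgebraicClosure ℚ_[ℓ])} (hm : InMonodromy ρ m) :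
    InClosure ρ ((ρ σ).map (algebraMap ℚ_[ℓ] (AlgebraicClosure ℚ_[ℓ])) * m) := by
  intro f hf
  obtain ⟨f', hf'⟩ := translate ((ρ σ).map (algebraMap ℚ_[ℓ] (AlgebraicClosure ℚ_[ℓ]))) f
  rw [← hf']
  refine hm f' ⟨⊤, inferInstance, fun s _ => ?_⟩
  refine (hf' ((ρ s).map (algebraMap ℚ_[ℓ] (AlgebraicClosure ℚ_[ℓ])))).trans ?_
  rw [← Matrix.map_mul, ← map_mul]
  exact hf (σ * s)

/-- The points of the Zariski closure: each is in `ρ(σ)` times the identity component for some `σ`. -/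
theorem exists_component (ρ : Γ →* Matrix κ κ ℚ_[ℓ])
    {g : Matrix κ κ (AlgebraicClosure ℚ_[ℓ])} (hg : InClosure ρ g) :
    ∃ σ : Γ, InMonodromy ρ ((ρ σ⁻¹).map (algebraMap ℚ_[ℓ] (AlgebraicClosure ℚ_[ℓ])) * g) := by
  classical
  -- the ideals of the images of the subgroups of finite index
  let ev : Γ → MvPolynomial (κ × κ) (AlgebraicClosure ℚ_[ℓ]) → AlgebraicClosure ℚ_[ℓ] :=
    fun s f => MvPolynomial.aeval (fun q : κ × κ =>
      algebraMap ℚ_[ℓ] (AlgebraicClosure ℚ_[ℓ]) (ρ s q.1 q.2)) f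
  let I : Subgroup Γ → Ideal (MvPolynomial (κ × κ) (AlgebraicClosure ℚ_[ℓ])) := fun Δ =>
    { carrier := {f | ∀ s ∈ Δ, ev s f = 0}
      zero_mem' := fun s _ => map_zero _
      add_mem' := fun {f f'} hf hf' s hs => by
        show MvPolynomial.aeval _ (f + f') = _
        rw [map_add, show MvPolynomial.aeval _ f = _ from hf s hs,
          show MvPolynomial.aeval _ f' = _ from hf' s hs, add_zero]
      smul_mem' := fun c f hf s hs => by
        show MvPolynomial.aeval _ (c • f) = _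
        rw [smul_eq_mul, map_mul, show MvPolynomial.aeval _ f = _ from hf s hs, mul_zero] }
  have hI : ∀ Δ f, f ∈ I Δ ↔ ∀ s ∈ Δ, ev s f = 0 := fun Δ f => Iff.rfl
  -- a maximal one
  obtain ⟨Δ, hΔ, hmax⟩ : ∃ Δ : Subgroup Γ, Δ.FiniteIndex ∧
      ∀ Δ' : Subgroup Γ, Δ'.FiniteIndex → I Δ' ≤ I Δ := by
    have h1 : (({J | ∃ Δ : Subgroup Γ, Δ.FiniteIndex ∧ I Δ = J}) :
        Set (Ideal (MvPolynomial (κ × κ) (AlgebraicClosure ℚ_[ℓ])))).Nonempty :=
      ⟨_, ⊤, inferInstance, rfl⟩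
    obtain ⟨J, ⟨Δ, hΔ, rfl⟩, hJ⟩ := set_has_maximal_iff_noetherian.2
      (inferInstance : IsNoetherian (MvPolynomial (κ × κ) (AlgebraicClosure ℚ_[ℓ]))
        (MvPolynomial (κ × κ) (AlgebraicClosure ℚ_[ℓ]))) _ h1
    refine ⟨Δ, hΔ, fun Δ' hΔ' => ?_⟩
    have h2 : I Δ ≤ I (Δ ⊓ Δ') := fun f hf s hs => hf s hs.1
    have h3 : I Δ' ≤ I (Δ ⊓ Δ') := fun f hf s hs => hf s hs.2
    have h4 : ¬ I Δ < I (Δ ⊓ Δ') := hJ _ ⟨Δ ⊓ Δ', inferInstance, rfl⟩
    have h5 : I (Δ ⊓ Δ') ≤ I Δ := by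
      by_contra h
      exact h4 (lt_of_le_not_ge h2 h)
    exact h3.trans h5
  by_contra hno
  push Not at hno
  -- for each coset a polynomial
  have h1 : ∀ σ : Γ, ∃ f : MvPolynomial (κ × κ) (AlgebraicClosure ℚ_[ℓ]),
      (∀ s ∈ Δ, ev (σ * s) f = 0) ∧ MvPolynomial.aeval (fun q : κ × κ => g q.1 q.2) f ≠ 0 := by
    intro σ
    have h2 := hno σ
    unfold InMonodromy at h2
    push Not at h2
    obtain ⟨f, ⟨Δ', hΔ', hf⟩, hne⟩ := h2
    have h3 : f ∈ I Δ := hmax Δ' hΔ' ((hI _ _).2 hf)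
    obtain ⟨f', hf'⟩ := translate ((ρ σ⁻¹).map (algebraMap ℚ_[ℓ] (AlgebraicClosure ℚ_[ℓ]))) f
    refine ⟨f', fun s hs => ?_, ?_⟩
    · have h4 := hf' ((ρ (σ * s)).map (algebraMap ℚ_[ℓ] (AlgebraicClosure ℚ_[ℓ])))
      refine Eq.trans h4 ?_
      rw [← Matrix.map_mul, ← map_mul, inv_mul_cancel_left]
      exact h3 s hs
    · rw [hf']
      exact hne
  choose f hf hfg using h1
  have hfin : Finite (Γ ⧸ Δ) := inferInstance
  have := Fintype.ofFinite (Γ ⧸ Δ)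
  have h5 := hg (∏ c : Γ ⧸ Δ, f c.out) fun s => ?_
  · rw [map_prod] at h5
    obtain ⟨c, -, hc⟩ := Finset.prod_eq_zero_iff.1 h5
    exact hfg _ hc
  · rw [map_prod]
    apply Finset.prod_eq_zero (Finset.mem_univ (QuotientGroup.mk s : Γ ⧸ Δ))
    have h6 : (QuotientGroup.mk s : Γ ⧸ Δ).out⁻¹ * s ∈ Δ := by
      rw [← QuotientGroup.eq, QuotientGroup.out_eq']
    have h7 := hf (QuotientGroup.mk s : Γ ⧸ Δ).out _ h6
    rw [mul_inv_cancel_left] at h7
    exact h7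

/-- The `ℓ`-adic monodromy group is the union of the sets `ρ(σ) MT`. -/
theorem closure_iff {M : Obj ℓ Γ} (hM : MumfordTateConjecture M.h M.ρ)
    (g : Matrix M.κ M.κ (AlgebraicClosure ℚ_[ℓ])) (hg : g.det ≠ 0) :
    InClosure M.ρ g ↔ ∃ (σ : Γ) (m : Matrix M.κ M.κ (AlgebraicClosure ℚ_[ℓ])),
      InMumfordTate M.h m ∧
        g = (M.ρ σ).map (algebraMap ℚ_[ℓ] (AlgebraicClosure ℚ_[ℓ])) * m := by
  have hinv : ∀ σ, (M.ρ σ).map (algebraMap ℚ_[ℓ] (AlgebraicClosure ℚ_[ℓ])) *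
      (M.ρ σ⁻¹).map (algebraMap ℚ_[ℓ] (AlgebraicClosure ℚ_[ℓ])) = 1 := fun σ => by
    rw [← Matrix.map_mul, ← map_mul, mul_inv_cancel, map_one]
    exact Matrix.map_one _ (map_zero _) (map_one _)
  constructor
  · intro h
    obtain ⟨σ, hσ⟩ := exists_component M.ρ h
    have hd : ((M.ρ σ⁻¹).map (algebraMap ℚ_[ℓ] (AlgebraicClosure ℚ_[ℓ])) * g).det ≠ 0 := by
      rw [Matrix.det_mul]
      refine mul_ne_zero (fun h0 => ?_) hg
      have h1 := congrArg Matrix.det (hinv σ)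
      rw [Matrix.det_mul, h0, mul_zero, Matrix.det_one] at h1
      exact zero_ne_one h1
    refine ⟨σ, _, (hM _ hd).1 hσ, ?_⟩
    rw [← Matrix.mul_assoc, hinv, Matrix.one_mul]
  · rintro ⟨σ, m, hm, rfl⟩
    have hmd : m.det ≠ 0 := by
      intro h0
      apply hg
      rw [Matrix.det_mul, h0, mul_zero]
    exact inClosure_mul M.ρ σ ((hM m hmd).2 hm)

/-- The motivic Tate conjecture and the components. -/
theorem motTate_iff {M : Obj ℓ Γ} (hM : MumfordTateConjecture M.h M.ρ)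
    (G : Set (Matrix M.κ M.κ ℂ)) : (∀ g : Matrix M.κ M.κ (AlgebraicClosure ℚ_[ℓ]), g.det ≠ 0 →
      (InClosure M.ρ g ↔ InQGroup G g)) ↔ HasComponents M G := by
  constructor
  · intro h g hg
    rw [← h g hg]
    exact closure_iff hM g hg
  · intro h g hg
    rw [h g hg]
    exact closure_iff hM g hg

end Run7.h457.MT
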