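import Pool.Agent.Run7.h457.MT.Ml3
import Pool.Agent.Run7.h457.MT.Iface2
import Pool.Agent.Run7.h475.MT.Log

/-!
# Project MT457: the relation between the logarithms, for varieties over number fields
-/

set_option autoImplicit false
set_option linter.unusedSectionVars false

namespace Run7.h457.MT

open Matrix NumberField Pool.Agent.N184.HK Pool.Agent.W401.Cheb Filter Topology

noncomputable section

theorem ext_R {d : ℕ} (B : LLV d) (i : ℕ) {F : Type} [Field F] [Algebra ℚ F]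
    (A : Matrix (Fin (B.n 2)) (Fin (B.n 2)) F) :
    ext F (B.R i) A = ((i : F) / 2 * (A.trace / B.n 2)) • 1 +
      ext F (B.ρ i) (A - (A.trace / B.n 2) • 1) := by
  have hch : CharZero F := algebraRat.charZero F
  let R' : Matrix (Fin (B.n 2)) (Fin (B.n 2)) F →ₗ[F] Matrix (Fin (B.n i)) (Fin (B.n i)) F :=
    { toFun := fun A => ((i : F) / 2 * (A.trace / B.n 2)) • 1 +
        ext F (B.ρ i) (A - (A.trace / B.n 2) • 1)
      map_add' := fun A A' => by
        rw [Matrix.trace_add, add_div, mul_add, add_smul, add_smul]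
        rw [show A + A' - ((A.trace / (B.n 2 : F)) • (1 : Matrix (Fin (B.n 2)) (Fin (B.n 2)) F) +
          (A'.trace / (B.n 2 : F)) • 1) = (A - (A.trace / (B.n 2 : F)) • 1) +
            (A' - (A'.trace / (B.n 2 : F)) • 1) by abel, map_add]
        abel
      map_smul' := fun c A => by
        rw [Matrix.trace_smul, smul_eq_mul, RingHom.id_apply, smul_add, ← map_smul, smul_smul,
          smul_sub, smul_smul, mul_div_assoc]
        congr 2
        ring }
  have h1 : ∀ A, R' A = ∑ j, ∑ k, A j k • R' (Matrix.single j k 1) := by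
    intro A
    conv_lhs => rw [Matrix.matrix_eq_sum_single A]
    simp only [map_sum]
    refine Finset.sum_congr rfl fun j _ => Finset.sum_congr rfl fun k _ => ?_
    rw [← map_smul, Matrix.smul_single, smul_eq_mul, mul_one]
  change _ = R' A
  rw [h1, ext_apply]
  refine Finset.sum_congr rfl fun j _ => Finset.sum_congr rfl fun k _ => ?_
  congr 1
  have h2 : (Matrix.single j k (1 : ℚ)).map (algebraMap ℚ F) = Matrix.single j k 1 := by
    rw [Matrix.map_single, map_one]
  have h3 : ∀ A₀ : Matrix (Fin (B.n 2)) (Fin (B.n 2)) ℚ,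
      (B.R i A₀).map (algebraMap ℚ F) = R' (A₀.map (algebraMap ℚ F)) := by
    intro A₀
    change (((i : ℚ) / 2 * (A₀.trace / B.n 2)) • (1 : Matrix (Fin (B.n i)) (Fin (B.n i)) ℚ) +
      B.ρ i (A₀ - (A₀.trace / B.n 2) • 1)).map (algebraMap ℚ F) =
      ((i : F) / 2 * ((A₀.map (algebraMap ℚ F)).trace / B.n 2)) • 1 +
        ext F (B.ρ i) (A₀.map (algebraMap ℚ F) - ((A₀.map (algebraMap ℚ F)).trace / B.n 2) • 1)
    have h4 : (A₀.map (algebraMap ℚ F)).trace = algebraMap ℚ F A₀.trace := by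
      simp only [Matrix.trace, Matrix.diag_apply, Matrix.map_apply, map_sum]
    have h5 : ∀ (m : ℕ) (c : ℚ), (c • (1 : Matrix (Fin m) (Fin m) ℚ)).map (algebraMap ℚ F) =
        (algebraMap ℚ F c) • 1 := by
      intro m c
      ext a b
      rw [Matrix.map_apply, Matrix.smul_apply, Matrix.smul_apply, smul_eq_mul, smul_eq_mul,
        map_mul, Matrix.one_apply, Matrix.one_apply]
      split_ifs <;> simp
    rw [Matrix.map_add _ (map_add _), h5, ← ext_ratmap, Matrix.map_sub _ (map_sub _), h5, h4]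
    simp only [map_mul, map_div₀, map_natCast, map_ofNat]
  rw [h3, h2]

variable {K : Type} [Field K] [NumberField K] {ℓ : ℕ} [Fact ℓ.Prime]

theorem log_unique {κ : Type} [Fintype κ] [DecidableEq κ] {g L L' : Matrix κ κ ℚ_[ℓ]}
    (h : IsLog g L) (h' : IsLog g L') : L = L' := tendsto_nhds_unique h h'

/-- The logarithm on `H^i` is the image of the logarithm on `H²`. -/
theorem log_rel {X : HKVariety K (PadicAlgCl ℓ)} {B : LLV X.d} (C : Comparison X B)
    {U : Subgroup (GK K)} (hU : IsOpen (U : Set (GK K))) {i : ℕ} (hi : i ≤ X.d)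
    (hc : ∀ σ ∈ U, ∀ c ∈ cen X.E.X i, Commute c (X.E.Φ σ i)) {σ : GK K} (hσ : σ ∈ U)
    (hone : NearOne 2 (C.G i σ)) {L2 : Matrix (Fin (B.n 2)) (Fin (B.n 2)) ℚ_[ℓ]}
    (h2 : IsLog (C.G 2 σ) L2) : IsLog (C.G i σ) (ext ℚ_[ℓ] (B.R i) L2) := by
  obtain ⟨Li, h⟩ := Run7.h475.MT.t_LOGEX ℓ _ _ hone
  obtain ⟨l, hl, hL⟩ := form_log h2
  have h3 := log_eq C hU hi hc hσ h h2 hl hL
  have h4 : Li = ext ℚ_[ℓ] (B.R i) L2 := by
    refine Matrix.map_injective (algebraMap ℚ_[ℓ] (PadicAlgCl ℓ)).injective ?_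
    change Li.map (algebraMap ℚ_[ℓ] (PadicAlgCl ℓ)) =
      (ext ℚ_[ℓ] (B.R i) L2).map (algebraMap ℚ_[ℓ] (PadicAlgCl ℓ))
    rw [← ext_map (algebraMap ℚ_[ℓ] (PadicAlgCl ℓ)), ext_R, h3]
    have hd : (B.q.map (algebraMap ℚ (PadicAlgCl ℓ))).det ≠ 0 := by
      rw [← RingHom.mapMatrix_apply, ← RingHom.map_det]
      exact (map_ne_zero _).2 B.nondeg
    have h5 := trace_gso hd hL
    rw [Fintype.card_fin] at h5
    have hn : (B.n 2 : PadicAlgCl ℓ) ≠ 0 := by
      have := B.dim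
      exact_mod_cast (by omega : B.n 2 ≠ 0)
    have h6 : (L2.map (algebraMap ℚ_[ℓ] (PadicAlgCl ℓ))).trace / (B.n 2 : PadicAlgCl ℓ) =
        l / 2 := by
      rw [div_eq_div_iff hn two_ne_zero]
      linear_combination h5
    rw [h6]
    congr 2
    ring
  rw [← h4]
  exact h

theorem near_one {κ : Type} [Fintype κ] [DecidableEq κ] (g : GK K →* Matrix κ κ ℚ_[ℓ])
    (hg : Continuous g) (N : ℕ) : ∀ᶠ σ in 𝓝 (1 : GK K), NearOne N (g σ) := by
  refine Filter.eventually_all.2 fun a => Filter.eventually_all.2 fun b => ?_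
  have h1 : Continuous fun σ => ‖(g σ - 1) a b‖ :=
    ((hg.sub continuous_const).matrix_elem a b).norm
  have h2 : ‖(g 1 - 1) a b‖ < ((ℓ : ℝ) ^ N)⁻¹ := by
    rw [map_one, sub_self, Matrix.zero_apply, norm_zero]
    have := (Fact.out : ℓ.Prime).pos
    positivity
  have h3 := h1.continuousAt.eventually (gt_mem_nhds h2)
  exact h3.mono fun σ hσ => hσ.le

theorem open_finite {U : Subgroup (GK K)} (hU : IsOpen (U : Set (GK K))) : U.FiniteIndex := by
  have : CompactSpace (GK K) := inferInstance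
  have := U.quotient_finite_of_isOpen hU
  exact Subgroup.finiteIndex_of_finite_quotient

theorem cont_G' {X : HKVariety K (PadicAlgCl ℓ)} {B : LLV X.d} (C : Comparison X B) (i : ℕ) :
    Continuous (C.G i) := cont_G C i

/-- **The relation between the logarithms**, for a finite family of hyperkähler varieties over a number
field. -/
theorem main_log {T : Type} [Fintype T] (X : T → HKVariety K (PadicAlgCl ℓ))
    (B : ∀ t, LLV (X t).d) (C : ∀ t, Comparison (X t) (B t)) (hcft : CFT K ℓ)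
    (hT : ∀ t, ∀ Q : Ideal (𝓞 (AlgebraicClosure K)), Q.IsMaximal →
      (ℓ : 𝓞 (AlgebraicClosure K)) ∈ Q → Nonempty (HodgeTate (C t) Q)) (N : ℕ) :
    ∃ U : Subgroup (GK K), IsOpen (U : Set (GK K)) ∧ ∀ σ ∈ U, ∀ t, ∀ i ≤ (X t).d,
      NearOne N ((C t).G i σ) ∧
      ∀ L, IsLog ((C t).G 2 σ) L → IsLog ((C t).G i σ) (ext ℚ_[ℓ] ((B t).R i) L) := by
  have h1 : ∀ᶠ σ in 𝓝 (1 : GK K), ∀ t, ∀ i ∈ Finset.range ((X t).d + 1),
      NearOne N ((C t).G i σ) ∧
      ∀ L, IsLog ((C t).G 2 σ) L → IsLog ((C t).G i σ) (ext ℚ_[ℓ] ((B t).R i) L) := by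
    refine Filter.eventually_all.2 fun t => ?_
    refine (Filter.eventually_all_finset _).2 fun i hi => ?_
    have hi' : i ≤ (X t).d := by
      have := Finset.mem_range.1 hi
      omega
    obtain ⟨U, hU, hUc⟩ := triv (C t) hcft (hT t) hi'
    have h2 : ∀ᶠ σ in 𝓝 (1 : GK K), σ ∈ U := hU.mem_nhds U.one_mem
    filter_upwards [h2, near_one _ (cont_G' (C t) i) N, near_one _ (cont_G' (C t) i) 2]
      with σ hσ h3 h4
    exact ⟨h3, fun L hL => log_rel (C t) hU hi' hUc hσ h4 hL⟩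
  obtain ⟨U, hU, hUO⟩ := exists_open h1
  refine ⟨U, hU, fun σ hσ t i hi => hUO hσ t i ?_⟩
  exact Finset.mem_range.2 (by omega)

end

end Run7.h457.MT
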