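import Pool.Agent.Run7.h457.MT.Ml4

/-!
# Project MT457: number fields and finitely generated fields
-/

set_option autoImplicit false
set_option linter.unusedSectionVars false

namespace Run7.h457.MT

open Matrix NumberField Pool.Agent.N184.HK Pool.Agent.W401.Cheb Filter Topology

noncomputable section

variable {K : Type} [Field K] [NumberField K] {ℓ : ℕ} [Fact ℓ.Prime]
  {T : Type} [Fintype T] {X : T → HKVariety K (PadicAlgCl ℓ)} {B : ∀ t, LLV (X t).d}
  (C : ∀ t, Comparison (X t) (B t)) (hcft : CFT K ℓ)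
  (hT : ∀ t, ∀ Q : Ideal (𝓞 (AlgebraicClosure K)), Q.IsMaximal →
      (ℓ : 𝓞 (AlgebraicClosure K)) ∈ Q → Nonempty (HodgeTate (C t) Q))

include hcft hT in
/-- The relation between the logarithms over a number field. -/
theorem logRel : LogRel B fun t i => (C t).G i := by
  intro N
  obtain ⟨U, hU, h⟩ := main_log X B C hcft hT N
  exact ⟨U, open_finite hU, h⟩

include hcft hT in
/-- The relation between the logarithms for a family of representations of a group with the same image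
as the Galois group of the number field `K`. -/
theorem logRel_of_image {Γ : Type} [Group Γ]
    (G : ∀ t i, Γ →* Matrix (Fin ((B t).n i)) (Fin ((B t).n i)) ℚ_[ℓ])
    (him : ∀ γ, ∃ σ : GK K, ∀ t, ∀ i ≤ (X t).d, G t i γ = (C t).G i σ) : LogRel B G := by
  intro N
  obtain ⟨U, hU, h⟩ := main_log X B C hcft hT N
  have hUf : U.FiniteIndex := open_finite hU
  have hinv : ∀ γ (σ : GK K), (∀ t, ∀ i ≤ (X t).d, G t i γ = (C t).G i σ) →
      ∀ t, ∀ i ≤ (X t).d, G t i γ⁻¹ = (C t).G i σ⁻¹ := by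
    intro γ σ hγ t i hi
    have h1 : G t i γ⁻¹ * G t i γ = 1 := by rw [← map_mul, inv_mul_cancel, map_one]
    have h2 : (C t).G i σ * (C t).G i σ⁻¹ = 1 := by rw [← map_mul, mul_inv_cancel, map_one]
    calc G t i γ⁻¹ = G t i γ⁻¹ * ((C t).G i σ * (C t).G i σ⁻¹) := by rw [h2, mul_one]
      _ = (G t i γ⁻¹ * G t i γ) * (C t).G i σ⁻¹ := by rw [← mul_assoc, hγ t i hi]
      _ = _ := by rw [h1, one_mul]
  let Δ : Subgroup Γ :=
    { carrier := {γ | ∃ σ ∈ U, ∀ t, ∀ i ≤ (X t).d, G t i γ = (C t).G i σ}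
      one_mem' := ⟨1, U.one_mem, fun t i _ => by rw [map_one, map_one]⟩
      mul_mem' := by
        rintro γ γ' ⟨σ, hσ, h1⟩ ⟨σ', hσ', h2⟩
        exact ⟨σ * σ', U.mul_mem hσ hσ', fun t i hi => by
          rw [map_mul, map_mul, h1 t i hi, h2 t i hi]⟩
      inv_mem' := by
        rintro γ ⟨σ, hσ, h1⟩
        exact ⟨σ⁻¹, U.inv_mem hσ, hinv γ σ h1⟩ }
  have hΔ : ∀ γ, γ ∈ Δ ↔ ∃ σ ∈ U, ∀ t, ∀ i ≤ (X t).d, G t i γ = (C t).G i σ := fun γ => Iff.rfl
  choose s hs using him
  have hfin : Δ.FiniteIndex := by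
    have : Finite (GK K ⧸ U) := inferInstance
    let f : Γ ⧸ Δ → GK K ⧸ U := fun q => QuotientGroup.mk (s q.out)
    have hf : Function.Injective f := by
      intro q q' hqq
      have h1 : (s q.out)⁻¹ * s q'.out ∈ U := QuotientGroup.eq.1 hqq
      have h2 : q.out⁻¹ * q'.out ∈ Δ := by
        refine (hΔ _).2 ⟨_, h1, fun t i hi => ?_⟩
        rw [map_mul, map_mul, hinv _ _ (hs q.out) t i hi, hs q'.out t i hi]
      rw [← QuotientGroup.out_eq' q, ← QuotientGroup.out_eq' q']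
      exact QuotientGroup.eq.2 h2
    have : Finite (Γ ⧸ Δ) := Finite.of_injective f hf
    exact Subgroup.finiteIndex_of_finite_quotient
  refine ⟨Δ, hfin, fun γ hγ t i hi => ?_⟩
  obtain ⟨σ, hσ, h1⟩ := (hΔ γ).1 hγ
  have h2 := h σ hσ t i hi
  have hd : 2 ≤ (X t).d := (X t).two_le
  rw [h1 t i hi, h1 t 2 hd]
  exact h2

end

end Run7.h457.MT
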