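import Pool.Agent.Run7.h457.MT.Defs

/-!
# Project MT457: the rational cohomology of a hyperkähler variety
-/

set_option autoImplicit false

namespace Run7.h457.MT

open Matrix

noncomputable section

/-- The matrix `A` is skew-symmetric for the form with the matrix `q`. -/
def SkewMat {κ F : Type} [Fintype κ] [Field F] (q A : Matrix κ κ F) : Prop :=
  Aᵀ * q + q * A = 0

/-- The rational cohomology of a complex projective hyperkähler variety `X` of (real) dimension `d`,
as a representation of `so(H²)`, in coordinates: `n i` are the Betti numbers, `H^i(X, ℚ)` is the space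
`ℚ^(n i)`, `q` is the matrix of the form of Beauville, Bogomolov and Fujiki on `H²`, and `ρ i` is the
action of `so(H²(X, ℚ))` on `H^i` (Verbitsky, Looijenga-Lunts), extended linearly to all matrices. -/
structure LLV (d : ℕ) where
  n : ℕ → ℕ
  q : Matrix (Fin (n 2)) (Fin (n 2)) ℚ
  symm : qᵀ = q
  nondeg : q.det ≠ 0
  dim : 3 ≤ n 2
  ρ : ∀ i, Matrix (Fin (n 2)) (Fin (n 2)) ℚ →ₗ[ℚ] Matrix (Fin (n i)) (Fin (n i)) ℚ
  ρ_two : ∀ A, SkewMat q A → ρ 2 A = A
  bracket : ∀ i ≤ d, ∀ A B, SkewMat q A → SkewMat q B →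
    ρ i (A * B - B * A) = ρ i A * ρ i B - ρ i B * ρ i A

/-- The Hodge structures on the `H^i(X, ℚ)`. By the theorem of Verbitsky the Hodge decomposition is
given by an element `J` of `so(H²(X, ℂ))`: the operator which is `p` on `H^(p, q)` is
`i / 2 + ρ i J` on `H^i`. -/
structure LLV.Hodge {d : ℕ} (B : LLV d) where
  V : ∀ i, HodgeStr i (Fin (B.n i))
  J : Matrix (Fin (B.n 2)) (Fin (B.n 2)) ℂ
  skew : SkewMat (B.q.map (algebraMap ℚ ℂ)) J
  verb : ∀ i ≤ d, (V i).D = ((i : ℂ) / 2) • 1 + ext ℂ (B.ρ i) J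

end

end Run7.h457.MT
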