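import Pool.Agent.Run7.h457.MT.Iface
import Pool.Agent.Run7.h457.MT.DataDefs

/-!
# Project MT457: hyperkähler varieties: the rational structure, Hodge theory and inertia
-/

set_option autoImplicit false

namespace Run7.h457.MT

open Matrix NumberField Pool.Agent.N184.HK Pool.Agent.W401.Cheb

noncomputable section

/-- The linear map `gso(H²) → gl(H^i)` over `ℚ`: a scalar `c` acts by `c i / 2`, and `so(H²)` acts by
`ρ i`. -/
def LLV.R {d : ℕ} (B : LLV d) (i : ℕ) :
    Matrix (Fin (B.n 2)) (Fin (B.n 2)) ℚ →ₗ[ℚ] Matrix (Fin (B.n i)) (Fin (B.n i)) ℚ where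
  toFun A := ((i : ℚ) / 2 * (A.trace / B.n 2)) • 1 + B.ρ i (A - (A.trace / B.n 2) • 1)
  map_add' A A' := by
    rw [Matrix.trace_add, add_div, mul_add, add_smul, add_smul]
    rw [show A + A' - ((A.trace / (B.n 2 : ℚ)) • (1 : Matrix (Fin (B.n 2)) (Fin (B.n 2)) ℚ) +
      (A'.trace / (B.n 2 : ℚ)) • 1) = (A - (A.trace / (B.n 2 : ℚ)) • 1) +
        (A' - (A'.trace / (B.n 2 : ℚ)) • 1) by abel, map_add]
    abel
  map_smul' c A := by
    rw [Matrix.trace_smul, smul_eq_mul, RingHom.id_apply, smul_add, ← map_smul, smul_smul,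
      smul_sub, smul_smul, mul_div_assoc]
    congr 2
    ring

/-- The comparison of the `ℓ`-adic cohomology of the hyperkähler variety `X` over the number field
`K` with the singular cohomology `B` (for an embedding of the algebraic closure of `K` in the field of
complex numbers): `b i` is the basis of `H^i(X, ℚ)`, and `G i σ` is the matrix of the action of `σ` on
`H^i(X, ℚ_ℓ)`. -/
structure Comparison {K : Type} [Field K] [NumberField K] {ℓ : ℕ} [Fact ℓ.Prime]
    (X : HKVariety K (PadicAlgCl ℓ)) (B : LLV X.d) where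
  b : ∀ i, Module.Basis (Fin (B.n i)) (PadicAlgCl ℓ) (X.E.X.H i)
  hq : ∀ j k, X.E.X.q (b 2 j) (b 2 k) = algebraMap ℚ (PadicAlgCl ℓ) (B.q j k)
  hρ : ∀ i (A : Matrix (Fin (B.n 2)) (Fin (B.n 2)) ℚ), LinearMap.toMatrix (b i) (b i)
    (X.E.X.ρ i (Matrix.toLin (b 2) (b 2) (A.map (algebraMap ℚ (PadicAlgCl ℓ))))) =
      (B.ρ i A).map (algebraMap ℚ (PadicAlgCl ℓ))
  G : ∀ i, GK K →* Matrix (Fin (B.n i)) (Fin (B.n i)) ℚ_[ℓ]
  hG : ∀ i σ, LinearMap.toMatrix (b i) (b i) (X.E.Φ σ i) =
    (G i σ).map (algebraMap ℚ_[ℓ] (PadicAlgCl ℓ))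

/-- The Hodge-Tate decomposition at the places above `ℓ`. For a maximal ideal `Q` above `ℓ` of the ring
of all algebraic integers `Θ i` is the operator of Sen of the representation on `H^i` of the
decomposition group of `Q` (over the completion `ℂ_ℓ` of an algebraic closure of `ℚ_ℓ`): minus the
operator which is `p` on the piece `H^(i - p)(X, Ω^p)` of the Hodge-Tate decomposition of `H^i`
(Faltings). The decomposition is compatible with the cup product, hence it is given by an element `J` of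
`so(H²)` (Verbitsky), as over the complex numbers. By the theorem of Sen, the Lie algebra of the image
of the inertia group of `Q` is the smallest subspace over `ℚ_ℓ` whose scalar extension contains `Θ i`;
in particular an endomorphism `a` of `H^i(X, ℚ_ℓ)` which commutes with `Θ i` commutes with an open
subgroup of the inertia group. -/
structure HodgeTate {K : Type} [Field K] [NumberField K] {ℓ : ℕ} [Fact ℓ.Prime]
    {X : HKVariety K (PadicAlgCl ℓ)} {B : LLV X.d} (C : Comparison X B)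
    (Q : Ideal (𝓞 (AlgebraicClosure K))) where
  J : Matrix (Fin (B.n 2)) (Fin (B.n 2)) ℂ_[ℓ]
  skew : SkewMat (B.q.map (algebraMap ℚ ℂ_[ℓ])) J
  Θ : ∀ i, Matrix (Fin (B.n i)) (Fin (B.n i)) ℂ_[ℓ]
  hΘ : ∀ i ≤ X.d, Θ i = -(((i : ℂ_[ℓ]) / 2) • 1 + ext ℂ_[ℓ] (B.ρ i) J)
  sen : ∀ i ≤ X.d, ∀ a : Matrix (Fin (B.n i)) (Fin (B.n i)) ℚ_[ℓ],
    Commute (a.map (algebraMap ℚ_[ℓ] ℂ_[ℓ])) (Θ i) →
    Near (inertia Q) fun σ => Commute a (C.G i σ)

end

end Run7.h457.MT
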