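import Pool.Agent.Run7.h457.MT.Fg
import Pool.Agent.Run7.h457.MT.CycDef
import Pool.Agent.Run7.h658.FM.G1

/-!
# Project MT457: the multiplier of the form and the cyclotomic character
-/

set_option autoImplicit false
set_option linter.unusedSectionVars false

namespace Run7.h457.MT

open Matrix NumberField Pool.Agent.N184.HK Pool.Agent.W401.Cheb Filter Topology IsDedekindDomain

noncomputable section

theorem cyc_apply (K : Type) [Field K] (ℓ : ℕ) [Fact ℓ.Prime] (σ : GK K) : cyc K ℓ σ =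
    (((cyclotomicCharacter (AlgebraicClosure K) ℓ
      (σ : AlgebraicClosure K ≃+* AlgebraicClosure K) : ℤ_[ℓ]ˣ) : ℤ_[ℓ]) : ℚ_[ℓ]) := rfl

theorem cyc_cont (K : Type) [Field K] (ℓ : ℕ) [Fact ℓ.Prime] : Continuous (cyc K ℓ) := by
  have h1 := cyclotomicCharacter.continuous ℓ K (AlgebraicClosure K)
  have h0 : Continuous fun u : ℤ_[ℓ] => (u : ℚ_[ℓ]) := continuous_subtype_val
  have h3 : Continuous fun u : ℤ_[ℓ]ˣ => (u : ℤ_[ℓ]) := Units.continuous_val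
  have h2 : Continuous fun u : ℤ_[ℓ]ˣ => ((u : ℤ_[ℓ]) : ℚ_[ℓ]) := h0.comp h3
  exact h2.comp h1

variable {K : Type} [Field K] [NumberField K] {ℓ : ℕ} [Fact ℓ.Prime]

theorem cyc_frob {v : HeightOneSpectrum (𝓞 K)} (hv : (ℓ : 𝓞 K) ∉ v.asIdeal) {τ : GK K}
    (hτ : IsFrob v τ) : cyc K ℓ τ = Ideal.absNorm v.asIdeal := by
  obtain ⟨Q, hQ, hQv, h⟩ := hτ
  have hQl : (ℓ : 𝓞 (AlgebraicClosure K)) ∉ Q := by
    intro h1
    refine hv ?_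
    rw [← hQv, Ideal.mem_comap, map_natCast]
    exact h1
  rw [cyc_apply, Run7.h658.FM.chi_eq τ (Ideal.absNorm v.asIdeal) fun m x hx =>
    Run7.h658.FM.apply_eq Q hQl τ _ h m x hx]
  exact PadicInt.coe_natCast _

theorem finite_above (ℓ : ℕ) [Fact ℓ.Prime] :
    {v : HeightOneSpectrum (𝓞 K) | (ℓ : 𝓞 K) ∈ v.asIdeal}.Finite := by
  have h1 : (Ideal.span {(ℓ : 𝓞 K)}) ≠ 0 := by
    rw [Ne, Ideal.zero_eq_bot, Ideal.span_singleton_eq_bot]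
    exact Nat.cast_ne_zero.2 (Fact.out : ℓ.Prime).ne_zero
  refine (Ideal.finite_factors h1).subset fun v hv => ?_
  exact Ideal.dvd_span_singleton.2 hv

/-- The multiplier of the form is the inverse square of the cyclotomic character. -/
theorem mu_cyc (X : HKVariety K (PadicAlgCl ℓ)) (σ : GK K) :
    X.E.mu σ * (algebraMap ℚ_[ℓ] (PadicAlgCl ℓ) (cyc K ℓ σ)) ^ 2 = 1 := by
  have hg : Continuous fun σ : GK K =>
      X.E.mu σ * (algebraMap ℚ_[ℓ] (PadicAlgCl ℓ) (cyc K ℓ σ)) ^ 2 - 1 :=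
    (X.E.cont_μ.mul ((cont_algMap.comp (cyc_cont K ℓ)).pow 2)).sub continuous_const
  by_contra hne
  have h1 : IsOpen ((fun σ : GK K =>
      X.E.mu σ * (algebraMap ℚ_[ℓ] (PadicAlgCl ℓ) (cyc K ℓ σ)) ^ 2 - 1) ⁻¹' {0}ᶜ) :=
    isOpen_compl_singleton.preimage hg
  obtain ⟨v, hv, hp, τ, hτ, hfr⟩ := t_frob K (X.bad ∪ {v | (ℓ : 𝓞 K) ∈ v.asIdeal})
    (X.finite.union (finite_above ℓ)) _ h1 ⟨σ, fun h => hne (sub_eq_zero.1 h)⟩
  refine hτ ?_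
  have hv1 : v ∉ X.bad := fun h => hv (Or.inl h)
  have hv2 : (ℓ : 𝓞 K) ∉ v.asIdeal := fun h => hv (Or.inr h)
  have h2 := cyc_frob hv2 hfr
  have h3 : cyc K ℓ τ * cyc K ℓ τ⁻¹ = 1 := by rw [← map_mul, mul_inv_cancel, map_one]
  rw [h2] at h3
  change X.E.mu τ * (algebraMap ℚ_[ℓ] (PadicAlgCl ℓ) (cyc K ℓ τ)) ^ 2 - 1 = 0
  have h4 := congrArg (algebraMap ℚ_[ℓ] (PadicAlgCl ℓ)) h3
  rw [map_mul, map_natCast, map_one] at h4
  rw [X.mult v hv1 τ hfr, sub_eq_zero, ← mul_pow, mul_comm, h4, one_pow]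

theorem form_cyc {X : HKVariety K (PadicAlgCl ℓ)} {B : LLV X.d} (C : Comparison X B) (σ : GK K) :
    (C.G 2 σ)ᵀ * B.q.map (algebraMap ℚ ℚ_[ℓ]) * C.G 2 σ =
      (cyc K ℓ σ ^ 2)⁻¹ • B.q.map (algebraMap ℚ ℚ_[ℓ]) := by
  refine Matrix.map_injective (algebraMap ℚ_[ℓ] (PadicAlgCl ℓ)).injective ?_
  have h1 := form_mat C σ
  have h2 := mu_cyc X σ
  change ((C.G 2 σ)ᵀ * B.q.map (algebraMap ℚ ℚ_[ℓ]) * C.G 2 σ).map
    (algebraMap ℚ_[ℓ] (PadicAlgCl ℓ)) = ((cyc K ℓ σ ^ 2)⁻¹ • B.q.map (algebraMap ℚ ℚ_[ℓ])).map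
    (algebraMap ℚ_[ℓ] (PadicAlgCl ℓ))
  rw [Matrix.map_mul, Matrix.map_mul, rat_map_map, Matrix.transpose_map]
  have h3 : ((cyc K ℓ σ ^ 2)⁻¹ • B.q.map (algebraMap ℚ ℚ_[ℓ])).map
      (algebraMap ℚ_[ℓ] (PadicAlgCl ℓ)) = X.E.mu σ • B.q.map (algebraMap ℚ (PadicAlgCl ℓ)) := by
    rw [← rat_map_map (ℓ := ℓ)]
    ext a b
    simp only [Matrix.map_apply, Matrix.smul_apply, smul_eq_mul, map_mul, map_inv₀, map_pow]
    congr 1
    exact (eq_inv_of_mul_eq_one_left h2).symm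
  rw [h3]
  exact h1

/-- Near `1` the cyclotomic character is near `1`. -/
theorem cyc_near (N : ℕ) : ∃ Δ : Subgroup (GK K), Δ.FiniteIndex ∧ ∀ σ ∈ Δ,
    ‖cyc K ℓ σ - 1‖ ≤ ((ℓ : ℝ) ^ N)⁻¹ := by
  have h1 : Continuous fun σ : GK K => ‖cyc K ℓ σ - 1‖ :=
    ((cyc_cont K ℓ).sub continuous_const).norm
  have h2 : ‖cyc K ℓ 1 - 1‖ < ((ℓ : ℝ) ^ N)⁻¹ := by
    rw [map_one, sub_self, norm_zero]
    have := (Fact.out : ℓ.Prime).pos
    positivity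
  have h3 := h1.continuousAt.eventually (gt_mem_nhds h2)
  obtain ⟨U, hU, hUO⟩ := exists_open h3
  exact ⟨U, open_finite hU, fun σ hσ => (hUO hσ).le⟩

end

end Run7.h457.MT
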