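import Mathlib

/-!
# Project MT457: the Mumford-Tate conjecture for hyperkähler varieties: definitions
-/

set_option autoImplicit false

namespace Run7.h457.MT

open Matrix Filter Topology

noncomputable section

section lin

variable {ι κ : Type} [Fintype ι] [DecidableEq ι] [Fintype κ] [DecidableEq κ]

/-- The `F`-span of a set of rational matrices. -/
def ratSpan (F : Type) [Field F] [Algebra ℚ F] (S : Set (Matrix ι ι ℚ)) :
    Submodule F (Matrix ι ι F) :=
  Submodule.span F ((fun x : Matrix ι ι ℚ => x.map (algebraMap ℚ F)) '' S)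

/-- The `F`-span of a set of rational vectors. -/
def vecSpan (F : Type) [Field F] [Algebra ℚ F] (S : Set (ι → ℚ)) : Submodule F (ι → F) :=
  Submodule.span F ((fun (x : ι → ℚ) i => algebraMap ℚ F (x i)) '' S)

/-- The space `S` of matrices is closed under the bracket. -/
def IsLie {F : Type} [Field F] (S : Submodule F (Matrix ι ι F)) : Prop :=
  ∀ x ∈ S, ∀ y ∈ S, x * y - y * x ∈ S

/-- The smallest Lie algebra of rational matrices whose complex span contains `D` and `D'`. -/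
def mtLie (D D' : Matrix ι ι ℂ) : Submodule ℚ (Matrix ι ι ℚ) :=
  sInf {S | IsLie S ∧ D ∈ ratSpan ℂ (S : Set (Matrix ι ι ℚ)) ∧
    D' ∈ ratSpan ℂ (S : Set (Matrix ι ι ℚ))}

/-- Extension of scalars of a linear map between spaces of rational matrices. -/
def ext (F : Type) [Field F] [Algebra ℚ F] (R : Matrix ι ι ℚ →ₗ[ℚ] Matrix κ κ ℚ) :
    Matrix ι ι F →ₗ[F] Matrix κ κ F where
  toFun A := ∑ i, ∑ j, A i j • (R (Matrix.single i j 1)).map (algebraMap ℚ F)
  map_add' A B := by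
    simp only [Matrix.add_apply, add_smul, Finset.sum_add_distrib]
  map_smul' c A := by
    simp only [Matrix.smul_apply, smul_eq_mul, mul_smul, Finset.smul_sum, RingHom.id_apply]

/-- The linear map `R` respects the brackets of elements of `S`. -/
def LieOn (S : Submodule ℚ (Matrix ι ι ℚ)) (R : Matrix ι ι ℚ →ₗ[ℚ] Matrix κ κ ℚ) : Prop :=
  ∀ x ∈ S, ∀ y ∈ S, R (x * y - y * x) = R x * R y - R y * R x

end lin

section log

variable {κ : Type} [Fintype κ] [DecidableEq κ] {ℓ : ℕ} [Fact ℓ.Prime]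

/-- `L` is the logarithm of `g`: the limit of `(g ^ (ℓ ^ n) - 1) / ℓ ^ n`. -/
def IsLog (g L : Matrix κ κ ℚ_[ℓ]) : Prop :=
  Tendsto (fun n : ℕ => ((ℓ : ℚ_[ℓ]) ^ n)⁻¹ • (g ^ ℓ ^ n - 1)) atTop (𝓝 L)

/-- The Lie algebra of the image of `ρ`: the span of the logarithms of its elements. -/
def galLie {Γ : Type} (ρ : Γ → Matrix κ κ ℚ_[ℓ]) : Submodule ℚ_[ℓ] (Matrix κ κ ℚ_[ℓ]) :=
  Submodule.span ℚ_[ℓ] {L | ∃ σ, IsLog (ρ σ) L}

/-- The entries of `g - 1` are divisible by `ℓ ^ N`. -/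
def NearOne (N : ℕ) (g : Matrix κ κ ℚ_[ℓ]) : Prop :=
  ∀ i j, ‖(g - 1) i j‖ ≤ ((ℓ : ℝ) ^ N)⁻¹

end log

section groups

variable {κ : Type} [Fintype κ] [DecidableEq κ]

/-- The value of a rational polynomial in the entries at a matrix. -/
def value {R : Type} [CommRing R] [Algebra ℚ R] (g : Matrix κ κ R)
    (f : MvPolynomial (κ × κ) ℚ) : R :=
  MvPolynomial.aeval (fun q : κ × κ => g q.1 q.2) f

/-- `G` is the set of complex points of an algebraic subgroup over `ℚ` of the general linear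
group. -/
def IsQGroup (G : Set (Matrix κ κ ℂ)) : Prop :=
  (∃ P : Set (MvPolynomial (κ × κ) ℚ), ∀ g, g ∈ G ↔ g.det ≠ 0 ∧ ∀ f ∈ P, value g f = 0) ∧
  1 ∈ G ∧ (∀ a ∈ G, ∀ b ∈ G, a * b ∈ G) ∧ ∀ a ∈ G, a⁻¹ ∈ G

/-- The complex points of the Mumford-Tate group: the smallest algebraic subgroup over `ℚ` which
contains `h z` for all `z`. -/
def mumfordTate (h : ℂ → Matrix κ κ ℂ) : Set (Matrix κ κ ℂ) :=
  {g | ∀ G, IsQGroup G → (∀ z, z ≠ 0 → h z ∈ G) → g ∈ G}

/-- The points of the Mumford-Tate group over a field `R`. -/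
def InMumfordTate {R : Type} [Field R] [Algebra ℚ R] (h : ℂ → Matrix κ κ ℂ)
    (g : Matrix κ κ R) : Prop :=
  ∀ f : MvPolynomial (κ × κ) ℚ, (∀ m ∈ mumfordTate h, value m f = 0) → value g f = 0

variable {ℓ : ℕ} [Fact ℓ.Prime] {Γ : Type} [Group Γ]

/-- The points of the identity component of the Zariski closure of `ρ(Γ)` over the algebraic
closure of `ℚ_ℓ`: a polynomial that vanishes on the image of a subgroup of finite index vanishes
at `g`. -/
def InMonodromy (ρ : Γ →* Matrix κ κ ℚ_[ℓ]) (g : Matrix κ κ (AlgebraicClosure ℚ_[ℓ])) : Prop :=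
  ∀ f : MvPolynomial (κ × κ) (AlgebraicClosure ℚ_[ℓ]),
    (∃ Δ : Subgroup Γ, Δ.FiniteIndex ∧ ∀ s ∈ Δ,
      MvPolynomial.aeval (fun q : κ × κ =>
        algebraMap ℚ_[ℓ] (AlgebraicClosure ℚ_[ℓ]) (ρ s q.1 q.2)) f = 0) →
    MvPolynomial.aeval (fun q : κ × κ => g q.1 q.2) f = 0

/-- The Mumford-Tate conjecture: the two groups agree over `ℚ_ℓ`. -/
def MumfordTateConjecture (h : ℂ → Matrix κ κ ℂ) (ρ : Γ →* Matrix κ κ ℚ_[ℓ]) : Prop :=
  ∀ g : Matrix κ κ (AlgebraicClosure ℚ_[ℓ]), g.det ≠ 0 → (InMonodromy ρ g ↔ InMumfordTate h g)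

end groups

section hodge

variable {κ : Type} [Fintype κ] [DecidableEq κ]

/-- A rational Hodge structure of weight `i` on `ℚ^κ`: the projections `e p` of `ℂ^κ` to the pieces
of type `(p, i - p)`. -/
structure HodgeStr (i : ℕ) (κ : Type) [Fintype κ] [DecidableEq κ] where
  e : ℕ → Matrix κ κ ℂ
  mul : ∀ p ≤ i, ∀ p' ≤ i, e p * e p' = if p = p' then e p else 0
  sum : ∑ p ∈ Finset.range (i + 1), e p = 1
  conj : ∀ p ≤ i, (e p).map (starRingEnd ℂ) = e (i - p)

/-- The action of `ℂ^×`: multiplication by `z ^ (-p) * conj z ^ (-q)` on the piece of type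
`(p, q)`. -/
def HodgeStr.h {i : ℕ} (V : HodgeStr i κ) (z : ℂ) : Matrix κ κ ℂ :=
  ∑ p ∈ Finset.range (i + 1), (z ^ p * starRingEnd ℂ z ^ (i - p))⁻¹ • V.e p

/-- The operator which is `p` on the piece of type `(p, q)`. -/
def HodgeStr.D {i : ℕ} (V : HodgeStr i κ) : Matrix κ κ ℂ :=
  ∑ p ∈ Finset.range (i + 1), (p : ℂ) • V.e p

/-- The operator which is `q` on the piece of type `(p, q)`. -/
def HodgeStr.D' {i : ℕ} (V : HodgeStr i κ) : Matrix κ κ ℂ :=
  ∑ p ∈ Finset.range (i + 1), ((i - p : ℕ) : ℂ) • V.e p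

end hodge

section kron

variable {S : Type} [Fintype S] [DecidableEq S] {I : S → Type} [∀ s, Fintype (I s)]
  [∀ s, DecidableEq (I s)] {F : Type} [Field F]

/-- The tensor product of the matrices `A s`. -/
def kron (A : ∀ s, Matrix (I s) (I s) F) : Matrix (∀ s, I s) (∀ s, I s) F :=
  fun u v => ∏ s, A s (u s) (v s)

/-- The operator `∑ 1 ⊗ ⋯ ⊗ A s ⊗ ⋯ ⊗ 1`. -/
def dkron (A : ∀ s, Matrix (I s) (I s) F) : Matrix (∀ s, I s) (∀ s, I s) F :=
  ∑ s, kron (Function.update (fun _ => 1) s (A s))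

end kron

end

end Run7.h457.MT
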