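import Pool.Agent.Run7.h457.MT.DataDefs

/-!
# Project MT457: the tannakian category generated by hyperkähler motives: definitions
-/

set_option autoImplicit false

namespace Run7.h457.MT

open Matrix

noncomputable section

/-- The realizations of a motive: the rational Hodge structure on `ℚ^κ` (given by the action `h` of the
group `ℂ^×` on `ℂ^κ`: by `z ^ (-p) * conj z ^ (-q)` on the part of type `(p, q)`), and the
representation `ρ` of the Galois group `Γ` on `ℚ_ℓ^κ`. -/
structure Obj (ℓ : ℕ) [Fact ℓ.Prime] (Γ : Type) [Group Γ] where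
  κ : Type
  [fin : Fintype κ]
  [dec : DecidableEq κ]
  h : ℂ → Matrix κ κ ℂ
  ρ : Γ →* Matrix κ κ ℚ_[ℓ]

attribute [instance] Obj.fin Obj.dec

variable {ℓ : ℕ} [Fact ℓ.Prime] {Γ : Type} [Group Γ]

/-- The direct sum. -/
def Obj.sum (M N : Obj ℓ Γ) : Obj ℓ Γ where
  κ := M.κ ⊕ N.κ
  h z := Matrix.fromBlocks (M.h z) 0 0 (N.h z)
  ρ :=
    { toFun := fun σ => Matrix.fromBlocks (M.ρ σ) 0 0 (N.ρ σ)
      map_one' := by rw [map_one, map_one, Matrix.fromBlocks_one]
      map_mul' := fun σ τ => by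
        rw [map_mul, map_mul, Matrix.fromBlocks_multiply]
        simp }

/-- The tensor product. -/
def Obj.tensor (M N : Obj ℓ Γ) : Obj ℓ Γ where
  κ := M.κ × N.κ
  h z := Matrix.kroneckerMap (fun x y => x * y) (M.h z) (N.h z)
  ρ :=
    { toFun := fun σ => Matrix.kroneckerMap (fun x y => x * y) (M.ρ σ) (N.ρ σ)
      map_one' := by
        rw [map_one, map_one]
        exact Matrix.one_kronecker_one
      map_mul' := fun σ τ => by
        rw [map_mul, map_mul]
        exact Matrix.mul_kronecker_mul _ _ _ _ }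

/-- The dual. -/
def Obj.dual (M : Obj ℓ Γ) : Obj ℓ Γ where
  κ := M.κ
  h z := ((M.h z)⁻¹)ᵀ
  ρ :=
    { toFun := fun σ => (M.ρ σ⁻¹)ᵀ
      map_one' := by rw [inv_one, map_one, Matrix.transpose_one]
      map_mul' := fun σ τ => by rw [_root_.mul_inv_rev, map_mul, Matrix.transpose_mul] }

/-- The Tate object `ℚ(1)`, of type `(-1, -1)`; the Galois group acts by the cyclotomic character
`χ`. -/
def Obj.tate (χ : Γ →* ℚ_[ℓ]) : Obj ℓ Γ where
  κ := Fin 1
  h z := (z * starRingEnd ℂ z) • 1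
  ρ := ((Matrix.scalar (Fin 1)).toMonoidHom : ℚ_[ℓ] →* Matrix (Fin 1) (Fin 1) ℚ_[ℓ]).comp χ

/-- The rational matrix `f` is a morphism of Hodge structures and of Galois representations from `M`
to `N`. -/
def Obj.IsHom (M N : Obj ℓ Γ) (f : Matrix N.κ M.κ ℚ) : Prop :=
  (∀ z : ℂ, z ≠ 0 → N.h z * f.map (algebraMap ℚ ℂ) = f.map (algebraMap ℚ ℂ) * M.h z) ∧
  ∀ σ, N.ρ σ * f.map (algebraMap ℚ ℚ_[ℓ]) = f.map (algebraMap ℚ ℚ_[ℓ]) * M.ρ σ

/-- `N` is a direct summand of `M` (for example, it is isomorphic to `M`). -/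
def Obj.IsSummand (N M : Obj ℓ Γ) : Prop :=
  ∃ (i : Matrix M.κ N.κ ℚ) (r : Matrix N.κ M.κ ℚ), N.IsHom M i ∧ M.IsHom N r ∧ r * i = 1

variable {T : Type} [Fintype T] [DecidableEq T] {d : T → ℕ}

/-- The objects of the tannakian category generated by the realizations of the motives `H^i(X_t)` of
the hyperkähler varieties `X_t` and by the Tate object: the smallest class which contains them and is
closed under direct sums, tensor products, duals and direct summands. -/
inductive Gen (B : ∀ t, LLV (d t)) (W : ∀ t, (B t).Hodge)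
    (G : ∀ t i, Γ →* Matrix (Fin ((B t).n i)) (Fin ((B t).n i)) ℚ_[ℓ]) (χ : Γ →* ℚ_[ℓ]) :
    Obj ℓ Γ → Prop
  | base (t : T) (i : ℕ) (hi : i ≤ d t) : Gen B W G χ ⟨Fin ((B t).n i), ((W t).V i).h, G t i⟩
  | tate : Gen B W G χ (Obj.tate χ)
  | sum (M N : Obj ℓ Γ) : Gen B W G χ M → Gen B W G χ N → Gen B W G χ (M.sum N)
  | tensor (M N : Obj ℓ Γ) : Gen B W G χ M → Gen B W G χ N → Gen B W G χ (M.tensor N)
  | dual (M : Obj ℓ Γ) : Gen B W G χ M → Gen B W G χ M.dual
  | summand (M N : Obj ℓ Γ) : Gen B W G χ M → N.IsSummand M → Gen B W G χ N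

end

end Run7.h457.MT
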