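import Pool.Agent.Run7.h457.MT.HKOne
import Pool.Agent.Run7.h457.MT.CycDef
import Pool.Agent.Run7.h457.MT.Two
import Pool.Agent.Run7.h457.MT.Obj

/-!
# Project MT457: hyperkähler varieties over finitely generated fields: definitions
-/

set_option autoImplicit false

namespace Run7.h457.MT

open Matrix NumberField Pool.Agent.N184.HK Pool.Agent.W401.Cheb

noncomputable section

/-- A finite family of projective hyperkähler varieties `X t` (of any deformation types) over the
finitely generated field `k` (with a fixed embedding of its algebraic closure in the field of complex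
numbers). The `X t` are the fibres over the generic point of a family over a variety with the function
field `k`; by the theorem of Serre and Terasoma it has a closed point, with a residue field `K`, for
which the image of the Galois group is the same. The fields are: the specializations `V t`
at this point (`H^i(X t, ℚ)` is identified with the rational cohomology of `V t` by parallel
transport), the Hodge structures `W t` of `X t`, and the matrices `G t i γ` of the action of the Galois
group of `k` on `H^i(X t, ℚ_ℓ)`; each `γ` acts on the `H^i(X t, ℚ_ℓ)` and on `ℚ_ℓ(1)` as some element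
`σ` of the Galois group of `K` acts on the `H^i(V t, ℚ_ℓ)` and on `ℚ_ℓ(1)`. -/
structure HKFam (k : Type) [Field k] (ℓ : ℕ) [Fact ℓ.Prime] (T : Type) where
  K : Type
  [field : Field K]
  [numberField : NumberField K]
  V : T → HK K ℓ
  W : ∀ t, (V t).B.Hodge
  G : ∀ t i, GK k →* Matrix (Fin ((V t).B.n i)) (Fin ((V t).B.n i)) ℚ_[ℓ]
  image : ∀ γ : GK k, ∃ σ : GK K, (∀ t, ∀ i ≤ (V t).X.d, G t i γ = (V t).C.G i σ) ∧
    cyc k ℓ γ = cyc K ℓ σ

attribute [instance] HKFam.field HKFam.numberField

variable {k : Type} [Field k] {ℓ : ℕ} [Fact ℓ.Prime] {T : Type}

variable [Fintype T] [DecidableEq T]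

/-- `M` is an object of the tannakian category generated by the realizations of the motives
`H^i(X t)`. -/
def HKFam.Generated (F : HKFam k ℓ T) (M : Obj ℓ (GK k)) : Prop :=
  Gen (fun t => (F.V t).B) F.W F.G (cyc k ℓ) M

/-- The Mumford-Tate conjecture for the sum of the `H²(X t)`, in the form of Lie algebras: the Lie
algebra of the image of the Galois group is the `ℚ_ℓ`-span of the Lie algebra of the Mumford-Tate
group. -/
def HKFam.MumfordTateTwo (F : HKFam k ℓ T) : Prop :=
  MTTwo (fun t => (F.V t).B) F.W fun t i γ => F.G t i γ

end

end Run7.h457.MT
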