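import Pool.Agent.Run7.h457.MT.Family
import Pool.Agent.Run7.h411.Cft7
import Pool.Agent.Run7.h606.MT.P4
import Pool.Agent.Run7.h835.MT.P5

/-!
# Project MT457: the theorems over number fields
-/

set_option autoImplicit false
set_option linter.unusedSectionVars false

namespace Run7.h457.MT

open Matrix NumberField Pool.Agent.N184.HK Pool.Agent.W401.Cheb

noncomputable section

theorem gsup_thm : S_GSUP := Pool.Agent.Run7.h606.MT.gsup Run7.h475.MT.SPAN

theorem gsub_thm : S_GSUB := Run7.h835.MT.GSUB

variable {K : Type} [Field K] [NumberField K] {ℓ : ℕ} [Fact ℓ.Prime]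
  {T : Type} [Fintype T] [DecidableEq T] (V : T → HK K ℓ)
  {S : Type} [Fintype S] [DecidableEq S] (τ : S → T)

/-- The relation between the logarithms. -/
theorem logRel_thm : LogRel (fun t => (V t).B) fun t i => (V t).C.G i :=
  logRel_family V (Run7.h411.Cft.cft K ℓ)

/-- **Tate classes and Hodge classes** on products of hyperkähler varieties. -/
theorem tate_thm (h2 : MumfordTateTwo V) (j : ℕ)
    (x : Idx (fun s => V (τ s)) (2 * j) → ℚ_[ℓ]) :
    IsTateClass (fun s => V (τ s)) j x ↔
      x ∈ Submodule.span ℚ_[ℓ] {x | ∃ v, IsHodgeClass (fun s => V (τ s)) j v ∧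
        x = fun k => (v k : ℚ_[ℓ])} :=
  tate_iff V τ (Run7.h411.Cft.cft K ℓ) h2 j x

/-- **The Mumford-Tate conjecture** for all products of hyperkähler varieties, in all degrees. -/
theorem mumfordTate_thm (h2 : MumfordTateTwo V) (i : ℕ) :
    galLie (gal (fun s => V (τ s)) i) =
        ratSpan ℚ_[ℓ] (mtLie (hodgeD (fun s => V (τ s)) i) (hodgeD' (fun s => V (τ s)) i) :
          Set _) ∧
      MumfordTateConjecture (hodgeH (fun s => V (τ s)) i) (galois (fun s => V (τ s)) i) :=
  mumfordTate_product V τ gsup_thm gsub_thm (Run7.h411.Cft.cft K ℓ) h2 i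

end

end Run7.h457.MT
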