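import Pool.Agent.Run7.h457.MT.Tann

/-!
# Project MT457: the action of `ℂ^×` is invertible
-/

set_option autoImplicit false

namespace Run7.h457.MT

open Matrix

variable {ℓ : ℕ} [Fact ℓ.Prime] {Γ : Type} [Group Γ] {T : Type} [Fintype T] [DecidableEq T]
  {d : T → ℕ}

theorem good_det {B : ∀ t, LLV (d t)} {W : ∀ t, (B t).Hodge}
    {G : ∀ t i, Γ →* Matrix (Fin ((B t).n i)) (Fin ((B t).n i)) ℚ_[ℓ]} {M : Obj ℓ Γ}
    (hM : Good B W G M) (z : ℂ) (hz : z ≠ 0) : (M.h z).det ≠ 0 := by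
  obtain ⟨E, -, -, C, iC, jC, a, b, e, he, hs, hh, -⟩ := hM
  have hz' : starRingEnd ℂ z ≠ 0 := fun h => hz ((map_eq_zero _).1 h)
  have h1 : M.h z * (∑ c, (z ^ a c * starRingEnd ℂ z ^ b c) • e c) = 1 := by
    rw [hh z hz, Finset.sum_mul, ← hs]
    refine Finset.sum_congr rfl fun c _ => ?_
    rw [Finset.mul_sum, Finset.sum_eq_single c]
    · rw [Matrix.smul_mul, Matrix.mul_smul, he, if_pos rfl, smul_smul, _root_.zpow_neg, _root_.zpow_neg]
      rw [show (z ^ a c)⁻¹ * (starRingEnd ℂ z ^ b c)⁻¹ * (z ^ a c * starRingEnd ℂ z ^ b c) =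
        ((z ^ a c)⁻¹ * z ^ a c) * ((starRingEnd ℂ z ^ b c)⁻¹ * starRingEnd ℂ z ^ b c) by ring,
        inv_mul_cancel₀ (zpow_ne_zero _ hz), inv_mul_cancel₀ (zpow_ne_zero _ hz'), one_mul,
        one_smul]
    · intro c' _ hc'
      rw [Matrix.smul_mul, Matrix.mul_smul, he, if_neg (Ne.symm hc'), smul_zero, smul_zero]
    · intro h
      exact absurd (Finset.mem_univ c) h
  intro h0
  have h2 := congrArg Matrix.det h1
  rw [Matrix.det_mul, h0, zero_mul, Matrix.det_one] at h2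
  exact zero_ne_one h2

end Run7.h457.MT
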