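import Pool.Agent.Run7.h457.MT.MotDefs

/-!
# Project MT457: algebraic groups over `ℚ` which contain the Mumford-Tate group
-/

set_option autoImplicit false

namespace Run7.h457.MT

open Matrix MvPolynomial

variable {κ : Type} [Fintype κ] [DecidableEq κ]

theorem inMT_iff {R : Type} [Field R] [Algebra ℚ R] (h : ℂ → Matrix κ κ ℂ) (g : Matrix κ κ R) :
    InMumfordTate h g ↔ InQGroup (mumfordTate h) g := Iff.rfl

/-- The determinant as a polynomial. -/
noncomputable def detP (κ : Type) [Fintype κ] [DecidableEq κ] : MvPolynomial (κ × κ) ℚ :=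
  (Matrix.mvPolynomialX κ κ ℚ).det

theorem value_det {R : Type} [Field R] [Algebra ℚ R] (g : Matrix κ κ R) :
    value g (detP κ) = g.det := by
  unfold value detP
  rw [AlgHom.map_det]
  congr 1
  exact Matrix.mvPolynomialX_mapMatrix_aeval ℚ g

/-- Two algebraic groups over `ℚ` can be compared over any algebraically closed field. -/
theorem qgroup_le {Ω : Type} [Field Ω] [Algebra ℚ Ω] [IsAlgClosed Ω] {G G' : Set (Matrix κ κ ℂ)}
    (hG : IsQGroup G) (hG' : IsQGroup G')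
    (H : ∀ g : Matrix κ κ Ω, g.det ≠ 0 → InQGroup G g → InQGroup G' g) : G ⊆ G' := by
  intro m hm
  obtain ⟨⟨P, hP⟩, -⟩ := hG
  obtain ⟨⟨P', hP'⟩, -⟩ := hG'
  have hdet := ((hP m).1 hm).1
  refine (hP' m).2 ⟨hdet, fun f hf => ?_⟩
  let I : Ideal (MvPolynomial (κ × κ) ℚ) :=
    vanishingIdeal ℚ ((fun (g : Matrix κ κ ℂ) (q : κ × κ) => g q.1 q.2) '' G)
  have hI : ∀ p, p ∈ I ↔ ∀ g ∈ G, value g p = 0 := by
    intro p
    rw [mem_vanishingIdeal_iff]
    exact Set.forall_mem_image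
  have h1 : f * detP κ ∈ vanishingIdeal ℚ (zeroLocus Ω I) := by
    rw [mem_vanishingIdeal_iff]
    intro x hx
    rw [mem_zeroLocus_iff] at hx
    let g : Matrix κ κ Ω := fun a b => x (a, b)
    have hv : ∀ p : MvPolynomial (κ × κ) ℚ, aeval x p = value g p := fun p => rfl
    rw [hv]
    by_cases hg : g.det = 0
    · unfold value
      rw [map_mul]
      exact mul_eq_zero_of_right _ ((value_det g).trans hg)
    · have h2 := H g hg (fun p hp => by
        rw [← hv]
        exact hx p ((hI p).2 hp)) f fun m' hm' => ((hP' m').1 hm').2 f hf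
      unfold value
      rw [map_mul]
      exact mul_eq_zero_of_left h2 _
  rw [vanishingIdeal_zeroLocus_eq_radical] at h1
  obtain ⟨n, hn⟩ := h1
  have h3 := (hI _).1 hn m hm
  unfold value at h3
  rw [map_pow, map_mul] at h3
  have h5 : value m f * value m (detP κ) = 0 := eq_zero_of_pow_eq_zero h3
  rw [value_det] at h5
  exact (mul_eq_zero.1 h5).resolve_right hdet

/-- The Mumford-Tate group is an algebraic group over `ℚ`. -/
theorem mt_isQGroup (h : ℂ → Matrix κ κ ℂ) (hh : ∀ z, z ≠ 0 → (h z).det ≠ 0) :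
    IsQGroup (mumfordTate h) := by
  have h0 : IsQGroup {g : Matrix κ κ ℂ | g.det ≠ 0} := by
    refine ⟨⟨∅, fun g => ⟨fun hg => ⟨hg, fun f hf => hf.elim⟩, fun hg => hg.1⟩⟩, ?_, ?_, ?_⟩
    · show (1 : Matrix κ κ ℂ).det ≠ 0
      rw [det_one]
      exact one_ne_zero
    · intro a ha b hb
      show (a * b).det ≠ 0
      rw [det_mul]
      exact mul_ne_zero ha hb
    · intro a ha
      show (a⁻¹).det ≠ 0
      have h1 : IsUnit a.det := isUnit_iff_ne_zero.2 ha
      have h2 := Matrix.det_mul a a⁻¹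
      rw [Matrix.mul_nonsing_inv _ h1, det_one] at h2
      exact right_ne_zero_of_mul (h2 ▸ one_ne_zero)
  refine ⟨⟨{f | ∀ m ∈ mumfordTate h, value m f = 0}, fun g => ⟨fun hg => ⟨hg _ h0 hh,
    fun f hf => hf g hg⟩, fun hg G hG hhG => ?_⟩⟩, ?_, ?_, ?_⟩
  · obtain ⟨⟨P, hP⟩, h2⟩ := id hG
    refine (hP g).2 ⟨hg.1, fun f hf => hg.2 f fun m hm => ?_⟩
    exact ((hP m).1 (hm G hG hhG)).2 f hf
  · exact fun G hG _ => hG.2.1
  · exact fun a ha b hb G hG hhG => hG.2.2.1 a (ha G hG hhG) b (hb G hG hhG)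
  · exact fun a ha G hG hhG => hG.2.2.2 a (ha G hG hhG)

/-- For an algebraic group `G` over `ℚ` the Mumford-Tate group is `G` if and only if the identity
component of the `ℓ`-adic monodromy group is `G` over `ℚ_ℓ`. -/
theorem mot_iff {ℓ : ℕ} [Fact ℓ.Prime] {Γ : Type} [Group Γ] (h : ℂ → Matrix κ κ ℂ)
    (hh : ∀ z, z ≠ 0 → (h z).det ≠ 0) (ρ : Γ →* Matrix κ κ ℚ_[ℓ])
    (hmt : MumfordTateConjecture h ρ) (G : Set (Matrix κ κ ℂ)) (hG : IsQGroup G) :
    mumfordTate h = G ↔ ∀ g : Matrix κ κ (AlgebraicClosure ℚ_[ℓ]), g.det ≠ 0 →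
      (InMonodromy ρ g ↔ InQGroup G g) := by
  constructor
  · rintro rfl g hg
    exact hmt g hg
  · intro H
    refine Set.Subset.antisymm ?_ ?_
    · exact qgroup_le (mt_isQGroup h hh) hG fun g hg h1 =>
        (H g hg).1 ((hmt g hg).2 h1)
    · exact qgroup_le hG (mt_isQGroup h hh) fun g hg h1 =>
        (hmt g hg).1 ((H g hg).2 h1)

end Run7.h457.MT
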