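import Pool.Agent.Run7.h457.MT.Obj
import Pool.Agent.Run7.h457.MT.Iface2

/-!
# Project MT457: the tannakian category generated by hyperkähler motives: pieces P11
-/

set_option autoImplicit false

namespace Run7.h457.MT

open Matrix

noncomputable section

variable {ℓ : ℕ} [Fact ℓ.Prime] {Γ : Type} [Group Γ] {T : Type} [Fintype T] [DecidableEq T]
  {d : T → ℕ}

/-- The operator on `⊕ H²(X_t)` which is `p` on the part of type `(p, q)`. -/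
def D2 (B : ∀ t, LLV (d t)) (W : ∀ t, (B t).Hodge) :
    Matrix (Σ t, Fin ((B t).n 2)) (Σ t, Fin ((B t).n 2)) ℂ :=
  Matrix.blockDiagonal' fun t => ((W t).V 2).D

/-- The operator on `⊕ H²(X_t)` which is `q` on the part of type `(p, q)`. -/
def D2' (B : ∀ t, LLV (d t)) (W : ∀ t, (B t).Hodge) :
    Matrix (Σ t, Fin ((B t).n 2)) (Σ t, Fin ((B t).n 2)) ℂ :=
  Matrix.blockDiagonal' fun t => ((W t).V 2).D'

/-- The inductive hypothesis: near `1` the logarithm on `M` is the image of the logarithm on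
`⊕ H²(X_t)` under a rational linear map `E`, which gives also the Hodge structure of `M`. -/
def Good (B : ∀ t, LLV (d t)) (W : ∀ t, (B t).Hodge)
    (G : ∀ t i, Γ →* Matrix (Fin ((B t).n i)) (Fin ((B t).n i)) ℚ_[ℓ]) (M : Obj ℓ Γ) : Prop :=
  ∃ E : Matrix (Σ t, Fin ((B t).n 2)) (Σ t, Fin ((B t).n 2)) ℚ →ₗ[ℚ] Matrix M.κ M.κ ℚ,
    LieOn (mtLie (D2 B W) (D2' B W)) E ∧
    (∀ N : ℕ, ∃ Δ : Subgroup Γ, Δ.FiniteIndex ∧ ∀ σ ∈ Δ, NearOne N (M.ρ σ) ∧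
      ∀ L, IsLog (Matrix.blockDiagonal' fun t => G t 2 σ) L → IsLog (M.ρ σ) (ext ℚ_[ℓ] E L)) ∧
    ∃ (C : Type) (_ : Fintype C) (_ : DecidableEq C) (a b : C → ℤ) (e : C → Matrix M.κ M.κ ℂ),
      (∀ c c', e c * e c' = if c = c' then e c else 0) ∧ ∑ c, e c = 1 ∧
      (∀ z : ℂ, z ≠ 0 → M.h z = ∑ c, (z ^ (-a c) * starRingEnd ℂ z ^ (-b c)) • e c) ∧
      ext ℂ E (D2 B W) = ∑ c, (a c : ℂ) • e c ∧ ext ℂ E (D2' B W) = ∑ c, (b c : ℂ) • e c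

/-! ## P11: `Good` is closed under the operations

* `base`: `E(A) = R_{t, i} (blockDiag' A t)` (as in `Common.lean`, `ext_R_D`, `mm_lie`; the Lie algebra
  `mtLie` is contained in `mm`); `C = Fin (i + 1)`.
* `tate`: take a `t`; `E(A) = -(tr A_t / n_t) • 1`; `C = Unit`, `a = b = -1`. For `σ` near `1` the
  logarithm of `χ σ` is `-tr L_t / n_t`, because of the form (see P9, `EF`, `EQ`).
* `sum`: `E = fromBlocks E₁ 0 0 E₂`, `C = C₁ ⊕ C₂`.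
* `tensor`: `E = E₁ ⊗ 1 + 1 ⊗ E₂`, `C = C₁ × C₂`.
* `dual`: `E = -E₁ᵀ`, the same `C`, `e` transposed, `a`, `b` with the opposite sign.
* `summand`: `E = r E₁ i`, `C` the same and `e = r e i`; this is a bit delicate if `e` does not commute
  with `p = i r`: first replace `C` by the set of pairs `(a, b)` (join the `e c` with the same `(a, b)`);
  then `e c` commutes with `p`, because the characters `z ^ (-a) * conj z ^ (-b)` of `ℂ^×` for distinct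
  `(a, b)` are linearly independent (`linearIndependent_monoidHom`). `E₁ x` commutes with `p` for
  all `x` in `mtLie`: the `x` in `mtLie` with this property form a Lie algebra whose complex span
  contains `D2`, `D2'`.
-/

/-- P11a -/
def S_BASE : Prop := ∀ (ℓ : ℕ) [Fact ℓ.Prime] (Γ : Type) [Group Γ] (T : Type) [Fintype T]
  [DecidableEq T] (d : T → ℕ), (∀ t, 2 ≤ d t) → ∀ (B : ∀ t, LLV (d t)) (W : ∀ t, (B t).Hodge)
  (G : ∀ t i, Γ →* Matrix (Fin ((B t).n i)) (Fin ((B t).n i)) ℚ_[ℓ]), LogRel B G →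
  ∀ (t : T) (i : ℕ), i ≤ d t → Good B W G ⟨Fin ((B t).n i), ((W t).V i).h, G t i⟩

/-- P11b -/
def S_TATEOBJ : Prop := ∀ (ℓ : ℕ) [Fact ℓ.Prime] (Γ : Type) [Group Γ] (T : Type) [Fintype T]
  [DecidableEq T] [Nonempty T] (d : T → ℕ), (∀ t, 2 ≤ d t) → ∀ (B : ∀ t, LLV (d t))
  (W : ∀ t, (B t).Hodge)
  (G : ∀ t i, Γ →* Matrix (Fin ((B t).n i)) (Fin ((B t).n i)) ℚ_[ℓ]), LogRel B G →
  ∀ (χ : Γ →* ℚ_[ℓ]), (∀ N : ℕ, ∃ Δ : Subgroup Γ, Δ.FiniteIndex ∧ ∀ σ ∈ Δ,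
      ‖χ σ - 1‖ ≤ ((ℓ : ℝ) ^ N)⁻¹) →
  (∀ t σ, (G t 2 σ)ᵀ * (B t).q.map (algebraMap ℚ ℚ_[ℓ]) * G t 2 σ =
    (χ σ ^ 2)⁻¹ • (B t).q.map (algebraMap ℚ ℚ_[ℓ])) →
  Good B W G (Obj.tate χ)

/-- P11c -/
def S_SUM : Prop := ∀ (ℓ : ℕ) [Fact ℓ.Prime] (Γ : Type) [Group Γ] (T : Type) [Fintype T]
  [DecidableEq T] (d : T → ℕ) (B : ∀ t, LLV (d t)) (W : ∀ t, (B t).Hodge)
  (G : ∀ t i, Γ →* Matrix (Fin ((B t).n i)) (Fin ((B t).n i)) ℚ_[ℓ]) (M N : Obj ℓ Γ),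
  Good B W G M → Good B W G N → Good B W G (M.sum N)

/-- P11d -/
def S_TENSOR : Prop := ∀ (ℓ : ℕ) [Fact ℓ.Prime] (Γ : Type) [Group Γ] (T : Type) [Fintype T]
  [DecidableEq T] (d : T → ℕ) (B : ∀ t, LLV (d t)) (W : ∀ t, (B t).Hodge)
  (G : ∀ t i, Γ →* Matrix (Fin ((B t).n i)) (Fin ((B t).n i)) ℚ_[ℓ]) (M N : Obj ℓ Γ),
  Good B W G M → Good B W G N → Good B W G (M.tensor N)

/-- P11e -/
def S_DUAL : Prop := ∀ (ℓ : ℕ) [Fact ℓ.Prime] (Γ : Type) [Group Γ] (T : Type) [Fintype T]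
  [DecidableEq T] (d : T → ℕ) (B : ∀ t, LLV (d t)) (W : ∀ t, (B t).Hodge)
  (G : ∀ t i, Γ →* Matrix (Fin ((B t).n i)) (Fin ((B t).n i)) ℚ_[ℓ]) (M : Obj ℓ Γ),
  Good B W G M → Good B W G M.dual

/-- P11f -/
def S_SUMMAND : Prop := ∀ (ℓ : ℕ) [Fact ℓ.Prime] (Γ : Type) [Group Γ] (T : Type) [Fintype T]
  [DecidableEq T] (d : T → ℕ) (B : ∀ t, LLV (d t)) (W : ∀ t, (B t).Hodge)
  (G : ∀ t i, Γ →* Matrix (Fin ((B t).n i)) (Fin ((B t).n i)) ℚ_[ℓ]) (M N : Obj ℓ Γ),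
  Good B W G M → N.IsSummand M → Good B W G N

/-- P11g (as the end of P8 and P10) -/
def S_GOODMT : Prop := ∀ (ℓ : ℕ) [Fact ℓ.Prime] (Γ : Type) [Group Γ] (T : Type) [Fintype T]
  [DecidableEq T] (d : T → ℕ) (B : ∀ t, LLV (d t)) (W : ∀ t, (B t).Hodge)
  (G : ∀ t i, Γ →* Matrix (Fin ((B t).n i)) (Fin ((B t).n i)) ℚ_[ℓ]), (∀ t, 2 ≤ d t) →
  LogRel B G → MTTwo B W (fun t i σ => G t i σ) → ∀ M : Obj ℓ Γ, Good B W G M →
  MumfordTateConjecture M.h M.ρ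

end

end Run7.h457.MT
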