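import Pool.Agent.Run7.h457.MT.FinalT
import Pool.Agent.Run7.h457.MT.Mot
import Pool.Agent.Run7.h457.MT.GoodDet
import Pool.Agent.Run7.h700.MT.P11a
import Pool.Agent.Run7.h644.MT.P11f
import Pool.Agent.Run7.h576.MT.P11g
import Pool.Agent.Run7.h483.MT.P11c
import Pool.Agent.Run7.h483.MT.P11d

/-!
# Project MT457: the tannakian category generated by hyperkähler motives: the theorems
-/

set_option autoImplicit false

namespace Run7.h457.MT

open Matrix Pool.Agent.W401.Cheb

variable {k : Type} [Field k] {ℓ : ℕ} [Fact ℓ.Prime] {T : Type} [Fintype T] [DecidableEq T]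
  [Nonempty T] (F : HKFam k ℓ T)

theorem tann_good {M : Obj ℓ (GK k)} (hM : F.Generated M) :
    Good (fun t => (F.V t).B) F.W F.G M :=
  good_of_gen F Run7.h700.MT.base Run7.h700.MT.tateobj Pool.Agent.Run7.h483.MT.t_SUM Pool.Agent.Run7.h483.MT.t_TENSOR
    Pool.Agent.Run7.h483.MT.t_DUAL Run7.h644.MT.t_SUMMAND hM

/-- **The Mumford-Tate conjecture** for the tannakian category generated by hyperkähler varieties. -/
theorem tann_thm (h2 : F.MumfordTateTwo) {M : Obj ℓ (GK k)} (hM : F.Generated M) :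
    MumfordTateConjecture M.h M.ρ :=
  Run7.h576.MT.t_GOODMT gsup_thm gsub_thm ℓ (GK k) T (fun t => (F.V t).X.d)
    (fun t => (F.V t).B) F.W F.G (fun t => (F.V t).X.two_le) (fam_logRel F) h2 M
    (tann_good F hM)

/-- Algebraic groups over `ℚ`. -/
theorem tann_group (h2 : F.MumfordTateTwo) {M : Obj ℓ (GK k)} (hM : F.Generated M)
    (G : Set (Matrix M.κ M.κ ℂ)) (hG : IsQGroup G) :
    mumfordTate M.h = G ↔ ∀ g : Matrix M.κ M.κ (AlgebraicClosure ℚ_[ℓ]), g.det ≠ 0 →
      (InMonodromy M.ρ g ↔ InQGroup G g) :=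
  mot_iff M.h (fun z hz => good_det (tann_good F hM) z hz) M.ρ (tann_thm F h2 hM) G hG

end Run7.h457.MT
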