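import Pool.Agent.Run7.h457.MT.Fam
import Pool.Agent.Run7.h457.MT.Tann
import Pool.Agent.Run7.h457.MT.Final

/-!
# Project MT457: the theorems over finitely generated fields
-/

set_option autoImplicit false
set_option linter.unusedSectionVars false

namespace Run7.h457.MT

open Matrix NumberField Pool.Agent.N184.HK Pool.Agent.W401.Cheb

noncomputable section

/-- Preimages of subgroups of finite index under a relation. -/
theorem finite_of_rel {Γ Γ' : Type} [Group Γ] [Group Γ'] (U : Subgroup Γ') [U.FiniteIndex]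
    (R : Γ → Γ' → Prop) (hmul : ∀ a b a' b', R a a' → R b b' → R (a * b) (a' * b'))
    (hinv : ∀ a a', R a a' → R a⁻¹ a'⁻¹) (hex : ∀ a, ∃ a', R a a') :
    ∃ Δ : Subgroup Γ, Δ.FiniteIndex ∧ ∀ a ∈ Δ, ∃ a' ∈ U, R a a' := by
  have hone : R 1 1 := by
    obtain ⟨a', h⟩ := hex 1
    have := hmul _ _ _ _ h (hinv _ _ h)
    rwa [mul_inv_cancel, mul_inv_cancel] at this
  let Δ : Subgroup Γ :=
    { carrier := {a | ∃ a' ∈ U, R a a'}
      one_mem' := ⟨1, U.one_mem, hone⟩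
      mul_mem' := by
        rintro a b ⟨a', ha, h1⟩ ⟨b', hb, h2⟩
        exact ⟨a' * b', U.mul_mem ha hb, hmul _ _ _ _ h1 h2⟩
      inv_mem' := by
        rintro a ⟨a', ha, h1⟩
        exact ⟨a'⁻¹, U.inv_mem ha, hinv _ _ h1⟩ }
  have hΔ : ∀ a, a ∈ Δ ↔ ∃ a' ∈ U, R a a' := fun a => Iff.rfl
  choose s hs using hex
  refine ⟨Δ, ?_, fun a ha => ha⟩
  have : Finite (Γ' ⧸ U) := inferInstance
  let f : Γ ⧸ Δ → Γ' ⧸ U := fun q => QuotientGroup.mk (s q.out)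
  have hf : Function.Injective f := by
    intro q q' hqq
    have h1 : (s q.out)⁻¹ * s q'.out ∈ U := QuotientGroup.eq.1 hqq
    have h2 : q.out⁻¹ * q'.out ∈ Δ :=
      (hΔ _).2 ⟨_, h1, hmul _ _ _ _ (hinv _ _ (hs q.out)) (hs q'.out)⟩
    rw [← QuotientGroup.out_eq' q, ← QuotientGroup.out_eq' q']
    exact QuotientGroup.eq.2 h2
  have : Finite (Γ ⧸ Δ) := Finite.of_injective f hf
  exact Subgroup.finiteIndex_of_finite_quotient

variable {k : Type} [Field k] {ℓ : ℕ} [Fact ℓ.Prime] {T : Type} [Fintype T] [DecidableEq T]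
  (F : HKFam k ℓ T)

theorem fam_logRel : LogRel (fun t => (F.V t).B) F.G :=
  logRel_of_image (X := fun t => (F.V t).X) (B := fun t => (F.V t).B)
    (fun t => (F.V t).C.old) (Run7.h411.Cft.cft F.K ℓ) (fun t Q hQ h => (F.V t).old Q hQ h) F.G
    fun γ => by
      obtain ⟨σ, h, _⟩ := F.image γ
      exact ⟨σ, h⟩

theorem fam_near (F : HKFam k ℓ T) (N : ℕ) : ∃ Δ : Subgroup (GK k), Δ.FiniteIndex ∧ ∀ γ ∈ Δ,
    ‖cyc k ℓ γ - 1‖ ≤ ((ℓ : ℝ) ^ N)⁻¹ := by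
  obtain ⟨U, hU, h⟩ := cyc_near (K := F.K) (ℓ := ℓ) N
  obtain ⟨Δ, hΔ, h2⟩ := finite_of_rel U (fun γ σ => cyc k ℓ γ = cyc F.K ℓ σ)
    (fun a b a' b' h1 h2 => by
      show cyc k ℓ (a * b) = cyc F.K ℓ (a' * b')
      rw [map_mul, map_mul, h1, h2])
    (fun a a' h1 => by
      have h3 : cyc k ℓ a⁻¹ * cyc k ℓ a = 1 := by rw [← map_mul, inv_mul_cancel, map_one]
      have h4 : cyc F.K ℓ a'⁻¹ * cyc F.K ℓ a' = 1 := by rw [← map_mul, inv_mul_cancel, map_one]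
      have h5 : cyc k ℓ a ≠ 0 := fun h => by rw [h, mul_zero] at h3; exact zero_ne_one h3
      show cyc k ℓ a⁻¹ = cyc F.K ℓ a'⁻¹
      have h1' : cyc k ℓ a = cyc F.K ℓ a' := h1
      rw [← h1'] at h4
      exact mul_right_cancel₀ h5 (h3.trans h4.symm))
    (fun γ => by
      obtain ⟨σ, _, h⟩ := F.image γ
      exact ⟨σ, h⟩)
  refine ⟨Δ, hΔ, fun γ hγ => ?_⟩
  obtain ⟨σ, hσ, h3⟩ := h2 γ hγ
  rw [show cyc k ℓ γ = cyc F.K ℓ σ from h3]
  exact h σ hσ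

theorem fam_form (t : T) (γ : GK k) :
    (F.G t 2 γ)ᵀ * (F.V t).B.q.map (algebraMap ℚ ℚ_[ℓ]) * F.G t 2 γ =
      (cyc k ℓ γ ^ 2)⁻¹ • (F.V t).B.q.map (algebraMap ℚ ℚ_[ℓ]) := by
  obtain ⟨σ, h1, h2⟩ := F.image γ
  rw [h1 t 2 (F.V t).X.two_le, h2]
  exact form_cyc (F.V t).C.old σ

theorem good_of_gen (p1 : S_BASE) (p2 : S_TATEOBJ) (p3 : S_SUM) (p4 : S_TENSOR) (p5 : S_DUAL)
    (p6 : S_SUMMAND) [Nonempty T] {M : Obj ℓ (GK k)} (hM : F.Generated M) :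
    Good (fun t => (F.V t).B) F.W F.G M := by
  unfold HKFam.Generated at hM
  induction hM with
  | base t i hi =>
    exact p1 ℓ (GK k) T (fun t => (F.V t).X.d) (fun t => (F.V t).X.two_le) (fun t => (F.V t).B)
      F.W F.G (fam_logRel F) t i hi
  | tate =>
    exact p2 ℓ (GK k) T (fun t => (F.V t).X.d) (fun t => (F.V t).X.two_le) (fun t => (F.V t).B)
      F.W F.G (fam_logRel F) (cyc k ℓ) (fam_near F) (fam_form F)
  | sum M N _ _ h1 h2 => exact p3 ℓ _ T _ _ _ _ M N h1 h2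
  | tensor M N _ _ h1 h2 => exact p4 ℓ _ T _ _ _ _ M N h1 h2
  | dual M _ h1 => exact p5 ℓ _ T _ _ _ _ M h1
  | summand M N _ h h1 => exact p6 ℓ _ T _ _ _ _ M N h1 h

/-- **The Mumford-Tate conjecture** for the tannakian category generated by hyperkähler varieties. -/
theorem tann_mt (p1 : S_BASE) (p2 : S_TATEOBJ) (p3 : S_SUM) (p4 : S_TENSOR) (p5 : S_DUAL)
    (p6 : S_SUMMAND) (p7 : S_GOODMT) [Nonempty T] (h2 : F.MumfordTateTwo) {M : Obj ℓ (GK k)}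
    (hM : F.Generated M) : MumfordTateConjecture M.h M.ρ :=
  p7 ℓ (GK k) T (fun t => (F.V t).X.d) (fun t => (F.V t).B) F.W F.G
    (fun t => (F.V t).X.two_le) (fam_logRel F) h2 M (good_of_gen F p1 p2 p3 p4 p5 p6 hM)

end

end Run7.h457.MT
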