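import Pool.Agent.Run7.h457.MT.DataDefs
import Pool.Agent.Run7.h457.MT.Near

/-!
# Project MT457: projective hyperkähler varieties over a number field
-/

set_option autoImplicit false

namespace Run7.h457.MT

open Matrix NumberField Pool.Agent.N184.HK Pool.Agent.W401.Cheb

noncomputable section

/-- The matrix of the endomorphism `f` in the basis `b`. -/
def matOf {F H : Type} [Field F] [AddCommGroup H] [Module F H] {n : ℕ}
    (b : Module.Basis (Fin n) F H) (f : Module.End F H) : Matrix (Fin n) (Fin n) F :=
  LinearMap.toMatrix b b f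

/-- The endomorphism with the matrix `A` in the basis `b`. -/
def endOf {F H : Type} [Field F] [AddCommGroup H] [Module F H] {n : ℕ}
    (b : Module.Basis (Fin n) F H) (A : Matrix (Fin n) (Fin n) F) : Module.End F H :=
  Matrix.toLin b b A

/-- The action of the endomorphism `f` of `H²` (an element of `so(H²)`) on `H^i`. -/
def act {F : Type} [Field F] {d : ℕ} {c : ℚ} (Y : Cohomology F d c) (i : ℕ)
    (f : Module.End F (Y.H 2)) : Module.End F (Y.H i) :=
  Y.ρ i f

/-- Bases of the cohomology groups `Y`, with coefficients in the field `F`, for which the form of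
Beauville, Bogomolov and Fujiki and the action of `so(H²)` are given by the rational matrices of the
rational cohomology `B`. -/
structure RatBasis {F : Type} [Field F] [CharZero F] {d : ℕ} {c : ℚ} (Y : Cohomology F d c)
    (B : LLV d) where
  b : ∀ i, Module.Basis (Fin (B.n i)) F (Y.H i)
  hq : ∀ j k, Y.q (b 2 j) (b 2 k) = algebraMap ℚ F (B.q j k)
  hρ : ∀ i (A : Matrix (Fin (B.n 2)) (Fin (B.n 2)) ℚ),
    matOf (b i) (act Y i (endOf (b 2) (A.map (algebraMap ℚ F)))) =
      (B.ρ i A).map (algebraMap ℚ F)

/-- Artin's comparison of the `ℓ`-adic cohomology of the hyperkähler variety `X` over the number field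
`K` with the rational cohomology `B` of `X(ℂ)` (for an embedding of the algebraic closure of `K` in the
field of complex numbers): `b i` is the basis of `H^i(X, ℚ)`, and `G i σ` is the matrix of the action
of `σ` on `H^i(X, ℚ_ℓ)`. -/
structure Artin {K : Type} [Field K] [NumberField K] {ℓ : ℕ} [Fact ℓ.Prime]
    (X : HKVariety K (PadicAlgCl ℓ)) (B : LLV X.d) extends RatBasis X.E.X B where
  G : ∀ i, GK K →* Matrix (Fin (B.n i)) (Fin (B.n i)) ℚ_[ℓ]
  hG : ∀ i σ, matOf (b i) (X.E.Φ σ i) = (G i σ).map (algebraMap ℚ_[ℓ] (PadicAlgCl ℓ))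

/-- The Hodge-Tate decomposition at the places above `ℓ`. For a maximal ideal `Q` above `ℓ` of the ring
of all algebraic integers `Θ i` is the operator of Sen of the representation `G i` on `H^i` of the
decomposition group of `Q` (over the completion `ℂ_ℓ` of an algebraic closure of `ℚ_ℓ`): minus the
operator which is `p` on the piece `H^(i - p)(X, Ω^p)` of the Hodge-Tate decomposition of `H^i`
(Faltings). The decomposition is compatible with the cup product, hence it is given by an element `J` of
`so(H²)` (Verbitsky), as over the complex numbers. By the theorem of Sen, the Lie algebra of the image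
of the inertia group of `Q` is the smallest subspace over `ℚ_ℓ` whose scalar extension contains `Θ i`;
in particular an endomorphism `a` of `H^i(X, ℚ_ℓ)` which commutes with `Θ i` commutes with an open
subgroup of the inertia group. -/
structure Sen {K : Type} [Field K] [NumberField K] {ℓ : ℕ} [Fact ℓ.Prime] {d : ℕ} {B : LLV d}
    (G : ∀ i, GK K →* Matrix (Fin (B.n i)) (Fin (B.n i)) ℚ_[ℓ])
    (Q : Ideal (𝓞 (AlgebraicClosure K))) where
  J : Matrix (Fin (B.n 2)) (Fin (B.n 2)) ℂ_[ℓ]
  skew : SkewMat (B.q.map (algebraMap ℚ ℂ_[ℓ])) J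
  Θ : ∀ i, Matrix (Fin (B.n i)) (Fin (B.n i)) ℂ_[ℓ]
  hΘ : ∀ i ≤ d, Θ i = -(((i : ℂ_[ℓ]) / 2) • 1 + ext ℂ_[ℓ] (B.ρ i) J)
  sen : ∀ i ≤ d, ∀ a : Matrix (Fin (B.n i)) (Fin (B.n i)) ℚ_[ℓ],
    Commute (a.map (algebraMap ℚ_[ℓ] ℂ_[ℓ])) (Θ i) → Near (inertia Q) fun σ => Commute a (G i σ)

/-- A projective hyperkähler variety over the number field `K` (of any deformation type), with its
`ℓ`-adic cohomology and the crystalline cohomology of its reductions (`X`), the rational cohomology `B`
of `X(ℂ)` with its Hodge structures `W` (for a fixed embedding of the algebraic closure of `K` in the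
field of complex numbers), the comparison `C` of the rational and the `ℓ`-adic cohomology, and the
Hodge-Tate decompositions at the places above `ℓ`. -/
structure HK (K : Type) [Field K] [NumberField K] (ℓ : ℕ) [Fact ℓ.Prime] where
  X : HKVariety K (PadicAlgCl ℓ)
  B : LLV X.d
  W : B.Hodge
  C : Artin X B
  sen : ∀ Q : Ideal (𝓞 (AlgebraicClosure K)), Q.IsMaximal →
    (ℓ : 𝓞 (AlgebraicClosure K)) ∈ Q → Nonempty (Sen C.G Q)

end

end Run7.h457.MT
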