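import Pool.Agent.Run7.h457.MT.Tr2
import Pool.Agent.Run7.h615.MT.P2
import Pool.Agent.Run7.h615.MT.P6

/-!
# Project MT457: limits
-/

set_option autoImplicit false
set_option linter.unusedSectionVars false

namespace Run7.h457.MT

open Matrix NumberField Pool.Agent.N184.HK Pool.Agent.W401.Cheb Filter Topology

noncomputable section

section general

variable {F : Type} [NormedField F] {κ : Type} [Fintype κ] [DecidableEq κ]

/-- The difference quotients. -/
def dq (t : ℕ → F) (M : ℕ → Matrix κ κ F) (n : ℕ) : Matrix κ κ F := (t n)⁻¹ • (M n - 1)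

theorem dq_one {t : ℕ → F} (ht : ∀ n, t n ≠ 0) (h0 : Tendsto t atTop (𝓝 0))
    {M : ℕ → Matrix κ κ F} {L : Matrix κ κ F} (h : Tendsto (dq t M) atTop (𝓝 L)) :
    Tendsto M atTop (𝓝 1) := by
  have h1 : M = fun n => 1 + t n • dq t M n := by
    funext n
    rw [dq, smul_smul, mul_inv_cancel₀ (ht n), one_smul]
    abel
  rw [h1]
  have h2 : Tendsto (fun n => t n • dq t M n) atTop (𝓝 ((0 : F) • L)) := h0.smul h
  rw [zero_smul] at h2
  simpa using tendsto_const_nhds.add h2

theorem inv_lim {M M' : ℕ → Matrix κ κ F} (h : Tendsto M atTop (𝓝 1))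
    (hM : ∀ n, M n * M' n = 1) : Tendsto M' atTop (𝓝 1) := by
  have h1 : M' = fun n => ((M n).det)⁻¹ • (M n).adjugate := by
    funext n
    have h2 : (M n)⁻¹ = M' n := Matrix.inv_eq_right_inv (hM n)
    rw [← h2, Matrix.inv_def, Ring.inverse_eq_inv']
  rw [h1]
  have h2 : Tendsto (fun n => (M n).det) atTop (𝓝 ((1 : Matrix κ κ F).det)) :=
    ((continuous_id.matrix_det).tendsto (1 : Matrix κ κ F)).comp h
  have h3 : Tendsto (fun n => (M n).adjugate) atTop (𝓝 ((1 : Matrix κ κ F).adjugate)) :=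
    ((continuous_id.matrix_adjugate).tendsto (1 : Matrix κ κ F)).comp h
  rw [Matrix.det_one] at h2
  rw [Matrix.adjugate_one] at h3
  have h4 := (h2.inv₀ one_ne_zero).smul h3
  rwa [inv_one, one_smul] at h4

/-- The logarithm of a power. -/
theorem slog_pow {t : ℕ → F} {e : ℕ → ℕ} (ht : ∀ n, t n ≠ 0) (h0 : Tendsto t atTop (𝓝 0)) {x a : F}
    (h : Tendsto (fun n => (t n)⁻¹ * (x ^ e n - 1)) atTop (𝓝 a)) (k : ℕ) :
    Tendsto (fun n => (t n)⁻¹ * ((x ^ k) ^ e n - 1)) atTop (𝓝 (k * a)) := by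
  have hx : Tendsto (fun n => x ^ e n) atTop (𝓝 1) := by
    have h1 : (fun n => x ^ e n) = fun n => 1 + t n * ((t n)⁻¹ * (x ^ e n - 1)) := by
      funext n
      rw [← mul_assoc, mul_inv_cancel₀ (ht n), one_mul]
      ring
    rw [h1]
    have h2 := h0.mul h
    rw [zero_mul] at h2
    simpa using tendsto_const_nhds.add h2
  induction k with
  | zero => simp
  | succ k ih =>
    have hk : Tendsto (fun n => (x ^ k) ^ e n) atTop (𝓝 1) := by
      have h1 : (fun n => (x ^ k) ^ e n) = fun n => (x ^ e n) ^ k := by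
        funext n
        rw [← pow_mul, ← pow_mul, mul_comm]
      rw [h1]
      simpa using hx.pow k
    have h1 : (fun n => (t n)⁻¹ * ((x ^ (k + 1)) ^ e n - 1)) = fun n =>
        (t n)⁻¹ * ((x ^ k) ^ e n - 1) + (x ^ k) ^ e n * ((t n)⁻¹ * (x ^ e n - 1)) := by
      funext n
      rw [pow_succ, mul_pow]
      ring
    rw [h1]
    have h2 := ih.add (hk.mul h)
    rw [one_mul] at h2
    have h3 : ((k + 1 : ℕ) : F) * a = k * a + a := by push_cast; ring
    rw [h3]
    exact h2

end general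

section pow

variable {F : Type} [Field F] {κ : Type} [Fintype κ] [DecidableEq κ]

theorem pow_idem {g z : Matrix κ κ F} (hz : z * z = z) (hc : Commute g z) (m : ℕ) :
    (g * z + (1 - z)) ^ m = g ^ m * z + (1 - z) := by
  induction m with
  | zero => rw [pow_zero, pow_zero, one_mul]; abel
  | succ m ih =>
    have h1 : z * (1 - z) = 0 := by rw [mul_sub, mul_one, hz, sub_self]
    have h2 : (1 - z) * (g * z) = 0 := by
      rw [hc.eq, ← mul_assoc, sub_mul, one_mul, hz, sub_self, zero_mul]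
    have h3 : (1 - z) * (1 - z) = 1 - z := by rw [sub_mul, one_mul, h1, sub_zero]
    rw [pow_succ, ih, mul_add, add_mul, add_mul, h2, h3, mul_assoc (g ^ m) z (1 - z), h1, mul_zero,
      zero_add, add_zero]
    rw [mul_assoc, ← mul_assoc z g z, ← hc.eq, mul_assoc g z z, hz, ← mul_assoc, ← pow_succ]

/-- The relation of `L` with the form. -/
theorem form_pow {q g : Matrix κ κ F} {μ : F} (h : gᵀ * q * g = μ • q) (m : ℕ) :
    (g ^ m)ᵀ * q * g ^ m = μ ^ m • q := by
  induction m with
  | zero => simp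
  | succ m ih =>
    have h1 : (g ^ (m + 1))ᵀ * q * g ^ (m + 1) = gᵀ * ((g ^ m)ᵀ * q * g ^ m) * g := by
      rw [pow_succ, Matrix.transpose_mul]
      simp only [mul_assoc]
    rw [h1, ih, Matrix.mul_smul, Matrix.smul_mul, h, smul_smul, pow_succ]

/-- The trace of an infinitesimal similitude. -/
theorem trace_gso {q L : Matrix κ κ F} {l : F} (hd : q.det ≠ 0)
    (h : Lᵀ * q + q * L = l • q) : 2 * L.trace = l * Fintype.card κ := by
  have hu : IsUnit q.det := isUnit_iff_ne_zero.2 hd
  have h1 : q⁻¹ * (Lᵀ * q + q * L) = l • 1 := by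
    rw [h, Matrix.mul_smul, Matrix.nonsing_inv_mul q hu]
  have h2 := congrArg Matrix.trace h1
  rw [mul_add, Matrix.trace_add, ← mul_assoc, ← mul_assoc, Matrix.nonsing_inv_mul q hu, one_mul,
    Matrix.trace_mul_comm, ← mul_assoc, Matrix.mul_nonsing_inv q hu, one_mul,
    Matrix.trace_transpose, Matrix.trace_smul, Matrix.trace_one, smul_eq_mul] at h2
  rw [← h2]
  ring

end pow

end

end Run7.h457.MT
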