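import Pool.Agent.Run7.h457.MT.Ml1

/-!
# Project MT457: the logarithms of the Galois group
-/

set_option autoImplicit false
set_option linter.unusedSectionVars false

namespace Run7.h457.MT

open Matrix NumberField Pool.Agent.N184.HK Pool.Agent.W401.Cheb Filter Topology

noncomputable section

variable {K : Type} [Field K] [NumberField K] {ℓ : ℕ} [Fact ℓ.Prime]
  {X : HKVariety K (PadicAlgCl ℓ)} {B : LLV X.d} (C : Comparison X B)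

/-- The matrix of `σ` over the algebraic closure. -/
def Gm (i : ℕ) (σ : GK K) : Matrix (Fin (B.n i)) (Fin (B.n i)) (PadicAlgCl ℓ) :=
  (C.G i σ).map (algebraMap ℚ_[ℓ] (PadicAlgCl ℓ))

theorem Gm_mul (i : ℕ) (σ τ : GK K) : Gm C i (σ * τ) = Gm C i σ * Gm C i τ := by
  unfold Gm
  rw [map_mul, Matrix.map_mul]

theorem Gm_one (i : ℕ) : Gm C i 1 = 1 := by
  unfold Gm
  rw [map_one, Matrix.map_one _ (map_zero _) (map_one _)]

theorem Gm_pow (i : ℕ) (σ : GK K) (m : ℕ) : Gm C i (σ ^ m) = Gm C i σ ^ m := by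
  induction m with
  | zero => rw [pow_zero, pow_zero, Gm_one]
  | succ m ih => rw [pow_succ, Gm_mul, ih, pow_succ]

theorem Gm_eq (i : ℕ) (σ : GK K) : Gm C i σ = LinearMap.toMatrix (C.b i) (C.b i) (X.E.Φ σ i) :=
  (C.hG i σ).symm

/-- The matrix of `ρ i A`. -/
def rM (i : ℕ) (A : Matrix (Fin (B.n 2)) (Fin (B.n 2)) (PadicAlgCl ℓ)) :
    Matrix (Fin (B.n i)) (Fin (B.n i)) (PadicAlgCl ℓ) :=
  LinearMap.toMatrix (C.b i) (C.b i) (X.E.X.ρ i (Matrix.toLin (C.b 2) (C.b 2) A))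

theorem rM_sub (i : ℕ) (A A' : Matrix (Fin (B.n 2)) (Fin (B.n 2)) (PadicAlgCl ℓ)) :
    rM C i (A - A') = rM C i A - rM C i A' := by
  unfold rM
  simp only [map_sub]

theorem rM_smul (i : ℕ) (c : PadicAlgCl ℓ)
    (A : Matrix (Fin (B.n 2)) (Fin (B.n 2)) (PadicAlgCl ℓ)) :
    rM C i (c • A) = c • rM C i A := by
  unfold rM
  simp only [map_smul]

theorem rM_cont (i : ℕ) : Continuous (rM C i) := by
  have h1 : rM C i = fun A => ∑ j, ∑ k, A j k • rM C i (Matrix.single j k 1) := by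
    funext A
    conv_lhs => rw [Matrix.matrix_eq_sum_single A]
    unfold rM
    simp only [map_sum]
    refine Finset.sum_congr rfl fun j _ => Finset.sum_congr rfl fun k _ => ?_
    rw [← map_smul, ← map_smul, ← map_smul, Matrix.smul_single, smul_eq_mul, mul_one]
  rw [h1]
  refine continuous_finsetSum _ fun j _ => continuous_finsetSum _ fun k _ => ?_
  exact (continuous_id.matrix_elem j k).smul continuous_const

/-- Equivariance. -/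
theorem equi_mat (i : ℕ) (σ : GK K) (A : Matrix (Fin (B.n 2)) (Fin (B.n 2)) (PadicAlgCl ℓ)) :
    Gm C i σ * rM C i A = rM C i (Gm C 2 σ * A * Gm C 2 σ⁻¹) * Gm C i σ := by
  have h1 := (X.E.F σ).equi i (Matrix.toLin (C.b 2) (C.b 2) A)
  have h2 := congrArg (LinearMap.toMatrix (C.b i) (C.b i)) h1
  have h3 : ((X.E.F σ).φ i).toLinearMap = X.E.Φ σ i := rfl
  have h4 : ((X.E.F σ).φ 2).toLinearMap ∘ₗ Matrix.toLin (C.b 2) (C.b 2) A ∘ₗ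
      ((X.E.F σ).φ 2).symm.toLinearMap = Matrix.toLin (C.b 2) (C.b 2)
        (Gm C 2 σ * A * Gm C 2 σ⁻¹) := by
    refine toM_inj C ?_
    rw [LinearMap.toMatrix_toLin, Gm_eq, Gm_eq]
    have h5 : ((X.E.F σ).φ 2).symm.toLinearMap = X.E.Φ σ⁻¹ 2 := by
      unfold GaloisCohomology.Φ
      rw [phi_inv]
    rw [h5, LinearMap.toMatrix_comp (C.b 2) (C.b 2) (C.b 2),
      LinearMap.toMatrix_comp (C.b 2) (C.b 2) (C.b 2), LinearMap.toMatrix_toLin, mul_assoc]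
    rfl
  rw [h3, h4, LinearMap.toMatrix_comp (C.b i) (C.b i) (C.b i),
    LinearMap.toMatrix_comp (C.b i) (C.b i) (C.b i)] at h2
  unfold rM
  rw [Gm_eq]
  exact h2

/-- The form is multiplied by `μ`. -/
theorem form_mat (σ : GK K) : (Gm C 2 σ)ᵀ * B.q.map (algebraMap ℚ (PadicAlgCl ℓ)) * Gm C 2 σ =
    X.E.mu σ • B.q.map (algebraMap ℚ (PadicAlgCl ℓ)) := by
  rw [← toM_q C, Gm_eq, ← LinearMap.BilinForm.toMatrix_comp (C.b 2) (C.b 2), ← map_smul]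
  congr 1
  refine LinearMap.ext fun x => LinearMap.ext fun y => ?_
  exact (X.E.F σ).similar x y

theorem q_ne : ∃ j k, B.q.map (algebraMap ℚ (PadicAlgCl ℓ)) j k ≠ 0 := by
  by_contra hcon
  push Not at hcon
  refine B.nondeg ?_
  have h1 : B.q = 0 := by
    ext j k
    have h2 := hcon j k
    rw [Matrix.map_apply] at h2
    exact (map_eq_zero _).1 h2
  rw [h1]
  have : Nonempty (Fin (B.n 2)) := ⟨⟨0, by have := B.dim; omega⟩⟩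
  exact Matrix.det_zero

include C in
theorem mu_pow (σ : GK K) (m : ℕ) : X.E.mu (σ ^ m) = X.E.mu σ ^ m := by
  obtain ⟨j, k, hjk⟩ := q_ne (ℓ := ℓ) (B := B)
  have h1 := form_mat C (σ ^ m)
  have h2 := form_pow (form_mat C σ) m
  rw [Gm_pow, h2] at h1
  have h3 := congrFun (congrFun h1 j) k
  rw [Matrix.smul_apply, Matrix.smul_apply, smul_eq_mul, smul_eq_mul] at h3
  exact (mul_right_cancel₀ hjk h3).symm

section log

variable {C} {σ : GK K} {L : ∀ i, Matrix (Fin (B.n i)) (Fin (B.n i)) ℚ_[ℓ]}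

/-- The powers of `ℓ`. -/
def tt (ℓ : ℕ) [Fact ℓ.Prime] (n : ℕ) : PadicAlgCl ℓ := (ℓ : PadicAlgCl ℓ) ^ n

theorem tt_ne (n : ℕ) : tt ℓ n ≠ 0 :=
  pow_ne_zero _ (Nat.cast_ne_zero.2 (Fact.out : ℓ.Prime).ne_zero)

theorem tt_eq (n : ℕ) : tt ℓ n = algebraMap ℚ_[ℓ] (PadicAlgCl ℓ) ((ℓ : ℚ_[ℓ]) ^ n) := by
  unfold tt
  rw [map_pow, map_natCast]

theorem cont_algMap : Continuous (algebraMap ℚ_[ℓ] (PadicAlgCl ℓ)) :=
  (AddMonoidHomClass.isometry_of_norm _ fun x => PadicAlgCl.norm_extends ℓ x :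
    Isometry (algebraMap ℚ_[ℓ] (PadicAlgCl ℓ))).continuous

theorem tt_lim : Tendsto (tt ℓ) atTop (𝓝 0) := by
  have h1 : tt ℓ = fun n => algebraMap ℚ_[ℓ] (PadicAlgCl ℓ) ((ℓ : ℚ_[ℓ]) ^ n) := by
    funext n
    exact tt_eq n
  rw [h1]
  have h2 : Tendsto (fun n => (ℓ : ℚ_[ℓ]) ^ n) atTop (𝓝 0) :=
    tendsto_pow_atTop_nhds_zero_of_norm_lt_one Padic.norm_p_lt_one
  have h3 := (cont_algMap (ℓ := ℓ)).continuousAt.tendsto.comp h2
  rwa [map_zero] at h3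

theorem log_lim {i : ℕ} {Li : Matrix (Fin (B.n i)) (Fin (B.n i)) ℚ_[ℓ]}
    (h : IsLog (C.G i σ) Li) : Tendsto (dq (tt ℓ) fun n => Gm C i σ ^ ℓ ^ n) atTop
      (𝓝 (Li.map (algebraMap ℚ_[ℓ] (PadicAlgCl ℓ)))) := by
  have h1 : Continuous fun A : Matrix (Fin (B.n i)) (Fin (B.n i)) ℚ_[ℓ] =>
      A.map (algebraMap ℚ_[ℓ] (PadicAlgCl ℓ)) := continuous_id.matrix_map cont_algMap
  have h2 := (h1.tendsto Li).comp h
  refine h2.congr fun n => ?_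
  change (((ℓ : ℚ_[ℓ]) ^ n)⁻¹ • (C.G i σ ^ ℓ ^ n - 1)).map (algebraMap ℚ_[ℓ] (PadicAlgCl ℓ)) = _
  unfold dq
  beta_reduce
  rw [tt_eq, ← Gm_pow]
  unfold Gm
  rw [map_pow (C.G i)]
  ext a b
  have hone : algebraMap ℚ_[ℓ] (PadicAlgCl ℓ) ((1 : Matrix (Fin (B.n i)) (Fin (B.n i)) ℚ_[ℓ]) a b) =
      (1 : Matrix (Fin (B.n i)) (Fin (B.n i)) (PadicAlgCl ℓ)) a b := by
    rw [Matrix.one_apply, Matrix.one_apply]
    split_ifs <;> simp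
  simp only [Matrix.map_apply, Matrix.smul_apply, Matrix.sub_apply, smul_eq_mul, map_mul, map_sub,
    map_inv₀, hone]

/-- The bracket relation: `[log σ, ρ A] = ρ [log σ, A]`. -/
theorem bracket_log {i : ℕ} {Li : Matrix (Fin (B.n i)) (Fin (B.n i)) ℚ_[ℓ]}
    {L2 : Matrix (Fin (B.n 2)) (Fin (B.n 2)) ℚ_[ℓ]}
    (h : IsLog (C.G i σ) Li) (h2 : IsLog (C.G 2 σ) L2)
    (A : Matrix (Fin (B.n 2)) (Fin (B.n 2)) (PadicAlgCl ℓ)) :
    Li.map (algebraMap ℚ_[ℓ] (PadicAlgCl ℓ)) * rM C i A -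
      rM C i A * Li.map (algebraMap ℚ_[ℓ] (PadicAlgCl ℓ)) =
    rM C i (L2.map (algebraMap ℚ_[ℓ] (PadicAlgCl ℓ)) * A -
      A * L2.map (algebraMap ℚ_[ℓ] (PadicAlgCl ℓ))) := by
  have hi := log_lim h
  have hj := log_lim h2
  have h1 := dq_one tt_ne tt_lim hi
  have h3 := dq_one tt_ne tt_lim hj
  have h4 : Tendsto (fun n => Gm C 2 (σ ^ ℓ ^ n)⁻¹) atTop (𝓝 1) := by
    refine inv_lim h3 fun n => ?_
    rw [← Gm_pow, ← Gm_mul, mul_inv_cancel, Gm_one]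
  have h5 : ∀ n, dq (tt ℓ) (fun n => Gm C i σ ^ ℓ ^ n) n * rM C i A -
      rM C i A * dq (tt ℓ) (fun n => Gm C i σ ^ ℓ ^ n) n =
      rM C i ((dq (tt ℓ) (fun n => Gm C 2 σ ^ ℓ ^ n) n * A -
        A * dq (tt ℓ) (fun n => Gm C 2 σ ^ ℓ ^ n) n) * Gm C 2 (σ ^ ℓ ^ n)⁻¹) *
        Gm C i σ ^ ℓ ^ n := by
    intro n
    have h6 := equi_mat C i (σ ^ ℓ ^ n) A
    have h7 : Gm C 2 (σ ^ ℓ ^ n) * Gm C 2 (σ ^ ℓ ^ n)⁻¹ = 1 := by
      rw [← Gm_mul, mul_inv_cancel, Gm_one]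
    have h8 : (dq (tt ℓ) (fun n => Gm C 2 σ ^ ℓ ^ n) n * A -
        A * dq (tt ℓ) (fun n => Gm C 2 σ ^ ℓ ^ n) n) * Gm C 2 (σ ^ ℓ ^ n)⁻¹ =
        (tt ℓ n)⁻¹ • (Gm C 2 (σ ^ ℓ ^ n) * A * Gm C 2 (σ ^ ℓ ^ n)⁻¹ - A) := by
      unfold dq
      beta_reduce
      rw [← Gm_pow, smul_mul_assoc, mul_smul_comm, ← smul_sub, smul_mul_assoc]
      congr 1
      calc _ = Gm C 2 (σ ^ ℓ ^ n) * A * Gm C 2 (σ ^ ℓ ^ n)⁻¹ -
            A * (Gm C 2 (σ ^ ℓ ^ n) * Gm C 2 (σ ^ ℓ ^ n)⁻¹) := by noncomm_ring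
        _ = _ := by rw [h7, mul_one]
    rw [h8, rM_smul, rM_sub, smul_mul_assoc, sub_mul, ← Gm_pow, ← h6]
    unfold dq
    beta_reduce
    rw [smul_mul_assoc, mul_smul_comm, ← smul_sub, ← Gm_pow]
    congr 1
    rw [sub_mul, mul_sub, one_mul, mul_one]
    abel
  have h9 : Tendsto (fun n => dq (tt ℓ) (fun n => Gm C i σ ^ ℓ ^ n) n * rM C i A -
      rM C i A * dq (tt ℓ) (fun n => Gm C i σ ^ ℓ ^ n) n) atTop
      (𝓝 (Li.map (algebraMap ℚ_[ℓ] (PadicAlgCl ℓ)) * rM C i A -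
      rM C i A * Li.map (algebraMap ℚ_[ℓ] (PadicAlgCl ℓ)))) :=
    (hi.mul tendsto_const_nhds).sub (tendsto_const_nhds.mul hi)
  have h10 : Tendsto (fun n => (dq (tt ℓ) (fun n => Gm C 2 σ ^ ℓ ^ n) n * A -
        A * dq (tt ℓ) (fun n => Gm C 2 σ ^ ℓ ^ n) n) * Gm C 2 (σ ^ ℓ ^ n)⁻¹) atTop
      (𝓝 ((L2.map (algebraMap ℚ_[ℓ] (PadicAlgCl ℓ)) * A -
        A * L2.map (algebraMap ℚ_[ℓ] (PadicAlgCl ℓ))) * 1)) :=
    ((hj.mul tendsto_const_nhds).sub (tendsto_const_nhds.mul hj)).mul h4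
  rw [mul_one] at h10
  have h11 := (((rM_cont C i).tendsto _).comp h10).mul h1
  rw [mul_one] at h11
  refine tendsto_nhds_unique h9 (h11.congr fun n => ?_)
  exact (h5 n).symm

/-- The relation with the form. -/
theorem form_log {L2 : Matrix (Fin (B.n 2)) (Fin (B.n 2)) ℚ_[ℓ]}
    (h2 : IsLog (C.G 2 σ) L2) : ∃ l : PadicAlgCl ℓ,
    Tendsto (fun n => (tt ℓ n)⁻¹ * (X.E.mu σ ^ ℓ ^ n - 1)) atTop (𝓝 l) ∧
    (L2.map (algebraMap ℚ_[ℓ] (PadicAlgCl ℓ)))ᵀ * B.q.map (algebraMap ℚ (PadicAlgCl ℓ)) +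
      B.q.map (algebraMap ℚ (PadicAlgCl ℓ)) * L2.map (algebraMap ℚ_[ℓ] (PadicAlgCl ℓ)) =
      l • B.q.map (algebraMap ℚ (PadicAlgCl ℓ)) := by
  set q := B.q.map (algebraMap ℚ (PadicAlgCl ℓ)) with hq
  obtain ⟨j, k, hjk⟩ := q_ne (ℓ := ℓ) (B := B)
  have hj := log_lim h2
  have h3 := dq_one tt_ne tt_lim hj
  have h5 : ∀ n, ((tt ℓ n)⁻¹ * (X.E.mu σ ^ ℓ ^ n - 1)) • q =
      (dq (tt ℓ) (fun n => Gm C 2 σ ^ ℓ ^ n) n)ᵀ * q * Gm C 2 σ ^ ℓ ^ n +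
        q * dq (tt ℓ) (fun n => Gm C 2 σ ^ ℓ ^ n) n := by
    intro n
    have h6 := form_pow (form_mat C σ) (ℓ ^ n)
    unfold dq
    beta_reduce
    rw [mul_smul, sub_smul, ← h6, one_smul, Matrix.transpose_smul, Matrix.smul_mul,
      Matrix.smul_mul, Matrix.mul_smul, ← smul_add, Matrix.transpose_sub, Matrix.transpose_one]
    congr 1
    rw [sub_mul, sub_mul, one_mul, mul_sub, mul_one]
    abel
  have h6 : Tendsto (fun n => ((tt ℓ n)⁻¹ * (X.E.mu σ ^ ℓ ^ n - 1)) • q) atTop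
      (𝓝 ((L2.map (algebraMap ℚ_[ℓ] (PadicAlgCl ℓ)))ᵀ * q * 1 +
        q * L2.map (algebraMap ℚ_[ℓ] (PadicAlgCl ℓ)))) := by
    have h7 : Tendsto (fun n => (dq (tt ℓ) (fun n => Gm C 2 σ ^ ℓ ^ n) n)ᵀ) atTop
        (𝓝 (L2.map (algebraMap ℚ_[ℓ] (PadicAlgCl ℓ)))ᵀ) :=
      (continuous_id.matrix_transpose.tendsto _).comp hj
    refine (((h7.mul tendsto_const_nhds).mul h3).add (tendsto_const_nhds.mul hj)).congr
      fun n => ?_
    exact (h5 n).symm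
  rw [mul_one] at h6
  set R := (L2.map (algebraMap ℚ_[ℓ] (PadicAlgCl ℓ)))ᵀ * q +
        q * L2.map (algebraMap ℚ_[ℓ] (PadicAlgCl ℓ)) with hR
  have h7 : Tendsto (fun n => (tt ℓ n)⁻¹ * (X.E.mu σ ^ ℓ ^ n - 1)) atTop (𝓝 (R j k / q j k)) := by
    have h8 := ((continuous_id.matrix_elem j k).tendsto R).comp h6
    have h9 := h8.div_const (q j k)
    refine h9.congr fun n => ?_
    change (((tt ℓ n)⁻¹ * (X.E.mu σ ^ ℓ ^ n - 1)) • q) j k / q j k = _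
    rw [Matrix.smul_apply, smul_eq_mul, mul_div_assoc, div_self hjk, mul_one]
  refine ⟨R j k / q j k, h7, ?_⟩
  exact tendsto_nhds_unique h6 (h7.smul tendsto_const_nhds)

end log

end

end Run7.h457.MT
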