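import Pool.Agent.Run7.h457.MT.Ml2

/-!
# Project MT457: the logarithm on `H^i` is determined by the logarithm on `H²`
-/

set_option autoImplicit false
set_option linter.unusedSectionVars false

namespace Run7.h457.MT

open Matrix NumberField Pool.Agent.N184.HK Pool.Agent.W401.Cheb Filter Topology

noncomputable section

variable {K : Type} [Field K] [NumberField K] {ℓ : ℕ} [Fact ℓ.Prime]
  {X : HKVariety K (PadicAlgCl ℓ)} {B : LLV X.d} (C : Comparison X B)

/-- The determinants on the images of the idempotents of the commutant. -/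
theorem det_all {U : Subgroup (GK K)} (hU : IsOpen (U : Set (GK K))) {i : ℕ} (hi : i ≤ X.d)
    (hc : ∀ σ ∈ U, ∀ c ∈ cen X.E.X i, Commute c (X.E.Φ σ i))
    {z : Module.End (PadicAlgCl ℓ) (X.E.X.H i)} (hz : z ∈ cen X.E.X i) (hzz : z * z = z) {n : ℕ}
    (hn : LinearMap.trace (PadicAlgCl ℓ) _ z = n) : ∀ σ ∈ U,
    LinearMap.det (X.E.Φ σ i * z + (1 - z)) ^ (4 * expo2 X i n) =
      X.E.mu σ ^ (i * n * expo2 X i n) := by
  have hcts : Cts fun σ => en ((X.E.F σ).φ i) * z + (1 - z) := by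
    intro M
    have h1 := (t_cts (PadicAlgCl ℓ) (X.E.X.H i) (GK K) _ (fun _ => z) (X.E.cont i)
      (fun M => continuous_const)).1 M
    simp only [map_add]
    exact h1.add continuous_const
  have hg : Continuous fun σ => LinearMap.det (en ((X.E.F σ).φ i) * z + (1 - z)) ^
      (4 * expo2 X i n) - (X.E.F σ).μ ^ (i * n * expo2 X i n) :=
    ((t_cts (PadicAlgCl ℓ) (X.E.X.H i) (GK K) _ _ hcts hcts).2.pow _).sub (X.E.cont_μ.pow _)
  intro σ hσ
  exact sub_eq_zero.1 (dense_zero X hU hg (fun v hv hp τ hτ hfr =>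
    sub_eq_zero.2 (good_det X hv hp hfr hi hz hzz (hc τ hτ z hz).symm hn)) σ hσ)

/-- The trace of the logarithm on the image of an idempotent. -/
theorem trace_log {U : Subgroup (GK K)} (hU : IsOpen (U : Set (GK K))) {i : ℕ} (hi : i ≤ X.d)
    (hc : ∀ σ ∈ U, ∀ c ∈ cen X.E.X i, Commute c (X.E.Φ σ i))
    {z : Module.End (PadicAlgCl ℓ) (X.E.X.H i)} (hz : z ∈ cen X.E.X i) (hzz : z * z = z) {n : ℕ}
    (hn : LinearMap.trace (PadicAlgCl ℓ) _ z = n) {σ : GK K} (hσ : σ ∈ U)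
    {Li : Matrix (Fin (B.n i)) (Fin (B.n i)) ℚ_[ℓ]} (h : IsLog (C.G i σ) Li)
    {l : PadicAlgCl ℓ} (hl : Tendsto (fun n => (tt ℓ n)⁻¹ * (X.E.mu σ ^ ℓ ^ n - 1)) atTop (𝓝 l)) :
    (Li.map (algebraMap ℚ_[ℓ] (PadicAlgCl ℓ)) * LinearMap.toMatrix (C.b i) (C.b i) z).trace =
      (i : PadicAlgCl ℓ) / 4 * n * l := by
  set Z := LinearMap.toMatrix (C.b i) (C.b i) z with hZ
  have hZZ : Z * Z = Z := by rw [hZ, ← LinearMap.toMatrix_mul, hzz]
  have hcZ : Commute (Gm C i σ) Z := by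
    rw [Gm_eq, hZ]
    exact (commute_iff C _ _).1 (hc σ hσ z hz).symm
  set δ := (Gm C i σ * Z + (1 - Z)).det with hδ
  have h1 : δ ^ (4 * expo2 X i n) = X.E.mu σ ^ (i * n * expo2 X i n) := by
    have h2 := det_all hU hi hc hz hzz hn σ hσ
    rw [← LinearMap.det_toMatrix (C.b i), map_add, map_sub, LinearMap.toMatrix_mul,
      LinearMap.toMatrix_one, ← Gm_eq] at h2
    exact h2
  have h2 : Tendsto (fun m => (tt ℓ m)⁻¹ * (δ ^ ℓ ^ m - 1)) atTop
      (𝓝 (Li.map (algebraMap ℚ_[ℓ] (PadicAlgCl ℓ)) * Z).trace) := by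
    have h3 := Run7.h615.MT.t_DETLIM (PadicAlgCl ℓ) (Fin (B.n i)) (tt ℓ)
      (fun m => Gm C i σ ^ ℓ ^ m * Z + (1 - Z))
      (Li.map (algebraMap ℚ_[ℓ] (PadicAlgCl ℓ)) * Z) tt_ne tt_lim (by
        have h4 := (log_lim h).mul (tendsto_const_nhds (x := Z))
        refine h4.congr fun m => ?_
        unfold dq
        beta_reduce
        rw [smul_mul_assoc]
        congr 1
        rw [sub_mul, one_mul]
        abel)
    refine h3.congr fun m => ?_
    rw [hδ, ← Matrix.det_pow, pow_idem hZZ hcZ]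
  have h3 := slog_pow tt_ne tt_lim h2 (4 * expo2 X i n)
  have h4 := slog_pow tt_ne tt_lim hl (i * n * expo2 X i n)
  rw [h1] at h3
  have h5 := tendsto_nhds_unique h3 h4
  have h6 : ((expo2 X i n : ℕ) : PadicAlgCl ℓ) ≠ 0 := Nat.cast_ne_zero.2 (expo2_pos X i n).ne'
  push_cast at h5
  have h7 : (4 : PadicAlgCl ℓ) * (Li.map (algebraMap ℚ_[ℓ] (PadicAlgCl ℓ)) * Z).trace =
      i * n * l := by
    refine mul_left_cancel₀ h6 ?_
    linear_combination h5
  have h8 : (4 : PadicAlgCl ℓ) ≠ 0 := by norm_num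
  field_simp
  linear_combination h7

/-- **The logarithm of `σ` on `H^i` is determined by the logarithm on `H²`** (over the algebraic
closure). -/
theorem log_eq {U : Subgroup (GK K)} (hU : IsOpen (U : Set (GK K))) {i : ℕ} (hi : i ≤ X.d)
    (hc : ∀ σ ∈ U, ∀ c ∈ cen X.E.X i, Commute c (X.E.Φ σ i)) {σ : GK K} (hσ : σ ∈ U)
    {Li : Matrix (Fin (B.n i)) (Fin (B.n i)) ℚ_[ℓ]} (h : IsLog (C.G i σ) Li)
    {L2 : Matrix (Fin (B.n 2)) (Fin (B.n 2)) ℚ_[ℓ]} (h2 : IsLog (C.G 2 σ) L2)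
    {l : PadicAlgCl ℓ} (hl : Tendsto (fun n => (tt ℓ n)⁻¹ * (X.E.mu σ ^ ℓ ^ n - 1)) atTop (𝓝 l))
    (hL : (L2.map (algebraMap ℚ_[ℓ] (PadicAlgCl ℓ)))ᵀ * B.q.map (algebraMap ℚ (PadicAlgCl ℓ)) +
      B.q.map (algebraMap ℚ (PadicAlgCl ℓ)) * L2.map (algebraMap ℚ_[ℓ] (PadicAlgCl ℓ)) =
      l • B.q.map (algebraMap ℚ (PadicAlgCl ℓ))) :
    Li.map (algebraMap ℚ_[ℓ] (PadicAlgCl ℓ)) = ((i : PadicAlgCl ℓ) / 4 * l) • 1 +
      ext (PadicAlgCl ℓ) (B.ρ i) (L2.map (algebraMap ℚ_[ℓ] (PadicAlgCl ℓ)) - (l / 2) • 1) := by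
  set Lm := Li.map (algebraMap ℚ_[ℓ] (PadicAlgCl ℓ)) with hLm
  set A := L2.map (algebraMap ℚ_[ℓ] (PadicAlgCl ℓ)) - (l / 2) • 1 with hA
  have hAs : SkewMat (B.q.map (algebraMap ℚ (PadicAlgCl ℓ))) A := by
    unfold SkewMat
    rw [hA, Matrix.transpose_sub, Matrix.transpose_smul, Matrix.transpose_one, sub_mul, mul_sub,
      Matrix.smul_mul, Matrix.mul_smul, one_mul, mul_one]
    have h3 : ∀ P Q R : Matrix (Fin (B.n 2)) (Fin (B.n 2)) (PadicAlgCl ℓ),
        P - R + (Q - R) = (P + Q) - (R + R) := fun P Q R => by abel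
    rw [h3, hL, ← add_smul, add_halves, sub_self]
  set Ae := Matrix.toLin (C.b 2) (C.b 2) A with hAe
  have hAes : Skew X.E.X.q Ae := by
    rw [skew_iff C, hAe, LinearMap.toMatrix_toLin]
    exact hAs
  have hrho : LinearMap.toMatrix (C.b i) (C.b i) (X.E.X.ρ i Ae) =
      ext (PadicAlgCl ℓ) (B.ρ i) A := by
    rw [rho_mat C i Ae hAes, hAe, LinearMap.toMatrix_toLin]
  -- the operator `T`
  set T : Module.End (PadicAlgCl ℓ) (X.E.X.H i) := Matrix.toLin (C.b i) (C.b i) Lm -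
    ((i : PadicAlgCl ℓ) / 4 * l) • 1 - X.E.X.ρ i Ae with hT
  have hT0 : T = 0 := by
    refine Run7.h615.MT.t_NILZ (PadicAlgCl ℓ) (X.E.X.H 2) (X.E.X.H i) X.E.X.q X.E.X.symm
      X.E.X.nondeg X.E.X.dim3 (X.E.X.ρ i) (X.E.X.bracket i) T ?_ ?_ ?_
    · intro Be hBe
      set Bm := LinearMap.toMatrix (C.b 2) (C.b 2) Be with hBm
      have h3 := bracket_log h h2 Bm
      have h4 : rM C i Bm = LinearMap.toMatrix (C.b i) (C.b i) (X.E.X.ρ i Be) := by
        unfold rM
        rw [hBm, Matrix.toLin_toMatrix]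
      have h5 : Matrix.toLin (C.b i) (C.b i) Lm * X.E.X.ρ i Be -
          X.E.X.ρ i Be * Matrix.toLin (C.b i) (C.b i) Lm =
          X.E.X.ρ i (Ae * Be - Be * Ae) := by
        refine toM_inj C ?_
        rw [map_sub, LinearMap.toMatrix_mul, LinearMap.toMatrix_mul, LinearMap.toMatrix_toLin,
          ← h4, h3]
        unfold rM
        congr 3
        have h6 : L2.map (algebraMap ℚ_[ℓ] (PadicAlgCl ℓ)) * Bm -
            Bm * L2.map (algebraMap ℚ_[ℓ] (PadicAlgCl ℓ)) = A * Bm - Bm * A := by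
          rw [hA, sub_mul, mul_sub, Matrix.smul_mul, Matrix.mul_smul, one_mul, mul_one]
          abel
        rw [h6]
        refine toM_inj C ?_
        rw [LinearMap.toMatrix_toLin, map_sub, LinearMap.toMatrix_mul, LinearMap.toMatrix_mul,
          hAe, LinearMap.toMatrix_toLin]
      have h6 := X.E.X.bracket i Ae Be hAes hBe
      rw [h6] at h5
      change _ * _ = _ * _
      rw [hT, mul_sub, mul_sub, sub_mul, sub_mul, mul_smul_comm, smul_mul_assoc, mul_one, one_mul]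
      have h7 : Matrix.toLin (C.b i) (C.b i) Lm * X.E.X.ρ i Be =
          X.E.X.ρ i Be * Matrix.toLin (C.b i) (C.b i) Lm +
            (X.E.X.ρ i Ae * X.E.X.ρ i Be - X.E.X.ρ i Be * X.E.X.ρ i Ae) := by
        rw [← h5]; abel
      rw [h7]
      abel
    · intro c hcc
      have h3 := hc σ hσ c hcc
      have h4 : Commute (LinearMap.toMatrix (C.b i) (C.b i) c) Lm := by
        have h5 := (commute_iff C _ _).1 h3
        rw [← Gm_eq] at h5
        have h6 := log_lim h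
        have h7 := (tendsto_const_nhds (x := LinearMap.toMatrix (C.b i) (C.b i) c)).mul h6
        have h8 := h6.mul (tendsto_const_nhds (x := LinearMap.toMatrix (C.b i) (C.b i) c))
        refine tendsto_nhds_unique h7 (h8.congr fun m => ?_)
        unfold dq
        beta_reduce
        rw [smul_mul_assoc, mul_smul_comm]
        congr 1
        exact ((h5.pow_right _).sub_right (Commute.one_right _)).eq.symm
      have h5 : Commute c (Matrix.toLin (C.b i) (C.b i) Lm) := by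
        rw [commute_iff C, LinearMap.toMatrix_toLin]
        exact h4
      exact (h5.sub_right ((Commute.one_right _).smul_right _)).sub_right (hcc Ae hAes).symm
    · intro z hzz hz
      have hz' : z ∈ cen X.E.X i := hz
      obtain ⟨n, hn⟩ : ∃ n : ℕ, LinearMap.trace (PadicAlgCl ℓ) _ z = n := by
        refine ⟨Module.finrank (PadicAlgCl ℓ) (LinearMap.range z), ?_⟩
        have hp : LinearMap.IsProj (LinearMap.range z) z := by
          refine ⟨fun x => LinearMap.mem_range_self z x, ?_⟩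
          rintro _ ⟨x, rfl⟩
          exact congrArg (fun f : Module.End (PadicAlgCl ℓ) (X.E.X.H i) => f x) hzz
        exact hp.trace
      have h3 := trace_log C hU hi hc hz' hzz hn hσ h hl
      have h4 : LinearMap.trace (PadicAlgCl ℓ) (X.E.X.H i) (X.E.X.ρ i Ae * z) = 0 :=
        tr_rho_mul hAes hz
      have h5 : LinearMap.trace (PadicAlgCl ℓ) (X.E.X.H i)
          (Matrix.toLin (C.b i) (C.b i) Lm * z) = (i : PadicAlgCl ℓ) / 4 * n * l := by
        rw [← h3, LinearMap.trace_eq_matrix_trace (PadicAlgCl ℓ) (C.b i), LinearMap.toMatrix_mul,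
          LinearMap.toMatrix_toLin]
      rw [hT, sub_mul, sub_mul, map_sub, map_sub, h4, h5, sub_zero, smul_mul_assoc, one_mul,
        map_smul, hn, smul_eq_mul]
      ring
  have h3 := congrArg (LinearMap.toMatrix (C.b i) (C.b i)) hT0
  rw [hT, map_sub, map_sub, map_smul, LinearMap.toMatrix_toLin, hrho, LinearMap.toMatrix_one,
    map_zero] at h3
  rw [sub_sub] at h3
  exact sub_eq_zero.1 h3

end

end Run7.h457.MT
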