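import Pool.Agent.Run7.h457.MT.Defs

/-!
# Project MT457: algebraic groups over `ℚ` which contain the Mumford-Tate group: definition
-/

set_option autoImplicit false

namespace Run7.h457.MT

/-- `g` is a point over the field `R` of the algebraic group over `ℚ` with the complex points `G`:
the rational polynomials which vanish on `G` vanish at `g`. -/
def InQGroup {κ : Type} [Fintype κ] [DecidableEq κ] {R : Type} [Field R] [Algebra ℚ R]
    (G : Set (Matrix κ κ ℂ)) (g : Matrix κ κ R) : Prop :=
  ∀ f : MvPolynomial (κ × κ) ℚ, (∀ m ∈ G, value m f = 0) → value g f = 0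

end Run7.h457.MT
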