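import Pool.Agent.Run7.h457.MT.Fam

/-!
# Project MT457: hyperkähler motives together with a further motive: definitions
-/

set_option autoImplicit false

namespace Run7.h457.MT

open Matrix Pool.Agent.W401.Cheb

noncomputable section

section obj

variable {ℓ : ℕ} [Fact ℓ.Prime] {Γ : Type} [Group Γ]

/-- The Mumford-Tate conjecture for `M`, in the form of Lie algebras: the action of the group `ℂ^×` is
given by a decomposition of `ℂ^κ` (with the projections `e c`) into pieces of types `(a c, b c)`, the
Galois group acts continuously (by matrices near `1` on subgroups of finite index), and the Lie algebra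
of the image of the Galois group is the `ℚ_ℓ`-span of the Lie algebra of the Mumford-Tate group. -/
def Obj.MumfordTateLie (M : Obj ℓ Γ) : Prop :=
  (∀ N : ℕ, ∃ Δ : Subgroup Γ, Δ.FiniteIndex ∧ ∀ σ ∈ Δ, NearOne N (M.ρ σ)) ∧
  ∃ (C : Type) (_ : Fintype C) (_ : DecidableEq C) (a b : C → ℤ) (e : C → Matrix M.κ M.κ ℂ),
    (∀ c c', e c * e c' = if c = c' then e c else 0) ∧ ∑ c, e c = 1 ∧
    (∀ z : ℂ, z ≠ 0 → M.h z = ∑ c, (z ^ (-a c) * starRingEnd ℂ z ^ (-b c)) • e c) ∧
    galLie M.ρ = ratSpan ℚ_[ℓ]
      (mtLie (∑ c, (a c : ℂ) • e c) (∑ c, (b c : ℂ) • e c) : Set (Matrix M.κ M.κ ℚ))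

/-- The direct sum of a finite family. -/
def Obj.bigSum {T : Type} [Fintype T] [DecidableEq T] (M : T → Obj ℓ Γ) : Obj ℓ Γ where
  κ := Σ t, (M t).κ
  h z := Matrix.blockDiagonal' fun t => (M t).h z
  ρ :=
    { toFun := fun γ => Matrix.blockDiagonal' fun t => (M t).ρ γ
      map_one' := by
        have h : (fun t => (M t).ρ 1) = 1 := funext fun t => map_one _
        rw [h, Matrix.blockDiagonal'_one]
      map_mul' := fun γ δ => by
        rw [← Matrix.blockDiagonal'_mul]
        congr 1
        funext t
        exact map_mul _ _ _ }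

end obj

variable {k : Type} [Field k] {ℓ : ℕ} [Fact ℓ.Prime] {T : Type} [Fintype T] [DecidableEq T]

/-- The sum of the `H²(X t)`. -/
def HKFam.two (F : HKFam k ℓ T) : Obj ℓ (GK k) :=
  Obj.bigSum fun t => ⟨Fin ((F.V t).B.n 2), ((F.W t).V 2).h, F.G t 2⟩

/-- `M` is an object of the tannakian category generated by `P` and by the realizations of the motives
`H^i(X t)` of the hyperkähler varieties and of the Tate motive: the smallest class which contains them
and is closed under direct sums, tensor products, duals and direct summands. -/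
inductive HKFam.GeneratedWith (F : HKFam k ℓ T) (P : Obj ℓ (GK k)) : Obj ℓ (GK k) → Prop
  | extra : GeneratedWith F P P
  | base (t : T) (i : ℕ) (hi : i ≤ (F.V t).X.d) :
      GeneratedWith F P ⟨Fin ((F.V t).B.n i), ((F.W t).V i).h, F.G t i⟩
  | tate : GeneratedWith F P (Obj.tate (cyc k ℓ))
  | sum (M N : Obj ℓ (GK k)) : GeneratedWith F P M → GeneratedWith F P N →
      GeneratedWith F P (M.sum N)
  | tensor (M N : Obj ℓ (GK k)) : GeneratedWith F P M → GeneratedWith F P N →
      GeneratedWith F P (M.tensor N)
  | dual (M : Obj ℓ (GK k)) : GeneratedWith F P M → GeneratedWith F P M.dual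
  | summand (M N : Obj ℓ (GK k)) : GeneratedWith F P M → N.IsSummand M → GeneratedWith F P N

end

end Run7.h457.MT
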