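import Pool.Agent.Run7.h457.MT.FinalM
import Pool.Agent.Run7.h457.MT.RelDefs

/-!
# Project MT457: hyperkähler motives together with a further motive

`GoodR D D' g h ρ` (helper483) is the notion relative to a base given by the operators `D`, `D'` and by
the matrices `g` of the Galois group.
-/

set_option autoImplicit false
set_option linter.unusedSectionVars false

namespace Run7.h457.MT

open Matrix Filter Topology Pool.Agent.W401.Cheb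
open Run7.h644.MT (QQ fq fq_sum fq_mul fq_comm chr_indep comm_lie sand sand_apply ext_sand
  exists_bound near_sand log_sand)
open Pool.Agent.Run7.h483.MT (GoodR good_blk good_dual)
open Run7.h615.MT (galLie_finite log_unique)
open Run7.h475.MT (t_SPAN t_LIE t_LOGEX mt_lie mt_mem mt_mem')

noncomputable section

section lin

variable {ι κ : Type} [Fintype ι] [DecidableEq ι] [Fintype κ] [DecidableEq κ]

/-- The operators `D` and `D'` are determined by the action of `ℂ^×`. -/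
theorem D_unique {C C' : Type} [Fintype C] [DecidableEq C] [Fintype C'] [DecidableEq C']
    (a b : C → ℤ) (e : C → Matrix κ κ ℂ) (a' b' : C' → ℤ) (e' : C' → Matrix κ κ ℂ)
    (h : ∀ z : ℂ, z ≠ 0 → ∑ c, (z ^ (-a c) * starRingEnd ℂ z ^ (-b c)) • e c =
      ∑ c, (z ^ (-a' c) * starRingEnd ℂ z ^ (-b' c)) • e' c) (φ : ℤ × ℤ → ℂ) :
    ∑ c, φ (a c, b c) • e c = ∑ c, φ (a' c, b' c) • e' c := by
  have hz : ∀ (C : Type) [Fintype C] (a b : C → ℤ) (e : C → Matrix κ κ ℂ) (q : ℤ × ℤ),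
      q ∉ QQ a b → fq a b e q = 0 := by
    intro C _ a b e q hq
    refine Finset.sum_eq_zero fun c hc => ?_
    exact absurd (Finset.mem_image.2 ⟨c, Finset.mem_univ c, (Finset.mem_filter.1 hc).2⟩) hq
  have key : ∀ φ : ℤ × ℤ → ℂ,
      (∑ c, φ (a c, b c) • e c = ∑ q ∈ QQ a b ∪ QQ a' b', φ q • fq a b e q) ∧
      (∑ c, φ (a' c, b' c) • e' c = ∑ q ∈ QQ a b ∪ QQ a' b', φ q • fq a' b' e' q) := by
    intro φ
    constructor
    · rw [fq_sum a b e φ]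
      refine Finset.sum_subset Finset.subset_union_left fun q _ hq => ?_
      rw [hz C a b e q hq, smul_zero]
    · rw [fq_sum a' b' e' φ]
      refine Finset.sum_subset Finset.subset_union_right fun q _ hq => ?_
      rw [hz C' a' b' e' q hq, smul_zero]
  have h1 := chr_indep (QQ a b ∪ QQ a' b') (fun q => fq a b e q - fq a' b' e' q) ?_
  · rw [(key φ).1, (key φ).2]
    refine Finset.sum_congr rfl fun q hq => ?_
    rw [sub_eq_zero.1 (h1 q hq)]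
  · intro z hz
    have h2 := h z hz
    rw [(key fun q => z ^ (-q.1) * starRingEnd ℂ z ^ (-q.2)).1,
      (key fun q => z ^ (-q.1) * starRingEnd ℂ z ^ (-q.2)).2, ← sub_eq_zero,
      ← Finset.sum_sub_distrib] at h2
    refine Eq.trans (Finset.sum_congr rfl fun q _ => ?_) h2
    rw [smul_sub]

end lin

variable {ι κ κ' Γ : Type} [Fintype ι] [DecidableEq ι] [Fintype κ] [DecidableEq κ] [Fintype κ']
  [DecidableEq κ'] [Group Γ] {ℓ : ℕ} [Fact ℓ.Prime] {D D' : Matrix ι ι ℂ}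
  {g : Γ → Matrix ι ι ℚ_[ℓ]}

/-- Direct summands (as in `Run7.h644.MT.t_SUMMAND`). -/
theorem good_summand {M N : Obj ℓ Γ} (hM : GoodR D D' g M.h (fun σ => M.ρ σ))
    (hN : N.IsSummand M) : GoodR D D' g N.h (fun σ => N.ρ σ) := by
  obtain ⟨E, hlie, hlog, C, _, _, a, b, e, hmul, hone, hh, hD, hD'⟩ := hM
  obtain ⟨i, r, hi, hr, hri⟩ := hN
  -- the projection
  have hri' : ∀ (F : Type) [Field F] [Algebra ℚ F],
      r.map (algebraMap ℚ F) * i.map (algebraMap ℚ F) = 1 := by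
    intro F _ _
    rw [← Matrix.map_mul, hri]
    exact Matrix.map_one _ (map_zero _) (map_one _)
  set p : Matrix M.κ M.κ ℚ := i * r with hp
  have hrp : r * p = r := by rw [hp, ← Matrix.mul_assoc, hri, Matrix.one_mul]
  have hpi : p * i = i := by rw [hp, Matrix.mul_assoc, hri, Matrix.mul_one]
  have hrpC : r.map (algebraMap ℚ ℂ) * p.map (algebraMap ℚ ℂ) = r.map (algebraMap ℚ ℂ) := by
    rw [← Matrix.map_mul, hrp]
  have hpc : ∀ z : ℂ, z ≠ 0 → p.map (algebraMap ℚ ℂ) * M.h z = M.h z * p.map (algebraMap ℚ ℂ) := by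
    intro z hz
    rw [hp, Matrix.map_mul, Matrix.mul_assoc, ← hr.1 z hz, ← Matrix.mul_assoc, ← hi.1 z hz,
      Matrix.mul_assoc]
  have hfc : ∀ q ∈ QQ a b, p.map (algebraMap ℚ ℂ) * fq a b e q =
      fq a b e q * p.map (algebraMap ℚ ℂ) := by
    intro q hq
    refine fq_comm a b e _ (fun z hz => ?_) q hq
    rw [← hh z hz]
    exact hpc z hz
  have hDq : ext ℂ E D = ∑ q ∈ QQ a b, (q.1 : ℂ) • fq a b e q := by
    rw [hD]
    exact fq_sum a b e (fun q => (q.1 : ℂ))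
  have hDq' : ext ℂ E D' = ∑ q ∈ QQ a b, (q.2 : ℂ) • fq a b e q := by
    rw [hD']
    exact fq_sum a b e (fun q => (q.2 : ℂ))
  have hcomm : ∀ x ∈ mtLie D D', p * E x = E x * p := by
    intro x hx
    refine comm_lie E _ _ hlie p ?_ ?_ x hx
    · rw [hDq, Finset.mul_sum, Finset.sum_mul]
      refine Finset.sum_congr rfl fun q hq => ?_
      rw [Matrix.mul_smul, Matrix.smul_mul, hfc q hq]
    · rw [hDq', Finset.mul_sum, Finset.sum_mul]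
      refine Finset.sum_congr rfl fun q hq => ?_
      rw [Matrix.mul_smul, Matrix.smul_mul, hfc q hq]
  refine ⟨sand E i r, ?_, ?_, ↥(QQ a b), inferInstance, inferInstance, fun q => q.1.1,
    fun q => q.1.2, fun q => r.map (algebraMap ℚ ℂ) * fq a b e q.1 * i.map (algebraMap ℚ ℂ),
    ?_, ?_, ?_, ?_, ?_⟩
  · -- the bracket
    intro x hx y hy
    have key : ∀ x ∈ mtLie D D', ∀ y : Matrix _ _ ℚ,
        r * E x * i * (r * E y * i) = r * (E x * E y) * i := by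
      intro x hx y
      calc r * E x * i * (r * E y * i) = r * (E x * (i * r)) * E y * i := by
            simp only [Matrix.mul_assoc]
        _ = r * (i * r * E x) * E y * i := by rw [← hp, hcomm x hx]
        _ = (r * i) * (r * (E x * E y) * i) := by simp only [Matrix.mul_assoc]
        _ = r * (E x * E y) * i := by rw [hri, Matrix.one_mul]
    rw [sand_apply, sand_apply, sand_apply, hlie x hx y hy, key x hx y, key y hy x,
      Matrix.mul_sub, Matrix.sub_mul]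
  · -- logarithms
    intro n
    obtain ⟨n₁, hn₁⟩ := exists_bound (ℓ := ℓ) (r.map (algebraMap ℚ ℚ_[ℓ]))
    obtain ⟨n₂, hn₂⟩ := exists_bound (ℓ := ℓ) (i.map (algebraMap ℚ ℚ_[ℓ]))
    obtain ⟨Δ, hΔ, h⟩ := hlog (n₁ + n + n₂)
    refine ⟨Δ, hΔ, fun σ hσ => ?_⟩
    obtain ⟨h1, h2⟩ := h σ hσ
    have hNρ : N.ρ σ = r.map (algebraMap ℚ ℚ_[ℓ]) * M.ρ σ * i.map (algebraMap ℚ ℚ_[ℓ]) := by
      rw [← hr.2 σ, Matrix.mul_assoc, hri' ℚ_[ℓ], Matrix.mul_one]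
    refine ⟨?_, fun L hL => ?_⟩
    · show NearOne n (N.ρ σ)
      rw [hNρ]
      exact near_sand _ _ (hri' ℚ_[ℓ]) n₁ n₂ hn₁ hn₂ n _ h1
    · rw [ext_sand]
      exact log_sand _ _ (hri' ℚ_[ℓ]) _ _ (hr.2 σ) _ (h2 L hL)
  · -- orthogonality
    intro q q'
    have h1 : r.map (algebraMap ℚ ℂ) * fq a b e q.1 * i.map (algebraMap ℚ ℂ) *
        (r.map (algebraMap ℚ ℂ) * fq a b e q'.1 * i.map (algebraMap ℚ ℂ)) =
        r.map (algebraMap ℚ ℂ) * (fq a b e q.1 * fq a b e q'.1) * i.map (algebraMap ℚ ℂ) := by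
      calc _ = r.map (algebraMap ℚ ℂ) * (fq a b e q.1 * (i.map (algebraMap ℚ ℂ) *
              r.map (algebraMap ℚ ℂ))) * fq a b e q'.1 * i.map (algebraMap ℚ ℂ) := by
            simp only [Matrix.mul_assoc]
        _ = r.map (algebraMap ℚ ℂ) * (p.map (algebraMap ℚ ℂ) * fq a b e q.1) * fq a b e q'.1 *
              i.map (algebraMap ℚ ℂ) := by
            rw [← Matrix.map_mul, ← hp, hfc q.1 q.2]
        _ = (r.map (algebraMap ℚ ℂ) * p.map (algebraMap ℚ ℂ)) * (fq a b e q.1 * fq a b e q'.1) *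
              i.map (algebraMap ℚ ℂ) := by simp only [Matrix.mul_assoc]
        _ = _ := by rw [hrpC]
    show r.map (algebraMap ℚ ℂ) * fq a b e q.1 * i.map (algebraMap ℚ ℂ) *
        (r.map (algebraMap ℚ ℂ) * fq a b e q'.1 * i.map (algebraMap ℚ ℂ)) =
      if q = q' then r.map (algebraMap ℚ ℂ) * fq a b e q.1 * i.map (algebraMap ℚ ℂ) else 0
    rw [h1, fq_mul a b e hmul]
    by_cases hqq : q = q'
    · rw [if_pos hqq, if_pos (congrArg Subtype.val hqq)]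
    · rw [if_neg hqq, if_neg fun h => hqq (Subtype.ext h), Matrix.mul_zero, Matrix.zero_mul]
  · -- the sum is one
    have h1 : ∑ q ∈ QQ a b, fq a b e q = 1 := by
      have h2 := fq_sum a b e (fun _ => (1 : ℂ))
      simp only [one_smul] at h2
      rw [← h2, hone]
    rw [Finset.sum_coe_sort (QQ a b)
      (fun q => r.map (algebraMap ℚ ℂ) * fq a b e q * i.map (algebraMap ℚ ℂ)),
      ← Matrix.sum_mul, ← Matrix.mul_sum, h1, Matrix.mul_one, hri' ℂ]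
  · intro z hz
    have h1 : N.h z = r.map (algebraMap ℚ ℂ) * M.h z * i.map (algebraMap ℚ ℂ) := by
      rw [← hr.1 z hz, Matrix.mul_assoc, hri' ℂ, Matrix.mul_one]
    rw [h1, hh z hz, fq_sum a b e (fun q => z ^ (-q.1) * starRingEnd ℂ z ^ (-q.2)),
      Finset.sum_coe_sort (QQ a b) (fun q => (z ^ (-q.1) * starRingEnd ℂ z ^ (-q.2)) •
        (r.map (algebraMap ℚ ℂ) * fq a b e q * i.map (algebraMap ℚ ℂ))), Matrix.mul_sum,
      Matrix.sum_mul]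
    refine Finset.sum_congr rfl fun q _ => ?_
    rw [Matrix.mul_smul, Matrix.smul_mul]
  · rw [ext_sand, hDq, Finset.sum_coe_sort (QQ a b) (fun q => (q.1 : ℂ) •
        (r.map (algebraMap ℚ ℂ) * fq a b e q * i.map (algebraMap ℚ ℂ))), Matrix.mul_sum,
      Matrix.sum_mul]
    refine Finset.sum_congr rfl fun q _ => ?_
    rw [Matrix.mul_smul, Matrix.smul_mul]
  · rw [ext_sand, hDq', Finset.sum_coe_sort (QQ a b) (fun q => (q.2 : ℂ) •
        (r.map (algebraMap ℚ ℂ) * fq a b e q * i.map (algebraMap ℚ ℂ))), Matrix.mul_sum,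
      Matrix.sum_mul]
    refine Finset.sum_congr rfl fun q _ => ?_
    rw [Matrix.mul_smul, Matrix.smul_mul]

/-- The Lie algebra of the image of the Galois group on a good object (as in
`Run7.h576.MT.galLie_good`). -/
theorem galLie_goodR (h1g : g 1 = 1) (hmg : ∀ σ σ', g (σ * σ') = g σ * g σ')
    (hg : ∀ N : ℕ, ∃ Δ : Subgroup Γ, Δ.FiniteIndex ∧ ∀ σ ∈ Δ, NearOne N (g σ))
    (hM : galLie g = ratSpan ℚ_[ℓ] (mtLie D D' : Set (Matrix ι ι ℚ))) (ρ : Γ →* Matrix κ κ ℚ_[ℓ])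
    (E : Matrix ι ι ℚ →ₗ[ℚ] Matrix κ κ ℚ) (hE : LieOn (mtLie D D') E)
    (h : ∀ N : ℕ, ∃ Δ : Subgroup Γ, Δ.FiniteIndex ∧ ∀ σ ∈ Δ, NearOne N (ρ σ) ∧
      ∀ L, IsLog (g σ) L → IsLog (ρ σ) (ext ℚ_[ℓ] E L)) :
    galLie ρ = ratSpan ℚ_[ℓ] (mtLie (ext ℂ E D) (ext ℂ E D') : Set (Matrix κ κ ℚ)) := by
  obtain ⟨Δ₀, hΔ₀, h0⟩ := h 0
  obtain ⟨Δ₁, hΔ₁, h1⟩ := hg 2
  obtain ⟨Δ, hΔdef⟩ : ∃ Δ : Subgroup Γ, Δ = Δ₀ ⊓ Δ₁ := ⟨_, rfl⟩
  have hΔ : Δ.FiniteIndex := by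
    rw [hΔdef]
    infer_instance
  have hlog : ∀ σ ∈ Δ, ∃ L, IsLog (g σ) L := by
    intro σ hσ
    rw [hΔdef] at hσ
    exact t_LOGEX ℓ _ (g σ) (h1 σ hσ.2)
  have e1 := galLie_finite (ρ : Γ → Matrix κ κ ℚ_[ℓ]) (map_one ρ) (map_mul ρ) Δ
  have e2 := galLie_finite g h1g hmg Δ
  have e3 : {L | ∃ σ ∈ Δ, IsLog (ρ σ) L} = ext ℚ_[ℓ] E '' {L | ∃ σ ∈ Δ, IsLog (g σ) L} := by
    ext L'
    constructor
    · rintro ⟨σ, hσ, hL'⟩
      obtain ⟨L, hL⟩ := hlog σ hσ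
      have hσ0 : σ ∈ Δ₀ := by rw [hΔdef] at hσ; exact hσ.1
      exact ⟨L, ⟨σ, hσ, hL⟩, log_unique ((h0 σ hσ0).2 L hL) hL'⟩
    · rintro ⟨L, ⟨σ, hσ, hL⟩, rfl⟩
      have hσ0 : σ ∈ Δ₀ := by rw [hΔdef] at hσ; exact hσ.1
      exact ⟨σ, hσ, (h0 σ hσ0).2 L hL⟩
  rw [e1, e3, ← Submodule.map_span, ← e2, hM, Run7.h615.MT.map_ratSpan]
  have e4 := t_LIE (mtLie D D') E D D' (mt_lie _ _) hE (mt_mem _ _) (mt_mem' _ _)
  rw [e4]

/-- Good objects satisfy the Mumford-Tate conjecture. -/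
theorem mt_goodR (h1g : g 1 = 1) (hmg : ∀ σ σ', g (σ * σ') = g σ * g σ')
    (hg : ∀ N : ℕ, ∃ Δ : Subgroup Γ, Δ.FiniteIndex ∧ ∀ σ ∈ Δ, NearOne N (g σ))
    (hM : galLie g = ratSpan ℚ_[ℓ] (mtLie D D' : Set (Matrix ι ι ℚ))) {h : ℂ → Matrix κ κ ℂ}
    (ρ : Γ →* Matrix κ κ ℚ_[ℓ]) (hgood : GoodR D D' g h (fun σ => ρ σ)) :
    MumfordTateConjecture h ρ := by
  obtain ⟨E, hE, hN, C, iC, iD, a, b, e, he, he1, hh, hD, hD'⟩ := hgood
  have h2 := galLie_goodR h1g hmg hg hM ρ E hE hN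
  refine fun x hx => ⟨fun hmon => ?_, fun hmt => ?_⟩
  · refine gsub_thm ℓ _ Γ ρ _ C a b e he he1 hh ?_ ?_ x hx hmon
    · intro N
      obtain ⟨Δ, hΔ, hN⟩ := hN N
      exact ⟨Δ, hΔ, fun σ hσ => (hN σ hσ).1⟩
    · intro L hL
      rw [← hD, ← hD', ← h2]
      exact hL
  · refine gsup_thm ℓ _ Γ ρ _ C a b e he he1 hh ?_ x hx hmt
    intro y hy
    rw [← hD, ← hD'] at hy
    rw [h2]
    exact Submodule.subset_span ⟨y, hy, rfl⟩

/-- The action of `ℂ^×` is invertible. -/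
theorem det_goodR {h : ℂ → Matrix κ κ ℂ} {ρ : Γ → Matrix κ κ ℚ_[ℓ]} (hgood : GoodR D D' g h ρ)
    (z : ℂ) (hz : z ≠ 0) : (h z).det ≠ 0 := by
  obtain ⟨E, -, -, C, iC, jC, a, b, e, he, hs, hh, -⟩ := hgood
  have hz' : starRingEnd ℂ z ≠ 0 := fun h => hz ((map_eq_zero _).1 h)
  have h1 : h z * (∑ c, (z ^ a c * starRingEnd ℂ z ^ b c) • e c) = 1 := by
    rw [hh z hz, Finset.sum_mul, ← hs]
    refine Finset.sum_congr rfl fun c _ => ?_
    rw [Finset.mul_sum, Finset.sum_eq_single c]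
    · rw [Matrix.smul_mul, Matrix.mul_smul, he, if_pos rfl, smul_smul, _root_.zpow_neg,
        _root_.zpow_neg]
      rw [show (z ^ a c)⁻¹ * (starRingEnd ℂ z ^ b c)⁻¹ * (z ^ a c * starRingEnd ℂ z ^ b c) =
        ((z ^ a c)⁻¹ * z ^ a c) * ((starRingEnd ℂ z ^ b c)⁻¹ * starRingEnd ℂ z ^ b c) by ring,
        inv_mul_cancel₀ (zpow_ne_zero _ hz), inv_mul_cancel₀ (zpow_ne_zero _ hz'), one_mul,
        one_smul]
    · intro c' _ hc'
      rw [Matrix.smul_mul, Matrix.mul_smul, he, if_neg (Ne.symm hc'), smul_zero, smul_zero]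
    · intro h
      exact absurd (Finset.mem_univ c) h
  intro h0
  have h2 := congrArg Matrix.det h1
  rw [Matrix.det_mul, h0, zero_mul, Matrix.det_one] at h2
  exact zero_ne_one h2

/-- Composition: `N` is good relative to `M`, and `M` is good relative to the base. -/
theorem good_trans {h₁ : ℂ → Matrix κ κ ℂ} {ρ₁ : Γ → Matrix κ κ ℚ_[ℓ]} {h₂ : ℂ → Matrix κ' κ' ℂ}
    {ρ₂ : Γ → Matrix κ' κ' ℚ_[ℓ]} {C : Type} [Fintype C] [DecidableEq C] (a b : C → ℤ)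
    (e : C → Matrix κ κ ℂ)
    (hh : ∀ z : ℂ, z ≠ 0 → h₁ z = ∑ c, (z ^ (-a c) * starRingEnd ℂ z ^ (-b c)) • e c)
    (hM : GoodR D D' g h₁ ρ₁)
    (hN : GoodR (∑ c, (a c : ℂ) • e c) (∑ c, (b c : ℂ) • e c) ρ₁ h₂ ρ₂) :
    GoodR D D' g h₂ ρ₂ := by
  obtain ⟨E₁, hL₁, hG₁, C₁, _, _, a₁, b₁, e₁, hm₁, hs₁, hh₁, hD₁, hD'₁⟩ := hM
  obtain ⟨E₂, hL₂, hG₂, C₂, _, _, a₂, b₂, e₂, hm₂, hs₂, hh₂, hD₂, hD'₂⟩ := hN
  have hz : ∀ z : ℂ, z ≠ 0 → ∑ c, (z ^ (-a₁ c) * starRingEnd ℂ z ^ (-b₁ c)) • e₁ c =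
      ∑ c, (z ^ (-a c) * starRingEnd ℂ z ^ (-b c)) • e c := fun z hz =>
    (hh₁ z hz).symm.trans (hh z hz)
  have k1 : ext ℂ E₁ D = ∑ c, (a c : ℂ) • e c := by
    rw [hD₁]
    exact D_unique a₁ b₁ e₁ a b e hz fun q => (q.1 : ℂ)
  have k2 : ext ℂ E₁ D' = ∑ c, (b c : ℂ) • e c := by
    rw [hD'₁]
    exact D_unique a₁ b₁ e₁ a b e hz fun q => (q.2 : ℂ)
  have k3 : ∀ (F : Type) [Field F] [Algebra ℚ F] (L : Matrix ι ι F),
      ext F (E₂ ∘ₗ E₁) L = ext F E₂ (ext F E₁ L) := by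
    intro F _ _ L
    apply Run7.h615.MT.mat_ext
    intro φ
    rw [Run7.h475.MT.ext_map, Run7.h475.MT.ext_map, Run7.h475.MT.ext_map]
    rfl
  have k4 : ∀ x ∈ mtLie D D', E₁ x ∈ mtLie (∑ c, (a c : ℂ) • e c) (∑ c, (b c : ℂ) • e c) := by
    intro x hx
    have e4 := t_LIE (mtLie D D') E₁ D D' (mt_lie _ _) hL₁ (mt_mem _ _) (mt_mem' _ _)
    have e5 : (mtLie D D').map E₁ = mtLie (ext ℂ E₁ D) (ext ℂ E₁ D') := by
      rw [e4]
    rw [k1, k2] at e5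
    rw [← e5]
    exact Submodule.mem_map_of_mem hx
  refine ⟨E₂ ∘ₗ E₁, ?_, ?_, C₂, inferInstance, inferInstance, a₂, b₂, e₂, hm₂, hs₂, hh₂, ?_, ?_⟩
  · intro x hx y hy
    show E₂ (E₁ (x * y - y * x)) = E₂ (E₁ x) * E₂ (E₁ y) - E₂ (E₁ y) * E₂ (E₁ x)
    rw [hL₁ x hx y hy, hL₂ _ (k4 x hx) _ (k4 y hy)]
  · intro N
    obtain ⟨Δ₁, hf₁, k₁⟩ := hG₁ N
    obtain ⟨Δ₂, hf₂, k₂⟩ := hG₂ N
    refine ⟨Δ₁ ⊓ Δ₂, inferInstance, fun σ hσ => ⟨(k₂ σ hσ.2).1, fun L hL => ?_⟩⟩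
    rw [k3]
    exact (k₂ σ hσ.2).2 _ ((k₁ σ hσ.1).2 L hL)
  · rw [k3, k1]
    exact hD₂
  · rw [k3, k2]
    exact hD'₂

/-- The base is good relative to itself. -/
theorem good_refl {h : ℂ → Matrix ι ι ℂ} {ρ : Γ → Matrix ι ι ℚ_[ℓ]}
    (hρ : ∀ N : ℕ, ∃ Δ : Subgroup Γ, Δ.FiniteIndex ∧ ∀ σ ∈ Δ, NearOne N (ρ σ))
    {C : Type} [Fintype C] [DecidableEq C] (a b : C → ℤ) (e : C → Matrix ι ι ℂ)
    (he : ∀ c c', e c * e c' = if c = c' then e c else 0) (he1 : ∑ c, e c = 1)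
    (hh : ∀ z : ℂ, z ≠ 0 → h z = ∑ c, (z ^ (-a c) * starRingEnd ℂ z ^ (-b c)) • e c) :
    GoodR (∑ c, (a c : ℂ) • e c) (∑ c, (b c : ℂ) • e c) ρ h ρ := by
  have k3 : ∀ (F : Type) [Field F] [Algebra ℚ F] (L : Matrix ι ι F),
      ext F (LinearMap.id : Matrix ι ι ℚ →ₗ[ℚ] Matrix ι ι ℚ) L = L := by
    intro F _ _ L
    apply Run7.h615.MT.mat_ext
    intro φ
    rw [Run7.h475.MT.ext_map]
    rfl
  refine ⟨LinearMap.id, fun x _ y _ => rfl, fun N => ?_, C, inferInstance, inferInstance, a, b, e,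
    he, he1, hh, k3 _ _, k3 _ _⟩
  obtain ⟨Δ, hf, k⟩ := hρ N
  refine ⟨Δ, hf, fun σ hσ => ⟨k σ hσ, fun L hL => ?_⟩⟩
  rw [k3]
  exact hL

end

end Run7.h457.MT
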