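import Pool.Agent.Run7.h457.MT.Rel

/-!
# Project MT457: hyperkähler motives together with a further motive: the theorem
-/

set_option autoImplicit false
set_option linter.unusedSectionVars false

namespace Run7.h457.MT

open Matrix Filter Topology Pool.Agent.W401.Cheb
open Pool.Agent.Run7.h483.MT (GoodR good_blk good_dual)

noncomputable section

/-! ## Sums -/

section sum

variable {ℓ : ℕ} [Fact ℓ.Prime] {Γ : Type} [Group Γ]

variable {κ₁ κ₂ F : Type} [Fintype κ₁] [DecidableEq κ₁] [Fintype κ₂] [DecidableEq κ₂] [Field F]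
  [Algebra ℚ F]

theorem rows_left (A : Matrix κ₁ κ₁ F) (B : Matrix κ₂ κ₂ F) :
    Matrix.fromBlocks A 0 0 B *
      (Matrix.fromRows (1 : Matrix κ₁ κ₁ ℚ) (0 : Matrix κ₂ κ₁ ℚ)).map (algebraMap ℚ F) =
    (Matrix.fromRows (1 : Matrix κ₁ κ₁ ℚ) (0 : Matrix κ₂ κ₁ ℚ)).map (algebraMap ℚ F) * A := by
  ext i j
  rcases i with i | i <;> simp [Matrix.mul_apply, Matrix.one_apply, apply_ite (Rat.cast : ℚ → F)]

theorem rows_right (A : Matrix κ₁ κ₁ F) (B : Matrix κ₂ κ₂ F) :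
    Matrix.fromBlocks A 0 0 B *
      (Matrix.fromRows (0 : Matrix κ₁ κ₂ ℚ) (1 : Matrix κ₂ κ₂ ℚ)).map (algebraMap ℚ F) =
    (Matrix.fromRows (0 : Matrix κ₁ κ₂ ℚ) (1 : Matrix κ₂ κ₂ ℚ)).map (algebraMap ℚ F) * B := by
  ext i j
  rcases i with i | i <;> simp [Matrix.mul_apply, Matrix.one_apply, apply_ite (Rat.cast : ℚ → F)]

theorem cols_left (A : Matrix κ₁ κ₁ F) (B : Matrix κ₂ κ₂ F) :
    A * (Matrix.fromCols (1 : Matrix κ₁ κ₁ ℚ) (0 : Matrix κ₁ κ₂ ℚ)).map (algebraMap ℚ F) =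
    (Matrix.fromCols (1 : Matrix κ₁ κ₁ ℚ) (0 : Matrix κ₁ κ₂ ℚ)).map (algebraMap ℚ F) *
      Matrix.fromBlocks A 0 0 B := by
  ext i j
  rcases j with j | j <;> simp [Matrix.mul_apply, Matrix.one_apply, apply_ite (Rat.cast : ℚ → F)]

theorem cols_right (A : Matrix κ₁ κ₁ F) (B : Matrix κ₂ κ₂ F) :
    B * (Matrix.fromCols (0 : Matrix κ₂ κ₁ ℚ) (1 : Matrix κ₂ κ₂ ℚ)).map (algebraMap ℚ F) =
    (Matrix.fromCols (0 : Matrix κ₂ κ₁ ℚ) (1 : Matrix κ₂ κ₂ ℚ)).map (algebraMap ℚ F) *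
      Matrix.fromBlocks A 0 0 B := by
  ext i j
  rcases j with j | j <;> simp [Matrix.mul_apply, Matrix.one_apply, apply_ite (Rat.cast : ℚ → F)]

theorem cols_rows_left : Matrix.fromCols (1 : Matrix κ₁ κ₁ ℚ) (0 : Matrix κ₁ κ₂ ℚ) *
    Matrix.fromRows (1 : Matrix κ₁ κ₁ ℚ) (0 : Matrix κ₂ κ₁ ℚ) = 1 := by
  ext i j
  simp [Matrix.mul_apply, Matrix.one_apply]

theorem cols_rows_right : Matrix.fromCols (0 : Matrix κ₂ κ₁ ℚ) (1 : Matrix κ₂ κ₂ ℚ) *
    Matrix.fromRows (0 : Matrix κ₁ κ₂ ℚ) (1 : Matrix κ₂ κ₂ ℚ) = 1 := by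
  ext i j
  simp [Matrix.mul_apply, Matrix.one_apply]

theorem summand_left (M N : Obj ℓ Γ) : M.IsSummand (M.sum N) :=
  ⟨Matrix.fromRows (1 : Matrix M.κ M.κ ℚ) (0 : Matrix N.κ M.κ ℚ),
    Matrix.fromCols (1 : Matrix M.κ M.κ ℚ) (0 : Matrix M.κ N.κ ℚ),
    ⟨fun z _ => rows_left (M.h z) (N.h z), fun σ => rows_left (M.ρ σ) (N.ρ σ)⟩,
    ⟨fun z _ => cols_left (M.h z) (N.h z), fun σ => cols_left (M.ρ σ) (N.ρ σ)⟩,
    cols_rows_left⟩

theorem summand_right (M N : Obj ℓ Γ) : N.IsSummand (M.sum N) :=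
  ⟨Matrix.fromRows (0 : Matrix M.κ N.κ ℚ) (1 : Matrix N.κ N.κ ℚ),
    Matrix.fromCols (0 : Matrix N.κ M.κ ℚ) (1 : Matrix N.κ N.κ ℚ),
    ⟨fun z _ => rows_right (M.h z) (N.h z), fun σ => rows_right (M.ρ σ) (N.ρ σ)⟩,
    ⟨fun z _ => cols_right (M.h z) (N.h z), fun σ => cols_right (M.ρ σ) (N.ρ σ)⟩,
    cols_rows_right⟩

end sum

/-! ## The decomposition of `⊕ H²` -/

section two

variable {T : Type} [Fintype T] [DecidableEq T] {n : T → ℕ}
  (Z : ∀ t, HodgeStr 2 (Fin (n t)))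

/-- The projections of `⊕ H²`. -/
def eTwo (c : T × Fin 3) : Matrix (Σ t, Fin (n t)) (Σ t, Fin (n t)) ℂ :=
  Matrix.blockDiagonal' fun t => if t = c.1 then (Z t).e c.2 else 0

theorem eTwo_sum (φ : ℕ → ℂ) : ∑ c : T × Fin 3, φ c.2 • eTwo Z c =
    Matrix.blockDiagonal' fun t => ∑ p ∈ Finset.range 3, φ p • (Z t).e p := by
  ext ⟨t, i⟩ ⟨t', j⟩
  rw [Matrix.sum_apply, Fintype.sum_prod_type]
  by_cases h : t = t'
  · subst h
    rw [Matrix.blockDiagonal'_apply_eq, Finset.sum_range]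
    rw [Finset.sum_eq_single t]
    · rw [Matrix.sum_apply]
      refine Finset.sum_congr rfl fun p _ => ?_
      rw [eTwo, Matrix.smul_apply, Matrix.blockDiagonal'_apply_eq, if_pos rfl, Matrix.smul_apply]
    · intro s _ hs
      refine Finset.sum_eq_zero fun p _ => ?_
      rw [eTwo, Matrix.smul_apply, Matrix.blockDiagonal'_apply_eq, if_neg (Ne.symm hs)]
      simp
    · intro h
      exact absurd (Finset.mem_univ t) h
  · rw [Matrix.blockDiagonal'_apply_ne _ _ _ h]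
    refine Finset.sum_eq_zero fun s _ => Finset.sum_eq_zero fun p _ => ?_
    rw [eTwo, Matrix.smul_apply, Matrix.blockDiagonal'_apply_ne _ _ _ h, smul_zero]

theorem eTwo_mul (c c' : T × Fin 3) : eTwo Z c * eTwo Z c' = if c = c' then eTwo Z c else 0 := by
  unfold eTwo
  rw [← Matrix.blockDiagonal'_mul]
  by_cases h : c = c'
  · subst h
    rw [if_pos rfl]
    congr 1
    funext t
    by_cases ht : t = c.1
    · rw [if_pos ht, (Z t).mul _ (by omega) _ (by omega), if_pos rfl]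
    · rw [if_neg ht, Matrix.zero_mul]
  · rw [if_neg h]
    have h1 : (fun t => (if t = c.1 then (Z t).e c.2 else 0) *
        (if t = c'.1 then (Z t).e c'.2 else 0)) = (0 : ∀ t, Matrix (Fin (n t)) (Fin (n t)) ℂ) := by
      funext t
      by_cases ht : t = c.1
      · by_cases ht' : t = c'.1
        · rw [if_pos ht, if_pos ht', (Z t).mul _ (by omega) _ (by omega), if_neg]
          · rfl
          · intro hp
            exact h (Prod.ext (ht.symm.trans ht') (Fin.ext hp))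
        · rw [if_neg ht', Matrix.mul_zero]
          rfl
      · rw [if_neg ht, Matrix.zero_mul]
        rfl
    rw [h1]
    exact Matrix.blockDiagonal'_zero

theorem eTwo_one : ∑ c, eTwo Z c = 1 := by
  have h := eTwo_sum Z fun _ => 1
  simp only [one_smul] at h
  rw [h]
  have h1 : (fun t => ∑ p ∈ Finset.range 3, (Z t).e p) =
      (1 : ∀ t, Matrix (Fin (n t)) (Fin (n t)) ℂ) := funext fun t => (Z t).sum
  rw [h1, Matrix.blockDiagonal'_one]

end two

/-! ## The theorem -/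

variable {k : Type} [Field k] {ℓ : ℕ} [Fact ℓ.Prime] {T : Type} [Fintype T] [DecidableEq T]
  (F : HKFam k ℓ T)

theorem two_h (z : ℂ) (_hz : z ≠ 0) : F.two.h z = ∑ c : T × Fin 3,
    (z ^ (-((c.2 : ℕ) : ℤ)) * starRingEnd ℂ z ^ (-((2 - (c.2 : ℕ) : ℕ) : ℤ))) •
      eTwo (fun t => (F.W t).V 2) c := by
  have h := eTwo_sum (fun t => (F.W t).V 2) fun p =>
    (z ^ (-(p : ℤ)) * starRingEnd ℂ z ^ (-((2 - p : ℕ) : ℤ)))
  rw [h]
  show (Matrix.blockDiagonal' fun t => ((F.W t).V 2).h z) = _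
  congr 1
  funext t
  show ∑ p ∈ Finset.range (2 + 1), _ = _
  refine Finset.sum_congr rfl fun p _ => ?_
  congr 1
  rw [_root_.zpow_neg, _root_.zpow_neg, zpow_natCast, zpow_natCast, mul_inv]

theorem two_D : D2 (fun t => (F.V t).B) F.W =
    ∑ c : T × Fin 3, ((((c.2 : ℕ) : ℤ)) : ℂ) • eTwo (fun t => (F.W t).V 2) c := by
  have h := eTwo_sum (fun t => (F.W t).V 2) fun p => (((p : ℕ) : ℤ) : ℂ)
  rw [h]
  rfl

theorem two_D' : D2' (fun t => (F.V t).B) F.W =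
    ∑ c : T × Fin 3, (((((2 - (c.2 : ℕ) : ℕ)) : ℤ)) : ℂ) •
      eTwo (fun t => (F.W t).V 2) c := by
  have h := eTwo_sum (fun t => (F.W t).V 2) fun p => (((2 - p : ℕ) : ℤ) : ℂ)
  rw [h]
  rfl

variable {ι : Type} [Fintype ι] [DecidableEq ι] {D D' : Matrix ι ι ℂ}
  {g : GK k → Matrix ι ι ℚ_[ℓ]}

/-- What is good relative to `⊕ H²` is good relative to each base for which `⊕ H²` is good. -/
theorem good_of_two (h2 : GoodR D D' g F.two.h (fun σ => F.two.ρ σ)) {M : Obj ℓ (GK k)}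
    (hM : Good (fun t => (F.V t).B) F.W F.G M) : GoodR D D' g M.h (fun σ => M.ρ σ) := by
  refine good_trans (fun c : T × Fin 3 => ((c.2 : ℕ) : ℤ))
    (fun c : T × Fin 3 => ((2 - (c.2 : ℕ) : ℕ) : ℤ)) (eTwo (fun t => (F.W t).V 2)) (two_h F) h2 ?_
  have h : GoodR (D2 (fun t => (F.V t).B) F.W) (D2' (fun t => (F.V t).B) F.W)
      (fun σ => Matrix.blockDiagonal' fun t => F.G t 2 σ) M.h (fun σ => M.ρ σ) := hM
  rw [two_D F, two_D' F] at h
  exact h

theorem good_with [Nonempty T] {P M : Obj ℓ (GK k)}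
    (hP : GoodR D D' g P.h (fun σ => P.ρ σ))
    (h2 : GoodR D D' g F.two.h (fun σ => F.two.ρ σ)) (hM : F.GeneratedWith P M) :
    GoodR D D' g M.h (fun σ => M.ρ σ) := by
  induction hM with
  | extra => exact hP
  | base t i hi =>
    refine good_of_two F h2 ?_
    exact Run7.h700.MT.base ℓ (GK k) T (fun t => (F.V t).X.d) (fun t => (F.V t).X.two_le)
      (fun t => (F.V t).B) F.W F.G (fam_logRel F) t i hi
  | tate =>
    refine good_of_two F h2 ?_
    exact Run7.h700.MT.tateobj ℓ (GK k) T (fun t => (F.V t).X.d) (fun t => (F.V t).X.two_le)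
      (fun t => (F.V t).B) F.W F.G (fam_logRel F) (cyc k ℓ) (fam_near F) (fam_form F)
  | sum M N _ _ h1 h2 => exact good_blk h1 h2
  | tensor M N _ _ h1 h2 => exact Pool.Agent.Run7.h483.MT.good_tns h1 h2
  | dual M _ h1 => exact good_dual (ρ := M.ρ) h1
  | summand M N _ h h1 => exact good_summand h1 h

/-- **The Mumford-Tate conjecture** for the tannakian category generated by hyperkähler varieties and a
motive `P`, if it holds for the sum of `P` and the `H²`. -/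
theorem with_thm [Nonempty T] {P : Obj ℓ (GK k)} (h : (P.sum F.two).MumfordTateLie)
    {M : Obj ℓ (GK k)} (hM : F.GeneratedWith P M) :
    MumfordTateConjecture M.h M.ρ ∧ ∀ z, z ≠ 0 → (M.h z).det ≠ 0 := by
  obtain ⟨hn, C, _, _, a, b, e, he, he1, hh, hg⟩ := h
  have h0 : GoodR (∑ c, (a c : ℂ) • e c) (∑ c, (b c : ℂ) • e c) (fun σ => (P.sum F.two).ρ σ)
      (P.sum F.two).h (fun σ => (P.sum F.two).ρ σ) := good_refl hn a b e he he1 hh
  have h1 := good_with F (good_summand h0 (summand_left P F.two))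
    (good_summand h0 (summand_right P F.two)) hM
  exact ⟨mt_goodR (map_one _) (map_mul _) hn hg M.ρ h1, det_goodR h1⟩

/-- Algebraic groups over `ℚ`. -/
theorem with_group [Nonempty T] {P : Obj ℓ (GK k)} (h : (P.sum F.two).MumfordTateLie)
    {M : Obj ℓ (GK k)} (hM : F.GeneratedWith P M) (G : Set (Matrix M.κ M.κ ℂ)) (hG : IsQGroup G) :
    mumfordTate M.h = G ↔ ∀ g : Matrix M.κ M.κ (AlgebraicClosure ℚ_[ℓ]), g.det ≠ 0 →
      (InMonodromy M.ρ g ↔ InQGroup G g) :=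
  mot_iff M.h (with_thm F h hM).2 M.ρ (with_thm F h hM).1 G hG

end

end Run7.h457.MT
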