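import Pool.Agent.Run7.h457.MT.Data
import Pool.Agent.N184.HK.W7

/-!
# Project MT457: skew matrices and the commutant in coordinates
-/

set_option autoImplicit false
set_option linter.unusedSectionVars false

namespace Run7.h457.MT

open Matrix NumberField Pool.Agent.N184.HK Pool.Agent.W401.Cheb

noncomputable section

section ext

variable {ι κ : Type} [Fintype ι] [DecidableEq ι] [Fintype κ] [DecidableEq κ]

theorem ext_apply {F : Type} [Field F] [Algebra ℚ F] (R : Matrix ι ι ℚ →ₗ[ℚ] Matrix κ κ ℚ)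
    (A : Matrix ι ι F) : ext F R A = ∑ i, ∑ j, A i j • (R (Matrix.single i j 1)).map
      (algebraMap ℚ F) := rfl

theorem ext_map {F F' : Type} [Field F] [Algebra ℚ F] [Field F'] [Algebra ℚ F'] (φ : F →+* F')
    (R : Matrix ι ι ℚ →ₗ[ℚ] Matrix κ κ ℚ) (A : Matrix ι ι F) :
    ext F' R (A.map φ) = (ext F R A).map φ := by
  rw [ext_apply, ext_apply]
  ext a b
  simp only [Matrix.sum_apply, Matrix.smul_apply, Matrix.map_apply, smul_eq_mul, map_sum, map_mul]
  refine Finset.sum_congr rfl fun i _ => Finset.sum_congr rfl fun j _ => ?_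
  congr 1
  exact (RingHom.congr_fun (Subsingleton.elim (φ.comp (algebraMap ℚ F)) (algebraMap ℚ F')) _).symm

theorem ext_rat (R : Matrix ι ι ℚ →ₗ[ℚ] Matrix κ κ ℚ) (A : Matrix ι ι ℚ) : ext ℚ R A = R A := by
  have h : ∀ B : Matrix κ κ ℚ, B.map (algebraMap ℚ ℚ) = B := fun B => by ext; rfl
  rw [ext_apply]
  simp only [h, ← map_smul, ← map_sum]
  congr 1
  conv_rhs => rw [Matrix.matrix_eq_sum_single A]
  refine Finset.sum_congr rfl fun i _ => Finset.sum_congr rfl fun j _ => ?_
  rw [Matrix.smul_single, smul_eq_mul, mul_one]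

theorem ext_ratmap {F : Type} [Field F] [Algebra ℚ F] (R : Matrix ι ι ℚ →ₗ[ℚ] Matrix κ κ ℚ)
    (A : Matrix ι ι ℚ) : ext F R (A.map (algebraMap ℚ F)) = (R A).map (algebraMap ℚ F) := by
  rw [ext_map (algebraMap ℚ F) R A, ext_rat]

end ext

section skew

variable {κ : Type} [Fintype κ] [DecidableEq κ]

/-- The skew part of a matrix (twice). -/
def skp {F : Type} [Field F] (q A : Matrix κ κ F) : Matrix κ κ F := A - q⁻¹ * Aᵀ * q

theorem skp_skew {F : Type} [Field F] {q : Matrix κ κ F} (hs : qᵀ = q) (hd : q.det ≠ 0)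
    (A : Matrix κ κ F) : SkewMat q (skp q A) := by
  have hu : IsUnit q.det := isUnit_iff_ne_zero.2 hd
  unfold SkewMat skp
  rw [Matrix.transpose_sub, Matrix.transpose_mul, Matrix.transpose_mul, Matrix.transpose_transpose,
    Matrix.transpose_nonsing_inv, hs, sub_mul, mul_sub]
  have h1 : q * (A * q⁻¹) * q = q * A := by
    rw [mul_assoc, mul_assoc, Matrix.nonsing_inv_mul q hu, mul_one]
  have h2 : q * (q⁻¹ * Aᵀ * q) = Aᵀ * q := by
    rw [← mul_assoc, ← mul_assoc, Matrix.mul_nonsing_inv q hu, one_mul]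
  rw [h1, h2]
  abel

theorem skp_of_skew {F : Type} [Field F] {q : Matrix κ κ F} (hd : q.det ≠ 0)
    {A : Matrix κ κ F} (hA : SkewMat q A) : skp q A = (2 : F) • A := by
  have hu : IsUnit q.det := isUnit_iff_ne_zero.2 hd
  have h1 : Aᵀ * q = -(q * A) := eq_neg_of_add_eq_zero_left hA
  unfold skp
  rw [mul_assoc, h1, mul_neg, ← mul_assoc, Matrix.nonsing_inv_mul q hu, one_mul, sub_neg_eq_add,
    two_smul]

theorem SkewMat.map {F F' : Type} [Field F] [Field F'] (φ : F →+* F') {q A : Matrix κ κ F}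
    (h : SkewMat q A) : SkewMat (q.map φ) (A.map φ) := by
  unfold SkewMat at *
  rw [← Matrix.transpose_map, ← Matrix.map_mul, ← Matrix.map_mul, ← Matrix.map_add φ (map_add φ), h]
  exact Matrix.map_zero _ (map_zero φ)

/-- A skew matrix over a field is a combination of rational skew matrices. -/
theorem skew_sum {F : Type} [Field F] [CharZero F] [Algebra ℚ F] {q : Matrix κ κ ℚ}
    (hd : q.det ≠ 0) {A : Matrix κ κ F} (hA : SkewMat (q.map (algebraMap ℚ F)) A) :
    A = ∑ j, ∑ k, (A j k / 2) • (skp q (Matrix.single j k 1)).map (algebraMap ℚ F) := by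
  have hd' : (q.map (algebraMap ℚ F)).det ≠ 0 := by
    rw [← RingHom.mapMatrix_apply, ← RingHom.map_det]
    exact (map_ne_zero _).2 hd
  have hinv : (q.map (algebraMap ℚ F))⁻¹ = (q⁻¹).map (algebraMap ℚ F) := by
    refine Matrix.inv_eq_left_inv ?_
    rw [← Matrix.map_mul, Matrix.nonsing_inv_mul q (isUnit_iff_ne_zero.2 hd)]
    exact Matrix.map_one _ (map_zero _) (map_one _)
  have h1 : ∀ j k, (skp q (Matrix.single j k 1)).map (algebraMap ℚ F) =
      skp (q.map (algebraMap ℚ F)) (Matrix.single j k 1) := by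
    intro j k
    unfold skp
    have h2 : (Matrix.single j k (1 : ℚ)).map (algebraMap ℚ F) = Matrix.single j k 1 := by
      rw [Matrix.map_single, map_one]
    rw [Matrix.map_sub _ (map_sub _), Matrix.map_mul, Matrix.map_mul, hinv,
      Matrix.transpose_map, h2]
  have h3 : ∀ (c : F) (B : Matrix κ κ F), skp (q.map (algebraMap ℚ F)) (c • B) =
      c • skp (q.map (algebraMap ℚ F)) B := by
    intro c B
    unfold skp
    rw [Matrix.transpose_smul, Matrix.mul_smul, Matrix.smul_mul, smul_sub]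
  have h4 : ∀ (B B' : Matrix κ κ F), skp (q.map (algebraMap ℚ F)) (B + B') =
      skp (q.map (algebraMap ℚ F)) B + skp (q.map (algebraMap ℚ F)) B' := by
    intro B B'
    unfold skp
    rw [Matrix.transpose_add, Matrix.mul_add, Matrix.add_mul]
    abel
  let L : Matrix κ κ F →ₗ[F] Matrix κ κ F :=
    { toFun := skp (q.map (algebraMap ℚ F)), map_add' := h4, map_smul' := h3 }
  have h5 : L A = ∑ j, ∑ k, (A j k) • L (Matrix.single j k 1) := by
    conv_lhs => rw [Matrix.matrix_eq_sum_single A]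
    rw [map_sum]
    refine Finset.sum_congr rfl fun j _ => ?_
    rw [map_sum]
    refine Finset.sum_congr rfl fun k _ => ?_
    rw [← map_smul, Matrix.smul_single, smul_eq_mul, mul_one]
  have h6 : L A = (2 : F) • A := skp_of_skew hd' hA
  have h7 : A = (2 : F)⁻¹ • L A := by
    rw [h6, smul_smul, inv_mul_cancel₀ two_ne_zero, one_smul]
  conv_lhs => rw [h7, h5]
  rw [Finset.smul_sum]
  refine Finset.sum_congr rfl fun j _ => ?_
  rw [Finset.smul_sum]
  refine Finset.sum_congr rfl fun k _ => ?_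
  rw [smul_smul, h1, div_eq_mul_inv, mul_comm]
  rfl

end skew

end

end Run7.h457.MT
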