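import Pool.Agent.Run7.h457.MT.Obj
import Pool.Agent.Run7.h457.MT.MotDefs

/-!
# Project MT457: the `ℓ`-adic monodromy group and the motivic Galois group: definitions
-/

set_option autoImplicit false

namespace Run7.h457.MT

open Matrix

noncomputable section

variable {ℓ : ℕ} [Fact ℓ.Prime] {Γ : Type} [Group Γ]

/-- The points of the `ℓ`-adic monodromy group, the Zariski closure of `ρ(Γ)`, over the algebraic
closure of `ℚ_ℓ`: a polynomial that vanishes on `ρ(Γ)` vanishes at `g`. -/
def InClosure {κ : Type} (ρ : Γ → Matrix κ κ ℚ_[ℓ])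
    (g : Matrix κ κ (AlgebraicClosure ℚ_[ℓ])) : Prop :=
  ∀ f : MvPolynomial (κ × κ) (AlgebraicClosure ℚ_[ℓ]),
    (∀ s, MvPolynomial.aeval (fun q : κ × κ =>
      algebraMap ℚ_[ℓ] (AlgebraicClosure ℚ_[ℓ]) (ρ s q.1 q.2)) f = 0) →
    MvPolynomial.aeval (fun q : κ × κ => g q.1 q.2) f = 0

/-- The algebraic group `G` over `ℚ` is, over the algebraic closure of `ℚ_ℓ`, the union of the sets
`ρ(σ) MT`. In other words: `G` contains the Mumford-Tate group and the image of the Galois group, the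
Mumford-Tate group is the identity component of `G`, and the Galois group maps onto the group of the
components of `G`. -/
def HasComponents (M : Obj ℓ Γ) (G : Set (Matrix M.κ M.κ ℂ)) : Prop :=
  ∀ g : Matrix M.κ M.κ (AlgebraicClosure ℚ_[ℓ]), g.det ≠ 0 →
    (InQGroup G g ↔ ∃ (σ : Γ) (m : Matrix M.κ M.κ (AlgebraicClosure ℚ_[ℓ])),
      InMumfordTate M.h m ∧ g = (M.ρ σ).map (algebraMap ℚ_[ℓ] (AlgebraicClosure ℚ_[ℓ])) * m)

end

end Run7.h457.MT
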