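import Pool.Agent.Run7.h457.MT.Iface
import Pool.Agent.Y759.TS.Kol

/-!
# Project MT457: unipotent representations without additive characters are trivial
-/

set_option autoImplicit false

namespace Run7.h457.MT

open Module

section

variable {Γ : Type} [Group Γ] [TopologicalSpace Γ]

/-- There are no nonzero continuous homomorphisms from `U` to the additive group of `k` which vanish,
for all members `I` of `𝓘`, on the elements of `I` near `1`. -/
def NoAdd (k : Type) [Field k] [TopologicalSpace k] (U : Subgroup Γ) (𝓘 : Set (Set Γ)) : Prop :=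
  ∀ f : Γ → k, ContinuousOn f U → (∀ σ ∈ U, ∀ τ ∈ U, f (σ * τ) = f σ + f τ) →
    (∀ I ∈ 𝓘, Near I fun σ => σ ∈ U → f σ = 0) → ∀ σ ∈ U, f σ = 0

omit [TopologicalSpace Γ] in
theorem kol {k : Type} [Field k] {W : Type} [AddCommGroup W] [Module k W]
    [FiniteDimensional k W] (φ : Γ →* Module.End k W) (hu : ∀ g, IsNilpotent (φ g - 1))
    (l : List Γ) (hl : l.length = finrank k W) : (l.map fun g => φ g - 1).prod = 0 := by
  let b := finBasis k W
  let e := LinearMap.toMatrixAlgEquiv b
  let ρ : Γ →* GL (Fin (finrank k W)) k :=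
    MonoidHom.toHomUnits ((e : Module.End k W →* Matrix (Fin (finrank k W))
      (Fin (finrank k W)) k).comp φ)
  have hρ : ∀ g, ((ρ g : Matrix (Fin (finrank k W)) (Fin (finrank k W)) k)) = e (φ g) :=
    fun g => rfl
  have h1 := Pool.Agent.Y759.TS.t_KOL k Γ (finrank k W) ρ (fun g => by
    obtain ⟨m, hm⟩ := hu g
    refine ⟨m, ?_⟩
    rw [hρ, ← map_one e, ← map_sub, ← map_pow, hm, map_zero])
    (fun i => l.get (i.cast hl.symm))
  have h2 : (List.ofFn fun i => (ρ (l.get (i.cast hl.symm)) :
      Matrix (Fin (finrank k W)) (Fin (finrank k W)) k) - 1) = l.map fun g => e (φ g - 1) := by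
    apply List.ext_get
    · simp [hl]
    · intro n h3 h4
      simp [hρ]
  rw [h2] at h1
  have h3 : (l.map fun g => e (φ g - 1)) = (l.map fun g => φ g - 1).map e := by
    rw [List.map_map]; rfl
  rw [h3, ← map_list_prod] at h1
  exact (map_eq_zero_iff e e.injective).1 h1

theorem uni {k : Type} [Field k] [TopologicalSpace k] [ContinuousAdd k]
    {U : Subgroup Γ} {𝓘 : Set (Set Γ)} (hno : NoAdd k U 𝓘) {W : Type} [AddCommGroup W] [Module k W]
    [FiniteDimensional k W] (r : Γ → Module.End k W) (h1 : r 1 = 1)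
    (hmul : ∀ σ τ, r (σ * τ) = r σ * r τ)
    (hc : ∀ (L : W →ₗ[k] k) (w : W), ContinuousOn (fun σ => L (r σ w)) U)
    (hu : ∀ σ ∈ U, IsNilpotent (r σ - 1))
    (hI : ∀ I ∈ 𝓘, Near I fun σ => σ ∈ U → r σ = 1) : ∀ σ ∈ U, r σ = 1 := by
  let φ : U →* Module.End k W :=
    { toFun := fun σ => r σ
      map_one' := h1
      map_mul' := fun σ τ => hmul σ τ }
  have h0 := kol φ (fun g => hu g g.2)
  -- descending induction
  have step : ∀ m : ℕ, (∀ l : List U, l.length = m + 2 → (l.map fun g => φ g - 1).prod = 0) →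
      ∀ l : List U, l.length = m + 1 → (l.map fun g => φ g - 1).prod = 0 := by
    intro m hm l hl
    obtain ⟨g, l', rfl⟩ : ∃ g l', l = g :: l' := by
      cases l with
      | nil => simp at hl
      | cons g l' => exact ⟨g, l', rfl⟩
    have hl' : l'.length = m := by simpa using hl
    refine LinearMap.ext fun x => ?_
    set w := (l'.map fun g => φ g - 1).prod x with hw
    have h2 : ∀ σ ∈ U, ∀ τ ∈ U, (r σ - 1) ((r τ - 1) w) = 0 := by
      intro σ hσ τ hτ
      have h3 := hm ((⟨σ, hσ⟩ : U) :: (⟨τ, hτ⟩ : U) :: l') (by simp [hl'])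
      have h4 := congrArg (fun f : Module.End k W => f x) h3
      rw [List.map_cons, List.map_cons, List.prod_cons, List.prod_cons] at h4
      exact h4
    have h3 : ∀ L : W →ₗ[k] k, ∀ σ ∈ U, L ((r σ - 1) w) = 0 := by
      intro L
      refine hno (fun σ => L ((r σ - 1) w)) ?_ ?_ ?_
      · have h5 : (fun σ => L ((r σ - 1) w)) = fun σ => L (r σ w) + L (-w) := by
          funext σ
          rw [← map_add, LinearMap.sub_apply, sub_eq_add_neg]
          rfl
        rw [h5]
        exact (hc L w).add continuousOn_const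
      · intro σ hσ τ hτ
        have h4 := h2 σ hσ τ hτ
        have h5 : (r (σ * τ) - 1) w = (r σ - 1) ((r τ - 1) w) + ((r σ - 1) w + (r τ - 1) w) := by
          rw [hmul]
          simp only [LinearMap.sub_apply, Module.End.mul_apply, map_sub, Module.End.one_apply]
          abel
        rw [h5, h4, zero_add, map_add]
      · intro I hI'
        obtain ⟨O, hO, hO1, hO2⟩ := hI I hI'
        refine ⟨O, hO, hO1, fun σ hσ hσI hσU => ?_⟩
        rw [hO2 σ hσ hσI hσU, sub_self, LinearMap.zero_apply, map_zero]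
    rw [List.map_cons, List.prod_cons, Module.End.mul_apply, LinearMap.zero_apply]
    exact (Module.forall_dual_apply_eq_zero_iff k _).1 fun L => h3 L g g.2
  have all : ∀ m : ℕ, (∀ l : List U, l.length = m + 1 → (l.map fun g => φ g - 1).prod = 0) →
      ∀ l : List U, l.length = 1 → (l.map fun g => φ g - 1).prod = 0 := by
    intro m
    induction m with
    | zero => intro h; exact h
    | succ m ih => intro h; exact ih (step m h)
  intro σ hσ
  rcases Nat.eq_zero_or_pos (finrank k W) with hd | hd
  · have hs : Subsingleton W := Module.finrank_zero_iff.1 hd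
    exact LinearMap.ext fun x => Subsingleton.elim _ _
  · obtain ⟨m, hm⟩ := Nat.exists_eq_succ_of_ne_zero hd.ne'
    have h2 := all m (by rw [← Nat.succ_eq_add_one, ← hm]; exact h0) [⟨σ, hσ⟩] rfl
    simp only [List.map_cons, List.map_nil, List.prod_cons, List.prod_nil, mul_one] at h2
    exact sub_eq_zero.1 h2

end

end Run7.h457.MT
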