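import Pool.Agent.Run7.h457.MT.Skw
import Pool.Agent.Run7.h457.MT.Uni

/-!
# Project MT457: the commutant in coordinates
-/

set_option autoImplicit false
set_option linter.unusedSectionVars false

namespace Run7.h457.MT

open Matrix NumberField Pool.Agent.N184.HK Pool.Agent.W401.Cheb

noncomputable section

variable {K : Type} [Field K] [NumberField K] {ℓ : ℕ} [Fact ℓ.Prime]
  {X : HKVariety K (PadicAlgCl ℓ)} {B : LLV X.d} (C : Comparison X B)

theorem toM_q : LinearMap.BilinForm.toMatrix (C.b 2) X.E.X.q =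
    B.q.map (algebraMap ℚ (PadicAlgCl ℓ)) := by
  ext j k
  rw [LinearMap.BilinForm.toMatrix_apply, C.hq]
  rfl

theorem skew_iff (A : Module.End (PadicAlgCl ℓ) (X.E.X.H 2)) : Skew X.E.X.q A ↔
    SkewMat (B.q.map (algebraMap ℚ (PadicAlgCl ℓ))) (LinearMap.toMatrix (C.b 2) (C.b 2) A) := by
  have h1 : Skew X.E.X.q A ↔ X.E.X.q.compLeft A + X.E.X.q.compRight A = 0 := by
    constructor
    · intro h
      refine LinearMap.ext fun x => LinearMap.ext fun y => ?_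
      exact h x y
    · intro h x y
      exact congrArg (fun f : LinearMap.BilinForm _ _ => f x y) h
  rw [h1, ← (LinearMap.BilinForm.toMatrix (C.b 2)).map_eq_zero_iff, map_add,
    LinearMap.BilinForm.toMatrix_compLeft, LinearMap.BilinForm.toMatrix_compRight, toM_q]
  rfl

theorem toM_inj {i : ℕ} {f g : Module.End (PadicAlgCl ℓ) (X.E.X.H i)}
    (h : LinearMap.toMatrix (C.b i) (C.b i) f = LinearMap.toMatrix (C.b i) (C.b i) g) : f = g :=
  (LinearMap.toMatrix (C.b i) (C.b i)).injective h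

theorem commute_iff {i : ℕ} (f g : Module.End (PadicAlgCl ℓ) (X.E.X.H i)) : Commute f g ↔
    Commute (LinearMap.toMatrix (C.b i) (C.b i) f) (LinearMap.toMatrix (C.b i) (C.b i) g) := by
  constructor
  · intro h
    have := congrArg (LinearMap.toMatrix (C.b i) (C.b i)) h.eq
    rw [LinearMap.toMatrix_mul, LinearMap.toMatrix_mul] at this
    exact this
  · intro h
    refine toM_inj C ?_
    rw [LinearMap.toMatrix_mul, LinearMap.toMatrix_mul]
    exact h.eq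

/-- The matrix of `ρ i A`, for `A` skew-symmetric. -/
theorem rho_mat (i : ℕ) (A : Module.End (PadicAlgCl ℓ) (X.E.X.H 2)) (hA : Skew X.E.X.q A) :
    LinearMap.toMatrix (C.b i) (C.b i) (X.E.X.ρ i A) =
      ext (PadicAlgCl ℓ) (B.ρ i) (LinearMap.toMatrix (C.b 2) (C.b 2) A) := by
  have h1 := skew_sum B.nondeg ((skew_iff C A).1 hA)
  have h2 : A = Matrix.toLin (C.b 2) (C.b 2) (LinearMap.toMatrix (C.b 2) (C.b 2) A) :=
    (Matrix.toLin_toMatrix _ _ _).symm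
  conv_lhs => rw [h2, h1]
  conv_rhs => rw [h1]
  simp only [map_sum, map_smul, ext_ratmap, C.hρ]

theorem cen_iff (i : ℕ) (c : Module.End (PadicAlgCl ℓ) (X.E.X.H i)) : c ∈ cen X.E.X i ↔
    ∀ A : Matrix (Fin (B.n 2)) (Fin (B.n 2)) ℚ, SkewMat B.q A →
      Commute ((B.ρ i A).map (algebraMap ℚ (PadicAlgCl ℓ)))
        (LinearMap.toMatrix (C.b i) (C.b i) c) := by
  constructor
  · intro h A hA
    have h1 : Skew X.E.X.q (Matrix.toLin (C.b 2) (C.b 2) (A.map (algebraMap ℚ (PadicAlgCl ℓ)))) := by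
      rw [skew_iff C, LinearMap.toMatrix_toLin]
      exact hA.map _
    have h2 := (commute_iff C _ _).1 (h _ h1)
    rwa [C.hρ] at h2
  · intro h A hA
    rw [commute_iff C, rho_mat C i A hA]
    rw [skew_sum B.nondeg ((skew_iff C A).1 hA)]
    simp only [map_sum, map_smul, ext_ratmap]
    refine Commute.sum_left _ _ _ fun j _ => Commute.sum_left _ _ _ fun k _ => ?_
    exact (h _ (skp_skew B.symm B.nondeg _)).smul_left _

/-- The commutant over `ℚ_ℓ`. -/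
def WW (B : LLV X.d) (i : ℕ) : Submodule ℚ_[ℓ] (Matrix (Fin (B.n i)) (Fin (B.n i)) ℚ_[ℓ]) where
  carrier := {w | ∀ A : Matrix (Fin (B.n 2)) (Fin (B.n 2)) ℚ, SkewMat B.q A →
    Commute ((B.ρ i A).map (algebraMap ℚ ℚ_[ℓ])) w}
  add_mem' ha hb A hA := (ha A hA).add_right (hb A hA)
  zero_mem' _ _ := Commute.zero_right _
  smul_mem' r _ ha A hA := (ha A hA).smul_right r

theorem mem_WW {i : ℕ} {w : Matrix (Fin (B.n i)) (Fin (B.n i)) ℚ_[ℓ]} :
    w ∈ WW (ℓ := ℓ) B i ↔ ∀ A : Matrix (Fin (B.n 2)) (Fin (B.n 2)) ℚ, SkewMat B.q A →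
    Commute ((B.ρ i A).map (algebraMap ℚ ℚ_[ℓ])) w := Iff.rfl

theorem map_commute {κ F F' : Type} [Fintype κ] [DecidableEq κ] [Field F] [Field F'] (φ : F →+* F')
    (A A' : Matrix κ κ F) : Commute (A.map φ) (A'.map φ) ↔ Commute A A' := by
  constructor
  · intro h
    have h1 := h.eq
    rw [← Matrix.map_mul, ← Matrix.map_mul] at h1
    exact Matrix.map_injective φ.injective h1
  · intro h
    change _ * _ = _ * _
    rw [← Matrix.map_mul, ← Matrix.map_mul, h.eq]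

theorem rat_map_map {κ : Type} (A : Matrix κ κ ℚ) :
    (A.map (algebraMap ℚ ℚ_[ℓ])).map (algebraMap ℚ_[ℓ] (PadicAlgCl ℓ)) =
      A.map (algebraMap ℚ (PadicAlgCl ℓ)) := by
  rw [Matrix.map_map]
  ext i j
  exact RingHom.congr_fun (Subsingleton.elim ((algebraMap ℚ_[ℓ] (PadicAlgCl ℓ)).comp
    (algebraMap ℚ ℚ_[ℓ])) (algebraMap ℚ (PadicAlgCl ℓ))) _

theorem mem_WW_iff {i : ℕ} {w : Matrix (Fin (B.n i)) (Fin (B.n i)) ℚ_[ℓ]} :
    w ∈ WW (ℓ := ℓ) B i ↔ Matrix.toLin (C.b i) (C.b i) (w.map (algebraMap ℚ_[ℓ] (PadicAlgCl ℓ))) ∈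
      cen X.E.X i := by
  rw [mem_WW, cen_iff C]
  refine forall_congr' fun A => forall_congr' fun hA => ?_
  rw [LinearMap.toMatrix_toLin, ← rat_map_map, map_commute]

/-- The matrix of the conjugate by `σ`. -/
theorem adE_mat (i : ℕ) (σ : GK K) (a : Module.End (PadicAlgCl ℓ) (X.E.X.H i)) :
    LinearMap.toMatrix (C.b i) (C.b i) (adE ((X.E.F σ).φ i) a) =
      (C.G i σ).map (algebraMap ℚ_[ℓ] (PadicAlgCl ℓ)) *
        LinearMap.toMatrix (C.b i) (C.b i) a *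
        (C.G i σ⁻¹).map (algebraMap ℚ_[ℓ] (PadicAlgCl ℓ)) := by
  rw [← C.hG, ← C.hG, ← LinearMap.toMatrix_mul, ← LinearMap.toMatrix_mul]
  congr 1
  unfold GaloisCohomology.Φ
  rw [phi_inv]
  rfl

/-- The action of `σ` on the matrices. -/
def cj (i : ℕ) (σ : GK K) : Module.End ℚ_[ℓ] (Matrix (Fin (B.n i)) (Fin (B.n i)) ℚ_[ℓ]) where
  toFun w := C.G i σ * w * C.G i σ⁻¹
  map_add' a b := by rw [mul_add, add_mul]
  map_smul' c a := by rw [RingHom.id_apply, mul_smul_comm, smul_mul_assoc]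

theorem cj_lin (i : ℕ) (σ : GK K) (w : Matrix (Fin (B.n i)) (Fin (B.n i)) ℚ_[ℓ]) :
    Matrix.toLin (C.b i) (C.b i) ((cj C i σ w).map (algebraMap ℚ_[ℓ] (PadicAlgCl ℓ))) =
      adE ((X.E.F σ).φ i) (Matrix.toLin (C.b i) (C.b i)
        (w.map (algebraMap ℚ_[ℓ] (PadicAlgCl ℓ)))) := by
  refine toM_inj C ?_
  rw [LinearMap.toMatrix_toLin, adE_mat, LinearMap.toMatrix_toLin, ← Matrix.map_mul,
    ← Matrix.map_mul]
  rfl

theorem cj_mem {i : ℕ} (σ : GK K) {w : Matrix (Fin (B.n i)) (Fin (B.n i)) ℚ_[ℓ]}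
    (hw : w ∈ WW (ℓ := ℓ) B i) : cj C i σ w ∈ WW (ℓ := ℓ) B i := by
  rw [mem_WW_iff C, cj_lin]
  exact cen_ad _ ((mem_WW_iff C).1 hw)

/-- The action of `σ` on the commutant. -/
def rr (i : ℕ) (σ : GK K) : Module.End ℚ_[ℓ] (WW (ℓ := ℓ) B i) :=
  (cj C i σ).restrict fun _ hw => cj_mem C σ hw

theorem rr_apply (i : ℕ) (σ : GK K) (w : WW (ℓ := ℓ) B i) :
    ((rr C i σ w : WW (ℓ := ℓ) B i) : Matrix (Fin (B.n i)) (Fin (B.n i)) ℚ_[ℓ]) =
      C.G i σ * w * C.G i σ⁻¹ := rfl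

theorem rr_one (i : ℕ) : rr C i 1 = 1 := by
  refine LinearMap.ext fun w => Subtype.ext ?_
  rw [rr_apply, map_one, inv_one, map_one, one_mul, mul_one]
  rfl

theorem rr_mul (i : ℕ) (σ τ : GK K) : rr C i (σ * τ) = rr C i σ * rr C i τ := by
  refine LinearMap.ext fun w => Subtype.ext ?_
  rw [rr_apply, Module.End.mul_apply, rr_apply, rr_apply, map_mul, _root_.mul_inv_rev, map_mul]
  simp only [mul_assoc]

/-- `w ↦` the endomorphism with the matrix `w`. -/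
def jj (i : ℕ) (w : WW (ℓ := ℓ) B i) : Module.End (PadicAlgCl ℓ) (X.E.X.H i) :=
  Matrix.toLin (C.b i) (C.b i)
    ((w : Matrix (Fin (B.n i)) (Fin (B.n i)) ℚ_[ℓ]).map (algebraMap ℚ_[ℓ] (PadicAlgCl ℓ)))

theorem jj_rr (i : ℕ) (σ : GK K) (w : WW (ℓ := ℓ) B i) :
    jj C i (rr C i σ w) = adE ((X.E.F σ).φ i) (jj C i w) := cj_lin C i σ w

theorem jj_sub (i : ℕ) (w w' : WW (ℓ := ℓ) B i) : jj C i (w - w') = jj C i w - jj C i w' := by
  unfold jj
  rw [← map_sub, ← Matrix.map_sub _ (map_sub _)]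
  rfl

theorem jj_zero {i : ℕ} {w : WW (ℓ := ℓ) B i} (h : jj C i w = 0) : w = 0 := by
  refine Subtype.ext ?_
  have h1 := (Matrix.toLin (C.b i) (C.b i)).map_eq_zero_iff.1 h
  refine Matrix.map_injective (algebraMap ℚ_[ℓ] (PadicAlgCl ℓ)).injective ?_
  exact h1.trans (Matrix.map_zero _ (map_zero _)).symm

theorem jj_pow (i : ℕ) (σ : GK K) (m : ℕ) (w : WW (ℓ := ℓ) B i) :
    jj C i ((rr C i σ ^ m) w) = ((adE ((X.E.F σ).φ i)) ^ m) (jj C i w) := by
  induction m with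
  | zero => rfl
  | succ m ih => rw [_root_.pow_succ', Module.End.mul_apply, jj_rr, ih, _root_.pow_succ',
      Module.End.mul_apply]

theorem rr_quasi {i : ℕ} (hi : i ≤ X.d) (σ : GK K) :
    ((rr C i σ) ^ (expo X i) - 1) ^ (Module.finrank (PadicAlgCl ℓ) (cen X.E.X i)) = 0 := by
  refine LinearMap.ext fun w => jj_zero C ?_
  have h2 : ∀ (m : ℕ) (w : WW (ℓ := ℓ) B i), jj C i ((((rr C i σ) ^ (expo X i) - 1) ^ m) w) =
      (((adE ((X.E.F σ).φ i)) ^ (expo X i) - 1) ^ m) (jj C i w) := by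
    intro m
    induction m with
    | zero => intro w; rfl
    | succ m ih =>
      intro w
      rw [_root_.pow_succ', Module.End.mul_apply, LinearMap.sub_apply, jj_sub, jj_pow, ih,
        _root_.pow_succ', Module.End.mul_apply, LinearMap.sub_apply, Module.End.one_apply, ih]
      rfl
  rw [h2]
  exact all_quasi X hi ((mem_WW_iff C).1 w.2) σ

end

end Run7.h457.MT
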