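import Pool.Agent.Run7.h457.MT.Tr1

/-!
# Project MT457: an open subgroup acts trivially on the commutant
-/

set_option autoImplicit false
set_option linter.unusedSectionVars false

namespace Run7.h457.MT

open Matrix NumberField Pool.Agent.N184.HK Pool.Agent.W401.Cheb Filter Topology

noncomputable section

section general

/-- A quasi-unipotent operator `r` with `1 + r + ⋯ + r ^ (e - 1)` invertible is unipotent. -/
theorem unip_of {k W : Type} [Field k] [AddCommGroup W] [Module k W] [FiniteDimensional k W]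
    {r : Module.End k W} {e m : ℕ} (h : (r ^ e - 1) ^ m = 0)
    (hd : LinearMap.det (∑ j ∈ Finset.range e, r ^ j) ≠ 0) : IsNilpotent (r - 1) := by
  refine ⟨m, ?_⟩
  have h1 : (∑ j ∈ Finset.range e, r ^ j) * (r - 1) = r ^ e - 1 := geom_sum_mul r e
  have hc : Commute (∑ j ∈ Finset.range e, r ^ j) (r - 1) := by
    refine Commute.sum_left _ _ _ fun j _ => ?_
    exact ((Commute.refl r).pow_left j).sub_right (Commute.one_right _)
  rw [← h1, hc.mul_pow] at h
  have hu : IsUnit (∑ j ∈ Finset.range e, r ^ j) :=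
    (LinearMap.isUnit_iff_isUnit_det _).2 (isUnit_iff_ne_zero.2 hd)
  exact ((hu.pow m).mul_right_eq_zero).1 h

/-- An open neighbourhood of `1` in a Galois group contains an open subgroup. -/
theorem exists_open {K : Type} [Field K] {O : Set (GK K)} (hO : O ∈ 𝓝 (1 : GK K)) :
    ∃ U : Subgroup (GK K), IsOpen (U : Set (GK K)) ∧ (U : Set (GK K)) ⊆ O := by
  rw [krullTopology_mem_nhds_one_iff] at hO
  obtain ⟨E, hE, hEO⟩ := hO
  exact ⟨E.fixingSubgroup, IntermediateField.fixingSubgroup_isOpen E, hEO⟩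

end general

variable {K : Type} [Field K] [NumberField K] {ℓ : ℕ} [Fact ℓ.Prime]
  {X : HKVariety K (PadicAlgCl ℓ)} {B : LLV X.d} (C : Comparison X B)

/-- The entries of `G i σ` are continuous. -/
theorem cont_G (i : ℕ) : Continuous fun σ : GK K => C.G i σ := by
  refine continuous_matrix fun j k => ?_
  let L : Module.End (PadicAlgCl ℓ) (X.E.X.H i) →ₗ[PadicAlgCl ℓ] PadicAlgCl ℓ :=
    { toFun := fun f => LinearMap.toMatrix (C.b i) (C.b i) f j k
      map_add' := fun f g => by rw [map_add]; rfl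
      map_smul' := fun c f => by rw [map_smul]; rfl }
  have h1 : Continuous fun σ : GK K => L (X.E.Φ σ i) := X.E.cont i L
  have h2 : (fun σ : GK K => L (X.E.Φ σ i)) =
      fun σ => algebraMap ℚ_[ℓ] (PadicAlgCl ℓ) (C.G i σ j k) := by
    funext σ
    change LinearMap.toMatrix (C.b i) (C.b i) (X.E.Φ σ i) j k = _
    rw [C.hG]
    rfl
  rw [h2] at h1
  have h3 : Isometry (algebraMap ℚ_[ℓ] (PadicAlgCl ℓ)) :=
    AddMonoidHomClass.isometry_of_norm _ fun x => PadicAlgCl.norm_extends ℓ x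
  exact h3.isEmbedding.continuous_iff.2 h1

theorem cont_cj (i : ℕ) (w : Matrix (Fin (B.n i)) (Fin (B.n i)) ℚ_[ℓ]) :
    Continuous fun σ : GK K => cj C i σ w := by
  have h1 := cont_G C i
  have h2 : Continuous fun σ : GK K => C.G i σ⁻¹ := h1.comp continuous_inv
  exact (h1.mul continuous_const).mul h2

theorem cont_rr (i : ℕ) (L : WW (ℓ := ℓ) B i →ₗ[ℚ_[ℓ]] ℚ_[ℓ]) (w : WW (ℓ := ℓ) B i) :
    Continuous fun σ : GK K => L (rr C i σ w) := by
  obtain ⟨L', hL'⟩ := L.exists_extend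
  have h1 : ∀ w : WW (ℓ := ℓ) B i, L w = L' w := fun w => by rw [← hL']; rfl
  have h2 : (fun σ : GK K => L (rr C i σ w)) = fun σ => L' (cj C i σ w) := by
    funext σ
    rw [h1]
    rfl
  rw [h2]
  have h3 : Continuous L' := LinearMap.continuous_of_finiteDimensional L'
  exact h3.comp (cont_cj C i w)

theorem cont_det (i e : ℕ) : Continuous fun σ : GK K =>
    LinearMap.det (∑ j ∈ Finset.range e, (rr C i σ) ^ j) := by
  let b := Module.finBasis ℚ_[ℓ] (WW (ℓ := ℓ) B i)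
  have h1 : Continuous fun σ : GK K => LinearMap.toMatrix b b (rr C i σ) := by
    refine continuous_matrix fun j k => ?_
    have h2 := cont_rr C i (b.coord j) (b k)
    convert h2 using 2
    rw [LinearMap.toMatrix_apply]
    rfl
  have h2 : (fun σ : GK K => LinearMap.det (∑ j ∈ Finset.range e, (rr C i σ) ^ j)) =
      fun σ => (∑ j ∈ Finset.range e, (LinearMap.toMatrix b b (rr C i σ)) ^ j).det := by
    funext σ
    rw [← LinearMap.det_toMatrix b, map_sum]
    congr 1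
    refine Finset.sum_congr rfl fun j _ => ?_
    rw [LinearMap.toMatrix_pow]
  rw [h2]
  exact Continuous.matrix_det (continuous_finset_sum _ fun j _ => h1.pow j)

/-- An open subgroup acts unipotently on the commutant. -/
theorem exists_unip {i : ℕ} (hi : i ≤ X.d) : ∃ U : Subgroup (GK K), IsOpen (U : Set (GK K)) ∧
    ∀ σ ∈ U, IsNilpotent (rr C i σ - 1) := by
  have h1 := cont_det C i (expo X i)
  have h2 : (fun σ : GK K => LinearMap.det (∑ j ∈ Finset.range (expo X i), (rr C i σ) ^ j)) ⁻¹'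
      {0}ᶜ ∈ 𝓝 (1 : GK K) := by
    refine h1.continuousAt.preimage_mem_nhds (isOpen_compl_singleton.mem_nhds ?_)
    simp only [rr_one, one_pow, Finset.sum_const, Finset.card_range, Set.mem_compl_iff,
      Set.mem_singleton_iff]
    have h3 : (expo X i • (1 : Module.End ℚ_[ℓ] (WW (ℓ := ℓ) B i))) =
        ((expo X i : ℕ) : ℚ_[ℓ]) • 1 := by
      rw [Nat.cast_smul_eq_nsmul]
    rw [h3, LinearMap.det_smul]
    have h4 : ((expo X i : ℕ) : ℚ_[ℓ]) ≠ 0 := by
      exact_mod_cast (Nat.factorial_pos _).ne'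
    have h5 : LinearMap.det (1 : Module.End ℚ_[ℓ] (WW (ℓ := ℓ) B i)) = 1 := map_one _
    rw [h5, mul_one]
    exact pow_ne_zero _ h4
  obtain ⟨U, hU, hUO⟩ := exists_open h2
  exact ⟨U, hU, fun σ hσ => unip_of (rr_quasi C hi σ) (hUO hσ)⟩

theorem near_finset {Γ ι : Type} [Group Γ] [TopologicalSpace Γ] (I : Set Γ) (s : Finset ι)
    (P : ι → Γ → Prop) (h : ∀ a ∈ s, Near I (P a)) : Near I fun σ => ∀ a ∈ s, P a σ := by
  classical
  induction s using Finset.induction_on with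
  | empty => exact ⟨Set.univ, isOpen_univ, trivial, fun σ _ _ a ha => absurd ha (by simp)⟩
  | insert a s ha ih =>
    obtain ⟨O, hO, hO1, hO2⟩ := h a (Finset.mem_insert_self a s)
    obtain ⟨O', hO', hO1', hO2'⟩ := ih fun b hb => h b (Finset.mem_insert_of_mem hb)
    refine ⟨O ∩ O', hO.inter hO', ⟨hO1, hO1'⟩, fun σ hσ hσI b hb => ?_⟩
    rcases Finset.mem_insert.1 hb with rfl | hb
    · exact hO2 σ hσ.1 hσI
    · exact hO2' σ hσ.2 hσI b hb

/-- Elements of the commutant commute with Sen's operator. -/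
theorem comm_sen {Q : Ideal (𝓞 (AlgebraicClosure K))} (T : HodgeTate C Q) {i : ℕ} (hi : i ≤ X.d)
    (w : WW (ℓ := ℓ) B i) : Commute ((w : Matrix (Fin (B.n i)) (Fin (B.n i)) ℚ_[ℓ]).map
      (algebraMap ℚ_[ℓ] ℂ_[ℓ])) (T.Θ i) := by
  rw [T.hΘ i hi]
  refine Commute.neg_right (Commute.add_right ((Commute.one_right _).smul_right _) ?_)
  rw [skew_sum B.nondeg T.skew]
  simp only [map_sum, map_smul, ext_ratmap]
  refine Commute.sum_right _ _ _ fun j _ => Commute.sum_right _ _ _ fun k _ =>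
    Commute.smul_right ?_ _
  have h1 := w.2 _ (skp_skew B.symm B.nondeg (Matrix.single j k 1))
  have h2 := ((map_commute (algebraMap ℚ_[ℓ] ℂ_[ℓ]) _ _).2 h1).symm
  have h3 : ((B.ρ i (skp B.q (Matrix.single j k 1))).map (algebraMap ℚ ℚ_[ℓ])).map
      (algebraMap ℚ_[ℓ] ℂ_[ℓ]) = (B.ρ i (skp B.q (Matrix.single j k 1))).map
        (algebraMap ℚ ℂ_[ℓ]) := by
    rw [Matrix.map_map]
    ext a b
    exact RingHom.congr_fun (Subsingleton.elim ((algebraMap ℚ_[ℓ] ℂ_[ℓ]).comp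
      (algebraMap ℚ ℚ_[ℓ])) (algebraMap ℚ ℂ_[ℓ])) _
  rwa [h3] at h2

/-- The inertia groups above `ℓ` act trivially on the commutant, near `1`. -/
theorem near_rr {Q : Ideal (𝓞 (AlgebraicClosure K))} (T : HodgeTate C Q) {i : ℕ} (hi : i ≤ X.d) :
    Near (inertia Q) fun σ => rr C i σ = 1 := by
  let b := Module.finBasis ℚ_[ℓ] (WW (ℓ := ℓ) B i)
  obtain ⟨O, hO, hO1, hO2⟩ := near_finset (inertia Q) Finset.univ
    (fun j σ => Commute (b j : Matrix (Fin (B.n i)) (Fin (B.n i)) ℚ_[ℓ]) (C.G i σ))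
    fun j _ => T.sen i hi _ (comm_sen C T hi (b j))
  refine ⟨O, hO, hO1, fun σ hσ hσI => b.ext fun j => Subtype.ext ?_⟩
  have h1 := (hO2 σ hσ hσI j (Finset.mem_univ _)).eq
  rw [rr_apply, ← h1, mul_assoc, ← map_mul, mul_inv_cancel, map_one, mul_one]
  rfl

/-- **An open subgroup acts trivially on the commutant.** -/
theorem triv (hcft : CFT K ℓ) (hT : ∀ Q : Ideal (𝓞 (AlgebraicClosure K)), Q.IsMaximal →
    (ℓ : 𝓞 (AlgebraicClosure K)) ∈ Q → Nonempty (HodgeTate C Q)) {i : ℕ} (hi : i ≤ X.d) :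
    ∃ U : Subgroup (GK K), IsOpen (U : Set (GK K)) ∧ ∀ σ ∈ U, ∀ c ∈ cen X.E.X i,
      Commute c (X.E.Φ σ i) := by
  obtain ⟨U, hU, hun⟩ := exists_unip C hi
  refine ⟨U, hU, fun σ hσ c hc => ?_⟩
  have hno : NoAdd ℚ_[ℓ] U {I | ∃ Q : Ideal (𝓞 (AlgebraicClosure K)), Q.IsMaximal ∧
      (ℓ : 𝓞 (AlgebraicClosure K)) ∈ Q ∧ I = inertia Q} := by
    intro f hf hadd hI
    exact hcft U hU f hf hadd fun Q hQ hℓ => hI _ ⟨Q, hQ, hℓ, rfl⟩
  have h1 := uni hno (rr C i) (rr_one C i) (rr_mul C i)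
    (fun L w => (cont_rr C i L w).continuousOn) hun (by
      rintro I ⟨Q, hQ, hℓ, rfl⟩
      obtain ⟨T⟩ := hT Q hQ hℓ
      obtain ⟨O, hO, hO1, hO2⟩ := near_rr C T hi
      exact ⟨O, hO, hO1, fun σ hσ hσI _ => hO2 σ hσ hσI⟩) σ hσ
  have h2 : ∀ w ∈ WW (ℓ := ℓ) B i, Commute w (C.G i σ) := by
    intro w hw
    have h3 := congrArg (fun r : Module.End ℚ_[ℓ] (WW (ℓ := ℓ) B i) =>
      ((r ⟨w, hw⟩ : WW (ℓ := ℓ) B i) : Matrix (Fin (B.n i)) (Fin (B.n i)) ℚ_[ℓ])) h1
    have h4 : C.G i σ * w * C.G i σ⁻¹ = w := h3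
    have h5 : C.G i σ * w * C.G i σ⁻¹ * C.G i σ = w * C.G i σ := by rw [h4]
    rw [mul_assoc, ← map_mul, inv_mul_cancel, map_one, mul_one] at h5
    exact h5.symm
  -- expand over the dual of the coefficient field
  rw [commute_iff C, C.hG]
  set c' := LinearMap.toMatrix (C.b i) (C.b i) c with hc'
  refine sub_eq_zero.1 ?_
  ext j k
  refine (Module.forall_dual_apply_eq_zero_iff ℚ_[ℓ] _).1 fun φ => ?_
  have h3 : c'.map φ ∈ WW (ℓ := ℓ) B i := by
    intro A hA
    have h4 := ((cen_iff C i c).1 hc A hA).eq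
    rw [← rat_map_map] at h4
    change _ = _
    ext a b
    have h5 := congrArg φ (congrFun (congrFun h4 a) b)
    simp only [Matrix.mul_apply, map_sum, Matrix.map_apply] at h5 ⊢
    have h6 : ∀ (x : ℚ_[ℓ]) (y : PadicAlgCl ℓ), φ (algebraMap ℚ_[ℓ] (PadicAlgCl ℓ) x * y) =
        x * φ y := fun x y => by rw [← Algebra.smul_def, map_smul, smul_eq_mul]
    have h7 : ∀ (x : ℚ_[ℓ]) (y : PadicAlgCl ℓ), φ (y * algebraMap ℚ_[ℓ] (PadicAlgCl ℓ) x) =
        φ y * x := fun x y => by rw [mul_comm, h6, mul_comm]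
    simp only [h6, h7] at h5
    exact h5
  have h4 := congrFun (congrFun (h2 _ h3).eq j) k
  simp only [Matrix.mul_apply, Matrix.map_apply] at h4
  simp only [Matrix.sub_apply, Matrix.mul_apply, Matrix.map_apply, map_sub, map_sum]
  have h6 : ∀ (x : ℚ_[ℓ]) (y : PadicAlgCl ℓ), φ (algebraMap ℚ_[ℓ] (PadicAlgCl ℓ) x * y) =
      x * φ y := fun x y => by rw [← Algebra.smul_def, map_smul, smul_eq_mul]
  have h7 : ∀ (x : ℚ_[ℓ]) (y : PadicAlgCl ℓ), φ (y * algebraMap ℚ_[ℓ] (PadicAlgCl ℓ) x) =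
      φ y * x := fun x y => by rw [mul_comm, h6, mul_comm]
  simp only [h6, h7]
  rw [h4, sub_self]

end

end Run7.h457.MT
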